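import Mathlib.Topology.Sheaves.Presheaf
import Mathlib.Tactic.Monotonicity.Lemmas
import Mathlib.Algebra.Order.Ring.Star
import Mathlib.Algebra.Order.Archimedean.Real.Hom
import Mathlib.Algebra.Order.Star.Real
import Mathlib.Analysis.InnerProductSpace.Dual
import Mathlib.Analysis.InnerProductSpace.Calculus
import Mathlib.Analysis.Calculus.ParametricIntegral
import Mathlib.Analysis.SpecialFunctions.Trigonometric.DerivHyp
import Mathlib.Analysis.SpecialFunctions.Gaussian.FourierTransform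
import Mathlib.RingTheory.PiTensorProduct

-- ======== part 0: formerly Pool.Agent.MP_bcd61f_mp.Gauss
section MrgPart0

set_option autoImplicit false
set_option maxSynthPendingDepth 3

open MeasureTheory Real Filter Topology Set

namespace Pool.Agent.MP_bcd61f_mp

variable {V : Type*} [NormedAddCommGroup V] [InnerProductSpace ℝ V] [FiniteDimensional ℝ V]
  [MeasurableSpace V] [BorelSpace V]

/-- Half the dimension, as a real number. -/
noncomputable def hd (V : Type*) [NormedAddCommGroup V] [InnerProductSpace ℝ V] : ℝ :=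
  (Module.finrank ℝ V : ℝ) / 2

theorem gauss_int {b : ℝ} (hb : 0 < b) (μ : V) :
    ∫ y : V, rexp (-b * ‖y - μ‖ ^ 2) = (π / b) ^ hd V := by
  rw [integral_sub_right_eq_self (fun y : V => rexp (-b * ‖y‖ ^ 2)) μ]
  exact GaussianFourier.integral_rexp_neg_mul_sq_norm hb

theorem gauss_integrable {b : ℝ} (hb : 0 < b) (μ : V) :
    Integrable (fun y : V => rexp (-b * ‖y - μ‖ ^ 2)) := by
  apply Integrable.of_integral_ne_zero
  rw [gauss_int hb]
  exact (Real.rpow_pos_of_pos (div_pos pi_pos hb) _).ne'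

omit [FiniteDimensional ℝ V] [MeasurableSpace V] [BorelSpace V] in
theorem star_identity {ι : Type*} [Fintype ι] (β : ι → ℝ) (z : ι → V) (hB : ∑ i, β i ≠ 0) (y : V) :
    ∑ i, β i * ‖y - z i‖ ^ 2 =
      (∑ i, β i) * ‖y - (∑ i, β i)⁻¹ • ∑ i, β i • z i‖ ^ 2 +
        (∑ i, ∑ j, β i * β j * ‖z i - z j‖ ^ 2) / (2 * ∑ i, β i) := by
  set B := ∑ i, β i with hBdef
  set s := ∑ i, β i • z i with hs
  have h1 : ∑ i, β i * ‖y - z i‖ ^ 2 =
      B * ‖y‖ ^ 2 - 2 * inner ℝ y s + ∑ i, β i * ‖z i‖ ^ 2 := by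
    simp only [norm_sub_sq_real, hs, inner_sum, inner_smul_right, hBdef, Finset.sum_mul,
      Finset.mul_sum, ← Finset.sum_sub_distrib, ← Finset.sum_add_distrib]
    exact Finset.sum_congr rfl fun i _ => by ring
  have h2 : ∑ i, ∑ j, β i * β j * ‖z i - z j‖ ^ 2 =
      2 * B * (∑ i, β i * ‖z i‖ ^ 2) - 2 * ‖s‖ ^ 2 := by
    have h3 : ‖s‖ ^ 2 = ∑ i, ∑ j, β i * β j * inner ℝ (z i) (z j) := by
      rw [← real_inner_self_eq_norm_sq, hs, sum_inner]
      refine Finset.sum_congr rfl fun i _ => ?_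
      rw [inner_sum]
      refine Finset.sum_congr rfl fun j _ => ?_
      rw [inner_smul_left, inner_smul_right]; simp; ring
    have h4 : ∑ i, ∑ j, β i * β j * ‖z i‖ ^ 2 = B * ∑ i, β i * ‖z i‖ ^ 2 := by
      rw [Finset.mul_sum]
      refine Finset.sum_congr rfl fun i _ => ?_
      rw [hBdef, Finset.sum_mul]
      exact Finset.sum_congr rfl fun j _ => by ring
    have h5 : ∑ i, ∑ j, β i * β j * ‖z j‖ ^ 2 = B * ∑ i, β i * ‖z i‖ ^ 2 := by
      rw [Finset.sum_comm, ← h4]
      exact Finset.sum_congr rfl fun i _ => Finset.sum_congr rfl fun j _ => by ring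
    have h6 : ∑ i, ∑ j, β i * β j * ‖z i - z j‖ ^ 2 =
        ∑ i, ∑ j, β i * β j * ‖z i‖ ^ 2 - 2 * ∑ i, ∑ j, β i * β j * inner ℝ (z i) (z j) +
          ∑ i, ∑ j, β i * β j * ‖z j‖ ^ 2 := by
      simp only [norm_sub_sq_real, Finset.mul_sum, ← Finset.sum_sub_distrib,
        ← Finset.sum_add_distrib]
      exact Finset.sum_congr rfl fun i _ => Finset.sum_congr rfl fun j _ => by ring
    rw [h6, h4, h5, ← h3]; ring
  rw [h1, h2, norm_sub_sq_real, inner_smul_right, norm_smul, mul_pow, Real.norm_eq_abs, sq_abs]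
  field_simp
  ring

theorem star_integrable {ι : Type*} [Fintype ι] (β : ι → ℝ) (z : ι → V) (hB : 0 < ∑ i, β i) :
    Integrable (fun y : V => rexp (-∑ i, β i * ‖y - z i‖ ^ 2)) := by
  simp_rw [star_identity β z hB.ne', neg_add, Real.exp_add, ← neg_mul]
  exact (gauss_integrable hB _).mul_const _

theorem star_int {ι : Type*} [Fintype ι] (β : ι → ℝ) (z : ι → V) (hB : 0 < ∑ i, β i) :
    ∫ y : V, rexp (-∑ i, β i * ‖y - z i‖ ^ 2) =
      (π / ∑ i, β i) ^ hd V *
        rexp (-((∑ i, ∑ j, β i * β j * ‖z i - z j‖ ^ 2) / (2 * ∑ i, β i))) := by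
  simp_rw [star_identity β z hB.ne', neg_add, Real.exp_add, ← neg_mul]
  rw [integral_mul_const, gauss_int hB]

/-- The normalised Gaussian kernel. -/
noncomputable def ker (κ : ℝ) (z : V) : ℝ := (κ / π) ^ hd V * rexp (-κ * ‖z‖ ^ 2)

/-- Convolution with the Gaussian kernel. -/
noncomputable def Av (κ : ℝ) (h : V → ℝ) (x : V) : ℝ := ∫ y, ker κ (x - y) * h y

omit [FiniteDimensional ℝ V] [MeasurableSpace V] [BorelSpace V] in
theorem ker_pos {κ : ℝ} (hκ : 0 < κ) (z : V) : 0 < ker κ z :=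
  mul_pos (Real.rpow_pos_of_pos (div_pos hκ pi_pos) _) (Real.exp_pos _)

omit [FiniteDimensional ℝ V] [MeasurableSpace V] [BorelSpace V] in
theorem ker_le {κ : ℝ} (hκ : 0 < κ) (z : V) : ker κ z ≤ (κ / π) ^ hd V := by
  unfold ker
  have : rexp (-κ * ‖z‖ ^ 2) ≤ 1 := by
    rw [Real.exp_le_one_iff]; nlinarith [sq_nonneg ‖z‖]
  exact mul_le_of_le_one_right (Real.rpow_pos_of_pos (div_pos hκ pi_pos) _).le this

omit [FiniteDimensional ℝ V] [MeasurableSpace V] [BorelSpace V] in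
theorem ker_neg (κ : ℝ) (z : V) : ker κ (-z) = ker κ z := by simp [ker]

omit [FiniteDimensional ℝ V] [MeasurableSpace V] [BorelSpace V] in
theorem ker_sub_comm (κ : ℝ) (x y : V) : ker κ (x - y) = ker κ (y - x) := by
  rw [← ker_neg, neg_sub]

omit [FiniteDimensional ℝ V] [MeasurableSpace V] [BorelSpace V] in
theorem ker_continuous (κ : ℝ) : Continuous (ker κ : V → ℝ) := by
  unfold ker; fun_prop

theorem ker_integrable {κ : ℝ} (hκ : 0 < κ) : Integrable (ker κ : V → ℝ) := by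
  have := (gauss_integrable hκ (0 : V)).const_mul ((κ / π) ^ hd V)
  simp only [sub_zero] at this
  exact this

theorem ker_int {κ : ℝ} (hκ : 0 < κ) : ∫ z : V, ker κ z = 1 := by
  have := gauss_int hκ (0 : V)
  simp only [sub_zero] at this
  unfold ker
  rw [integral_const_mul, this, ← Real.mul_rpow (div_pos hκ pi_pos).le (div_pos pi_pos hκ).le]
  have : κ / π * (π / κ) = 1 := by field_simp
  rw [this, Real.one_rpow]

theorem ker_sub_integrable {κ : ℝ} (hκ : 0 < κ) (x : V) :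
    Integrable (fun y : V => ker κ (x - y)) :=
  (ker_integrable hκ).comp_sub_left x

theorem ker_sub_int {κ : ℝ} (hκ : 0 < κ) (x : V) : ∫ y : V, ker κ (x - y) = 1 := by
  rw [integral_sub_left_eq_self (fun y : V => ker κ y) volume x, ker_int hκ]

/-- Moment generating function. -/
theorem ker_mgf {κ : ℝ} (hκ : 0 < κ) (v : V) :
    Integrable (fun z : V => ker κ z * rexp (inner ℝ z v)) ∧
      ∫ z : V, ker κ z * rexp (inner ℝ z v) = rexp (‖v‖ ^ 2 / (4 * κ)) := by
  have key : ∀ z : V, ker κ z * rexp (inner ℝ z v) =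
      rexp (‖v‖ ^ 2 / (4 * κ)) * ker κ (z - (2 * κ)⁻¹ • v) := by
    intro z
    unfold ker
    rw [mul_assoc, ← Real.exp_add, mul_left_comm, ← Real.exp_add]
    congr 2
    rw [norm_sub_sq_real, inner_smul_right, norm_smul, mul_pow, Real.norm_eq_abs, sq_abs]
    field_simp
    ring
  simp_rw [key]
  refine ⟨((ker_integrable hκ).comp_sub_right _).const_mul _, ?_⟩
  rw [integral_const_mul, integral_sub_right_eq_self (fun y : V => ker κ y), ker_int hκ, mul_one]

theorem sq_le_exp_add_exp (u : ℝ) : 2 + u ^ 2 ≤ rexp u + rexp (-u) := by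
  have h1 : Real.cosh u = 1 + 2 * Real.sinh (u / 2) ^ 2 := by
    have := Real.cosh_two_mul (u / 2)
    rw [show 2 * (u / 2) = u by ring, Real.cosh_sq] at this
    linarith
  have h2 : (u / 2) ^ 2 ≤ Real.sinh (u / 2) ^ 2 := by
    rw [sq_le_sq, Real.abs_sinh]
    exact Real.self_le_sinh_iff.2 (abs_nonneg _)
  rw [Real.cosh_eq] at h1
  nlinarith

theorem ker_sq_integrable {κ : ℝ} (hκ : 0 < κ) (v : V) :
    Integrable (fun z : V => ker κ z * inner ℝ z v ^ 2) := by
  have h1 := (ker_mgf hκ v).1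
  have h2 := (ker_mgf hκ (-v)).1
  refine Integrable.mono' (h1.add h2) ?_ (Eventually.of_forall fun z => ?_)
  · exact ((ker_continuous κ).mul (by fun_prop)).aestronglyMeasurable
  · have hk := ker_pos hκ z
    rw [Real.norm_eq_abs, abs_of_nonneg (by positivity), Pi.add_apply, ← mul_add, inner_neg_right]
    apply mul_le_mul_of_nonneg_left _ hk.le
    have := sq_le_exp_add_exp (inner ℝ z v)
    linarith

theorem ker_lin_integrable {κ : ℝ} (hκ : 0 < κ) (v : V) :
    Integrable (fun z : V => ker κ z * inner ℝ z v) := by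
  refine Integrable.mono' ((ker_integrable hκ).add (ker_sq_integrable hκ v)) ?_
    (Eventually.of_forall fun z => ?_)
  · exact ((ker_continuous κ).mul (by fun_prop)).aestronglyMeasurable
  · have hk := ker_pos hκ z
    rw [Real.norm_eq_abs, abs_mul, abs_of_pos hk, Pi.add_apply]
    have : |inner ℝ z v| ≤ 1 + inner ℝ z v ^ 2 := by
      rw [← sq_abs]; nlinarith [abs_nonneg (inner ℝ z v)]
    nlinarith

theorem ker_lin_int (κ : ℝ) (v : V) : ∫ z : V, ker κ z * inner ℝ z v = 0 := by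
  have h := integral_neg_eq_self (fun z : V => ker κ z * inner ℝ z v) volume
  simp only [ker_neg, inner_neg_left, mul_neg, integral_neg] at h
  linarith

theorem ker_sq_int_le {κ : ℝ} (hκ : 0 < κ) (v : V) :
    ∫ z : V, ker κ z * inner ℝ z v ^ 2 ≤ ‖v‖ ^ 2 / (2 * κ) := by
  set I := ∫ z : V, ker κ z * inner ℝ z v ^ 2 with hI
  set a := ‖v‖ ^ 2 / (4 * κ) with ha
  have key : ∀ t : ℝ, 2 + t ^ 2 * I ≤ 2 * rexp (t ^ 2 * a) := by
    intro t
    have h1 := ker_mgf hκ (t • v)
    have h2 := ker_mgf hκ (-(t • v))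
    have e : ‖t • v‖ ^ 2 / (4 * κ) = t ^ 2 * a := by
      rw [norm_smul, mul_pow, Real.norm_eq_abs, sq_abs, ha]; ring
    rw [norm_neg] at h2
    rw [e] at h1 h2
    have h3 : 2 + t ^ 2 * I = ∫ z : V, (2 * ker κ z + t ^ 2 * (ker κ z * inner ℝ z v ^ 2)) := by
      rw [integral_add ((ker_integrable hκ).const_mul _) ((ker_sq_integrable hκ v).const_mul _),
        integral_const_mul, integral_const_mul, ker_int hκ, mul_one]
    rw [h3, two_mul (rexp _)]
    nth_rewrite 1 [← h1.2]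
    rw [← h2.2, ← integral_add h1.1 h2.1]
    refine integral_mono (((ker_integrable hκ).const_mul _).add
      ((ker_sq_integrable hκ v).const_mul _)) (h1.1.add h2.1) fun z => ?_
    have hk := ker_pos hκ z
    have := sq_le_exp_add_exp (inner ℝ z (t • v))
    simp only [inner_neg_right]
    rw [inner_smul_right] at this ⊢
    nlinarith
  have hd : HasDerivAt (fun s : ℝ => 2 * rexp (s * a)) (2 * a) 0 := by
    have := ((hasDerivAt_id (0 : ℝ)).mul_const a).exp.const_mul 2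
    simpa using this
  have ht := hd.tendsto_slope_zero_right
  have : I ≤ 2 * a := by
    refine ge_of_tendsto ht ?_
    filter_upwards [self_mem_nhdsWithin] with s hs
    have hs' : (0 : ℝ) < s := hs
    have := key (√s)
    rw [Real.sq_sqrt hs'.le] at this
    simp only [zero_add, zero_mul, Real.exp_zero, mul_one, smul_eq_mul]
    rw [le_inv_mul_iff₀ hs']
    linarith
  rw [ha] at this
  calc I ≤ 2 * (‖v‖ ^ 2 / (4 * κ)) := this
    _ = ‖v‖ ^ 2 / (2 * κ) := by field_simp; ring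

theorem ker_normsq {κ : ℝ} (hκ : 0 < κ) :
    Integrable (fun z : V => ker κ z * ‖z‖ ^ 2) ∧
      ∫ z : V, ker κ z * ‖z‖ ^ 2 ≤ hd V / κ := by
  let b := stdOrthonormalBasis ℝ V
  have e : ∀ z : V, ker κ z * ‖z‖ ^ 2 = ∑ i, ker κ z * inner ℝ z (b i) ^ 2 := by
    intro z
    rw [← Finset.mul_sum, b.sum_sq_inner_left]
  simp_rw [e]
  refine ⟨integrable_finsetSum _ fun i _ => ker_sq_integrable hκ _, ?_⟩
  rw [integral_finsetSum _ fun i _ => ker_sq_integrable hκ _]
  calc ∑ i, ∫ z : V, ker κ z * inner ℝ z (b i) ^ 2 ≤ ∑ i : Fin (Module.finrank ℝ V), 1 / (2 * κ) := by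
        refine Finset.sum_le_sum fun i _ => ?_
        have := ker_sq_int_le hκ (b i)
        rwa [b.orthonormal.1 i, one_pow] at this
    _ = hd V / κ := by
        simp [hd]; field_simp

/-- Chebyshev bound for the tail of the kernel. -/
theorem ker_tail {κ : ℝ} (hκ : 0 < κ) {δ : ℝ} (hδ : 0 < δ) (g : V → ℝ) (hg : Measurable g)
    (A L : ℝ) (hL : 0 ≤ L) (h0 : ∀ z, 0 ≤ g z) (x : V)
    (h1 : ∀ y, g y ≤ A + L) (h2 : ∀ y, ‖x - y‖ ≤ δ → g y ≤ A) :
    Av κ g x ≤ A + L * (hd V / κ) / δ ^ 2 := by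
  have hi : Integrable (fun y => ker κ (x - y) * g y) := by
    refine Integrable.mono' ((ker_sub_integrable hκ x).mul_const (A + L)) ?_
      (Eventually.of_forall fun y => ?_)
    · exact (((ker_continuous κ).comp (by fun_prop)).measurable.mul hg).aestronglyMeasurable
    · have hk := ker_pos hκ (x - y)
      rw [Real.norm_eq_abs, abs_of_nonneg (mul_nonneg hk.le (h0 y))]
      exact mul_le_mul_of_nonneg_left (h1 y) hk.le
  have hj : Integrable (fun y => ker κ (x - y) * ‖x - y‖ ^ 2) :=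
    (ker_normsq hκ).1.comp_sub_left x
  have hle : Av κ g x ≤ ∫ y, (A * ker κ (x - y) + L / δ ^ 2 * (ker κ (x - y) * ‖x - y‖ ^ 2)) := by
    refine integral_mono hi (((ker_sub_integrable hκ x).const_mul _).add (hj.const_mul _))
      fun y => ?_
    have hk := ker_pos hκ (x - y)
    have : g y ≤ A + L / δ ^ 2 * ‖x - y‖ ^ 2 := by
      by_cases hy : ‖x - y‖ ≤ δ
      · have := h2 y hy
        have : 0 ≤ L / δ ^ 2 * ‖x - y‖ ^ 2 := by positivity
        linarith
      · push Not at hy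
        have h3 : δ ^ 2 ≤ ‖x - y‖ ^ 2 := by nlinarith
        have h4 : L ≤ L / δ ^ 2 * ‖x - y‖ ^ 2 := by
          rw [div_mul_eq_mul_div, le_div_iff₀ (by positivity)]
          exact mul_le_mul_of_nonneg_left h3 hL
        linarith [h1 y]
    simp only
    nlinarith
  rw [integral_add ((ker_sub_integrable hκ x).const_mul _) (hj.const_mul _), integral_const_mul,
    integral_const_mul, ker_sub_int hκ,
    integral_sub_left_eq_self (fun z : V => ker κ z * ‖z‖ ^ 2) volume x] at hle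
  have := (ker_normsq (V := V) hκ).2
  have h5 : L / δ ^ 2 * ∫ z : V, ker κ z * ‖z‖ ^ 2 ≤ L / δ ^ 2 * (hd V / κ) :=
    mul_le_mul_of_nonneg_left this (by positivity)
  calc Av κ g x ≤ A * 1 + L / δ ^ 2 * ∫ z : V, ker κ z * ‖z‖ ^ 2 := hle
    _ ≤ A + L / δ ^ 2 * (hd V / κ) := by linarith
    _ = A + L * (hd V / κ) / δ ^ 2 := by ring

end Pool.Agent.MP_bcd61f_mp

end MrgPart0

-- ======== part 1: formerly Pool.Agent.MP_bcd61f_mp.State
section MrgPart1

set_option autoImplicit false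
set_option maxSynthPendingDepth 3

open MeasureTheory Real Filter Topology Set

namespace Pool.Agent.MP_bcd61f_mp

/-- Polynomial data of a Gaussian message. -/
structure St (J : Type) where
  D : ℝ
  N : J → ℝ
  E : J → J → ℝ
  F : J → J → ℝ

variable {J : Type} [Fintype J]

def St.init (J : Type) : St J := ⟨1, fun _ => 1, fun _ _ => 0, fun _ _ => 1⟩

def St.T (s : St J) (l : J → ℝ) (i j : J) : ℝ :=
  s.F i j + (∑ k, l k) * s.E i j + l i * s.N j + l j * s.N i + l i * l j * s.D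

def St.step (ρ : ℝ) (s : St J) (l : J → ℝ) : St J :=
  ⟨s.D + ρ * (∑ k, s.N k + (∑ k, l k) * s.D), fun j => s.N j + l j * s.D,
    fun i j => s.E i j + ρ * s.T l i j, fun i j => s.T l i j⟩

def st (ρ : ℝ) : List (J → ℝ) → St J
  | [] => St.init J
  | l :: t => (st ρ t).step ρ l

def St.Inv (s : St J) : Prop :=
  0 < s.D ∧ (∀ j, 0 < s.N j) ∧ ∀ i j, s.F i j * s.D = (∑ k, s.N k) * s.E i j + s.N i * s.N j

def Adm (t : List (J → ℝ)) : Prop := ∀ l ∈ t, ∀ j, 0 ≤ l j

theorem St.Inv.step {ρ : ℝ} (hρ : 0 < ρ) {s : St J} (hs : s.Inv) {l : J → ℝ} (hl : ∀ j, 0 ≤ l j) :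
    (s.step ρ l).Inv := by
  obtain ⟨hD, hN, hF⟩ := hs
  have h1 : 0 ≤ ∑ k, s.N k := Finset.sum_nonneg fun k _ => (hN k).le
  have h2 : 0 ≤ ∑ k, l k := Finset.sum_nonneg fun k _ => hl k
  refine ⟨?_, fun j => ?_, fun i j => ?_⟩
  · simp only [St.step]; positivity
  · simp only [St.step]
    have := hN j; have := hl j; positivity
  · simp only [St.step, St.T, Finset.sum_add_distrib, ← Finset.sum_mul]
    have := hF i j
    linear_combination this

theorem st_inv {ρ : ℝ} (hρ : 0 < ρ) : ∀ t : List (J → ℝ), Adm t → (st ρ t).Inv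
  | [], _ => by simp [st, St.init, St.Inv]
  | l :: t, h => (st_inv hρ t fun l' hl' => h l' (List.mem_cons_of_mem _ hl')).step hρ
      (h l List.mem_cons_self)

variable {V : Type*} [NormedAddCommGroup V] [InnerProductSpace ℝ V] [FiniteDimensional ℝ V]
  [MeasurableSpace V] [BorelSpace V]

/-- The Gaussian message attached to a state. -/
noncomputable def gm (c : J → V) (s : St J) (x : V) : ℝ :=
  (1 / s.D) ^ hd V * rexp (-((∑ j, s.N j * ‖x - c j‖ ^ 2 +
    (∑ i, ∑ j, s.E i j * ‖c i - c j‖ ^ 2) / 2) / s.D))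

theorem gm_step {κ : ℝ} (hκ : 0 < κ) (c : J → V) {s : St J} (hs : s.Inv) {l : J → ℝ}
    (hl : ∀ j, 0 ≤ l j) (x : V) :
    Integrable (fun y => ker κ (x - y) * (rexp (-∑ j, l j * ‖y - c j‖ ^ 2) * gm c s y)) ∧
    ∫ y, ker κ (x - y) * (rexp (-∑ j, l j * ‖y - c j‖ ^ 2) * gm c s y) =
      gm c (s.step κ⁻¹ l) x := by
  obtain ⟨hD, hN, hF⟩ := hs
  have h1 : 0 ≤ ∑ k, s.N k := Finset.sum_nonneg fun k _ => (hN k).le
  have h2 : 0 ≤ ∑ k, l k := Finset.sum_nonneg fun k _ => hl k
  let β : Option J → ℝ := fun o => o.elim κ fun j => l j + s.N j / s.D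
  let z : Option J → V := fun o => o.elim x c
  have hB : ∑ o, β o = κ + (∑ k, l k + (∑ k, s.N k) / s.D) := by
    simp [β, Fintype.sum_option, Finset.sum_add_distrib, Finset.sum_div]
  have hBpos : 0 < ∑ o, β o := by rw [hB]; positivity
  set G := ∑ i, ∑ j, s.E i j * ‖c i - c j‖ ^ 2 with hG
  have key : ∀ y, ker κ (x - y) * (rexp (-∑ j, l j * ‖y - c j‖ ^ 2) * gm c s y) =
      ((κ / π) ^ hd V * (1 / s.D) ^ hd V * rexp (-(G / 2 / s.D))) *
        rexp (-∑ o, β o * ‖y - z o‖ ^ 2) := by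
    intro y
    have e : ∑ o, β o * ‖y - z o‖ ^ 2 = κ * ‖x - y‖ ^ 2 + (∑ j, l j * ‖y - c j‖ ^ 2 +
        (∑ j, s.N j * ‖y - c j‖ ^ 2) / s.D) := by
      simp only [β, z, Fintype.sum_option, Option.elim_none, Option.elim_some, add_mul,
        Finset.sum_add_distrib, Finset.sum_div, norm_sub_rev y x]
      congr 2
      exact Finset.sum_congr rfl fun j _ => by ring
    rw [e]
    unfold ker gm
    rw [← hG]
    have : rexp (-κ * ‖x - y‖ ^ 2) * (rexp (-∑ j, l j * ‖y - c j‖ ^ 2) *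
        rexp (-((∑ j, s.N j * ‖y - c j‖ ^ 2 + G / 2) / s.D))) =
        rexp (-(G / 2 / s.D)) * rexp (-(κ * ‖x - y‖ ^ 2 + (∑ j, l j * ‖y - c j‖ ^ 2 +
        (∑ j, s.N j * ‖y - c j‖ ^ 2) / s.D))) := by
      simp only [← Real.exp_add]; congr 1; ring
    linear_combination ((κ / π) ^ hd V * (1 / s.D) ^ hd V) * this
  simp_rw [key]
  refine ⟨(star_integrable β z hBpos).const_mul _, ?_⟩
  rw [integral_const_mul, star_int β z hBpos]
  set B := ∑ o, β o with hBdef
  have hD' : (s.step κ⁻¹ l).D = s.D * B / κ := by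
    simp only [St.step]; rw [hB]; field_simp; ring
  have hN' : ∀ j, (s.step κ⁻¹ l).N j = s.D * β (some j) := by
    intro j; simp only [St.step, β, Option.elim_some]; field_simp; ring
  have hE' : ∀ i j, (s.step κ⁻¹ l).E i j =
      s.E i j * B / κ + s.D * β (some i) * β (some j) / κ := by
    intro i j
    simp only [St.step, St.T, β, Option.elim_some]; rw [hB]
    have := hF i j
    field_simp
    linear_combination this
  have hsum : ∑ i, ∑ j, β i * β j * ‖z i - z j‖ ^ 2 =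
      2 * κ * ∑ j, β (some j) * ‖x - c j‖ ^ 2 +
        ∑ i, ∑ j, β (some i) * β (some j) * ‖c i - c j‖ ^ 2 := by
    simp only [Fintype.sum_option, z, Option.elim_none, Option.elim_some, sub_self, norm_zero,
      Finset.sum_add_distrib, Finset.mul_sum]
    have e1 : β none = κ := rfl
    rw [e1]
    have e2 : ∑ j, β (some j) * κ * ‖c j - x‖ ^ 2 = ∑ j, κ * β (some j) * ‖x - c j‖ ^ 2 :=
      Finset.sum_congr rfl fun j _ => by rw [norm_sub_rev]; ring
    have e3 : ∑ j, 2 * κ * (β (some j) * ‖x - c j‖ ^ 2) =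
        2 * ∑ j, κ * β (some j) * ‖x - c j‖ ^ 2 := by
      rw [Finset.mul_sum]; exact Finset.sum_congr rfl fun j _ => by ring
    rw [e2, e3]; ring
  unfold gm
  rw [hsum, hD']
  simp_rw [hN', hE']
  set P := ∑ j, β (some j) * ‖x - c j‖ ^ 2 with hP
  set Q := ∑ i, ∑ j, β (some i) * β (some j) * ‖c i - c j‖ ^ 2 with hQ
  have e4 : ∑ j, s.D * β (some j) * ‖x - c j‖ ^ 2 = s.D * P := by
    rw [hP, Finset.mul_sum]; exact Finset.sum_congr rfl fun j _ => by ring
  have e5 : ∑ i, ∑ j, (s.E i j * B / κ + s.D * β (some i) * β (some j) / κ) * ‖c i - c j‖ ^ 2 =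
      G * B / κ + s.D * Q / κ := by
    rw [hG, hQ]
    simp only [Finset.sum_mul, Finset.mul_sum, Finset.sum_div, ← Finset.sum_add_distrib]
    exact Finset.sum_congr rfl fun i _ => Finset.sum_congr rfl fun j _ => by ring
  rw [e4, e5]
  have e6 : (κ / π) ^ hd V * (1 / s.D) ^ hd V * (π / B) ^ hd V = (1 / (s.D * B / κ)) ^ hd V := by
    rw [← Real.mul_rpow (by positivity) (by positivity),
      ← Real.mul_rpow (by positivity) (by positivity)]
    congr 1; field_simp
  have e7 : rexp (-(G / 2 / s.D)) * rexp (-((2 * κ * P + Q) / (2 * B))) =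
      rexp (-((s.D * P + (G * B / κ + s.D * Q / κ) / 2) / (s.D * B / κ))) := by
    rw [← Real.exp_add]; congr 1; field_simp; ring
  rw [← e6, ← e7]; ring

theorem gm_int [Nonempty J] (c : J → V) {s : St J} (hs : s.Inv) :
    Integrable (gm c s) ∧ ∫ x, gm c s x = (π / ∑ k, s.N k) ^ hd V *
      rexp (-((∑ i, ∑ j, s.F i j * ‖c i - c j‖ ^ 2) / (2 * ∑ k, s.N k))) := by
  obtain ⟨hD, hN, hF⟩ := hs
  have h1 : 0 < ∑ k, s.N k := Finset.sum_pos (fun k _ => hN k) Finset.univ_nonempty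
  let β : J → ℝ := fun j => s.N j / s.D
  have hB : ∑ o, β o = (∑ k, s.N k) / s.D := by simp [β, Finset.sum_div]
  have hBpos : 0 < ∑ o, β o := by rw [hB]; positivity
  set G := ∑ i, ∑ j, s.E i j * ‖c i - c j‖ ^ 2 with hG
  have key : gm c s = fun y => ((1 / s.D) ^ hd V * rexp (-(G / 2 / s.D))) *
        rexp (-∑ o, β o * ‖y - c o‖ ^ 2) := by
    funext y
    unfold gm
    rw [← hG, mul_assoc, ← Real.exp_add]
    congr 2
    have : ∑ o, β o * ‖y - c o‖ ^ 2 = (∑ j, s.N j * ‖y - c j‖ ^ 2) / s.D := by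
      rw [Finset.sum_div]; exact Finset.sum_congr rfl fun j _ => by simp only [β]; ring
    rw [this]; ring
  rw [key]
  refine ⟨(star_integrable β c hBpos).const_mul _, ?_⟩
  rw [integral_const_mul, star_int β c hBpos, hB]
  set S := ∑ k, s.N k
  have e1 : ∑ i, ∑ j, s.F i j * ‖c i - c j‖ ^ 2 =
      S * G / s.D + s.D * ∑ i, ∑ j, β i * β j * ‖c i - c j‖ ^ 2 := by
    rw [hG]
    simp only [Finset.mul_sum, Finset.sum_div, ← Finset.sum_add_distrib]
    refine Finset.sum_congr rfl fun i _ => Finset.sum_congr rfl fun j _ => ?_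
    have := hF i j
    simp only [β]
    field_simp
    linear_combination (‖c i - c j‖ ^ 2) * this
  rw [e1]
  set Q := ∑ i, ∑ j, β i * β j * ‖c i - c j‖ ^ 2
  have e6 : (1 / s.D) ^ hd V * (π / (S / s.D)) ^ hd V = (π / S) ^ hd V := by
    rw [← Real.mul_rpow (by positivity) (by positivity)]
    congr 1; field_simp
  have e7 : rexp (-(G / 2 / s.D)) * rexp (-(Q / (2 * (S / s.D)))) =
      rexp (-((S * G / s.D + s.D * Q) / (2 * S))) := by
    rw [← Real.exp_add]; congr 1; field_simp; ring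
  rw [← e6, ← e7]; ring

end Pool.Agent.MP_bcd61f_mp

end MrgPart1

-- ======== part 2: formerly Pool.Agent.MP_bcd61f_mp.Cone
section MrgPart2

set_option autoImplicit false
set_option maxSynthPendingDepth 3

open MeasureTheory Real Filter Topology Set

namespace Pool.Agent.MP_bcd61f_mp

variable {J : Type} [Fintype J]

def mon (e : J → ℕ) (l : J → ℝ) : ℝ := ∏ j, l j ^ e j

/-- Nonnegative combinations of monomials in which each variable has degree at most `m`. -/
def Good (m : ℕ) : ℕ → (List (J → ℝ) → ℝ) → Prop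
  | 0, P => 0 ≤ P []
  | n + 1, P => (fun l t => P (l :: t)) ∈ AddSubmonoid.closure
      {G : (J → ℝ) → List (J → ℝ) → ℝ | ∃ (e : J → ℕ) (Q : List (J → ℝ) → ℝ),
        (∀ j, e j ≤ m) ∧ Good m n Q ∧ G = fun l t => mon e l * Q t}

theorem Good.add {m : ℕ} : ∀ {n : ℕ} {P Q : List (J → ℝ) → ℝ}, Good m n P → Good m n Q →
    Good m n (fun t => P t + Q t)
  | 0, _, _, hP, hQ => add_nonneg hP hQ
  | _ + 1, _, _, hP, hQ => AddSubmonoid.add_mem _ hP hQ

theorem Good.zero {m : ℕ} : ∀ {n : ℕ}, Good (J := J) m n (fun _ => 0)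
  | 0 => le_rfl
  | _ + 1 => AddSubmonoid.zero_mem _

theorem Good.sum {m n : ℕ} {ι : Type*} (s : Finset ι) {P : ι → List (J → ℝ) → ℝ}
    (h : ∀ i ∈ s, Good m n (P i)) : Good m n (fun t => ∑ i ∈ s, P i t) := by
  classical
  induction s using Finset.induction_on with
  | empty => simpa using Good.zero
  | insert a s ha ih =>
    simp only [Finset.sum_insert ha]
    exact (h a (Finset.mem_insert_self _ _)).add (ih fun i hi => h i (Finset.mem_insert_of_mem hi))

theorem Good.mul {m m' : ℕ} : ∀ {n : ℕ} {P Q : List (J → ℝ) → ℝ}, Good m n P → Good m' n Q →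
    Good (m + m') n (fun t => P t * Q t)
  | 0, _, _, hP, hQ => mul_nonneg hP hQ
  | n + 1, P, Q, hP, hQ => by
    have key : ∀ G ∈ AddSubmonoid.closure
        {G : (J → ℝ) → List (J → ℝ) → ℝ | ∃ (e : J → ℕ) (Q : List (J → ℝ) → ℝ),
          (∀ j, e j ≤ m) ∧ Good m n Q ∧ G = fun l t => mon e l * Q t},
        ∀ H ∈ AddSubmonoid.closure
        {G : (J → ℝ) → List (J → ℝ) → ℝ | ∃ (e : J → ℕ) (Q : List (J → ℝ) → ℝ),
          (∀ j, e j ≤ m') ∧ Good m' n Q ∧ G = fun l t => mon e l * Q t},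
        G * H ∈ AddSubmonoid.closure
        {G : (J → ℝ) → List (J → ℝ) → ℝ | ∃ (e : J → ℕ) (Q : List (J → ℝ) → ℝ),
          (∀ j, e j ≤ m + m') ∧ Good (m + m') n Q ∧ G = fun l t => mon e l * Q t} := by
      intro G hG H hH
      induction hG using AddSubmonoid.closure_induction with
      | zero => rw [zero_mul]; exact AddSubmonoid.zero_mem _
      | add x y _ _ hx hy => rw [add_mul]; exact AddSubmonoid.add_mem _ hx hy
      | mem G hG =>
        induction hH using AddSubmonoid.closure_induction with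
        | zero => rw [mul_zero]; exact AddSubmonoid.zero_mem _
        | add x y _ _ hx hy => rw [mul_add]; exact AddSubmonoid.add_mem _ hx hy
        | mem H hH =>
          obtain ⟨e, Q, he, hQ, rfl⟩ := hG
          obtain ⟨e', Q', he', hQ', rfl⟩ := hH
          refine AddSubmonoid.subset_closure ⟨e + e', fun t => Q t * Q' t,
            fun j => add_le_add (he j) (he' j), hQ.mul hQ', ?_⟩
          funext l t
          simp only [Pi.mul_apply, mon, Pi.add_apply, pow_add, Finset.prod_mul_distrib]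
          ring
    exact key _ hP _ hQ

theorem Good.const {m : ℕ} {a : ℝ} (ha : 0 ≤ a) : ∀ {n : ℕ}, Good (J := J) m n (fun _ => a)
  | 0 => ha
  | n + 1 => AddSubmonoid.subset_closure ⟨0, fun _ => a, fun _ => Nat.zero_le _,
      Good.const ha, by funext l t; simp [mon]⟩

theorem Good.smul {m n : ℕ} {a : ℝ} (ha : 0 ≤ a) {P : List (J → ℝ) → ℝ} (h : Good m n P) :
    Good m n (fun t => a * P t) := by
  have := (Good.const (m := 0) ha).mul h
  rwa [zero_add] at this

theorem Good.pow {n : ℕ} {P : List (J → ℝ) → ℝ} (h : Good 1 n P) :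
    ∀ k : ℕ, Good k n (fun t => P t ^ k)
  | 0 => by simpa using Good.const zero_le_one
  | k + 1 => by simpa [pow_succ] using (h.pow k).mul h

/-- Lift along the tail with a monomial in the head. -/
def lift (g : (J → ℝ) → ℝ) (Q : List (J → ℝ) → ℝ) : List (J → ℝ) → ℝ
  | [] => 0
  | l :: t => g l * Q t

theorem Good.lift_mon {m n : ℕ} {e : J → ℕ} (he : ∀ j, e j ≤ m) {Q : List (J → ℝ) → ℝ}
    (h : Good m n Q) : Good m (n + 1) (lift (mon e) Q) :=
  AddSubmonoid.subset_closure ⟨e, Q, he, h, rfl⟩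

theorem Good.congr_succ {m n : ℕ} {P Q : List (J → ℝ) → ℝ} (h : Good m (n + 1) P)
    (e : ∀ l t, Q (l :: t) = P (l :: t)) : Good m (n + 1) Q := by
  have : (fun l t => Q (l :: t)) = fun l t => P (l :: t) := by funext l t; exact e l t
  show (fun l t => Q (l :: t)) ∈ _
  rw [this]; exact h

theorem Good.lift_one {n : ℕ} {Q : List (J → ℝ) → ℝ} (h : Good 1 n Q) :
    Good 1 (n + 1) (lift (fun _ => 1) Q) :=
  (h.lift_mon (e := 0) fun _ => Nat.zero_le _).congr_succ fun l t => by simp [lift, mon]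

theorem Good.lift_var {n : ℕ} {Q : List (J → ℝ) → ℝ} (h : Good 1 n Q) (i : J) :
    Good 1 (n + 1) (lift (fun l => l i) Q) := by
  classical
  refine (h.lift_mon (e := Pi.single i 1) fun j => ?_).congr_succ fun l t => ?_
  · by_cases hj : j = i
    · subst hj; simp
    · simp [Pi.single_eq_of_ne hj]
  · simp only [lift, mon]
    congr 1
    rw [Finset.prod_eq_single i]
    · simp
    · intro j _ hj; simp [Pi.single_eq_of_ne hj]
    · simp

theorem Good.lift_sum {n : ℕ} {Q : List (J → ℝ) → ℝ} (h : Good 1 n Q) :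
    Good 1 (n + 1) (lift (fun l => ∑ k, l k) Q) :=
  (Good.sum Finset.univ fun i _ => h.lift_var i).congr_succ fun l t => by
    simp [lift, Finset.sum_mul]

theorem Good.lift_var2 {n : ℕ} {Q : List (J → ℝ) → ℝ} (h : Good 1 n Q) {i j : J} (hij : i ≠ j) :
    Good 1 (n + 1) (lift (fun l => l i * l j) Q) := by
  classical
  refine (h.lift_mon (e := Pi.single i 1 + Pi.single j 1) fun k => ?_).congr_succ fun l t => ?_
  · by_cases hk : k = i
    · subst hk; simp [Pi.single_eq_of_ne hij]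
    · by_cases hk' : k = j
      · subst hk'; simp [Pi.single_eq_of_ne hk]
      · simp [Pi.single_eq_of_ne hk, Pi.single_eq_of_ne hk']
  · simp only [lift, mon, Pi.add_apply, pow_add, Finset.prod_mul_distrib]
    congr 2
    · rw [Finset.prod_eq_single i]
      · simp
      · intro k _ hk; simp [Pi.single_eq_of_ne hk]
      · simp
    · rw [Finset.prod_eq_single j]
      · simp
      · intro k _ hk; simp [Pi.single_eq_of_ne hk]
      · simp

theorem good_st {ρ : ℝ} (hρ : 0 ≤ ρ) : ∀ n : ℕ,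
    Good (J := J) 1 n (fun t => (st ρ t).D) ∧ (∀ j : J, Good 1 n (fun t => (st ρ t).N j)) ∧
    (∀ i j : J, i ≠ j → Good 1 n (fun t => (st ρ t).E i j)) ∧
    (∀ i j : J, i ≠ j → Good 1 n (fun t => (st ρ t).F i j))
  | 0 => by simp [Good, st, St.init]
  | n + 1 => by
    obtain ⟨hD, hN, hE, hF⟩ := good_st hρ n
    have hT : ∀ i j : J, i ≠ j → Good 1 (n + 1) (fun t => (st ρ t).F i j) := by
      intro i j hij
      refine (((((hF i j hij).lift_one.add (hE i j hij).lift_sum).add ((hN j).lift_var i)).add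
        ((hN i).lift_var j)).add (hD.lift_var2 hij)).congr_succ fun l t => ?_
      simp [lift, st, St.step, St.T]
    refine ⟨?_, fun j => ?_, fun i j hij => ?_, hT⟩
    · refine (hD.lift_one.add (((Good.sum Finset.univ fun k _ => hN k).lift_one.add
        hD.lift_sum).smul hρ)).congr_succ fun l t => ?_
      simp [lift, st, St.step]
    · refine ((hN j).lift_one.add (hD.lift_var j)).congr_succ fun l t => ?_
      simp [lift, st, St.step]
    · refine ((hE i j hij).lift_one.add ((hT i j hij).smul hρ)).congr_succ fun l t => ?_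
      simp [lift, st, St.step]

/-- Signed sum over all choices of exponents at the first `n` sites. -/
def Ex (T : ℕ → Finset (J → ℝ)) (a : ℕ → (J → ℝ) → ℝ) : ℕ → (List (J → ℝ) → ℝ) → ℝ
  | 0, F => F []
  | n + 1, F => ∑ l ∈ T n, a n l * Ex T a n (fun t => F (l :: t))

omit [Fintype J] in
theorem Ex_rep (T : ℕ → Finset (J → ℝ)) (a : ℕ → (J → ℝ) → ℝ)
    (hT : ∀ n, ∀ l ∈ T n, ∀ j, 0 ≤ l j) : ∀ n : ℕ,
    ∃ (ι : Type) (_ : Fintype ι) (τ : ι → List (J → ℝ)) (w : ι → ℝ), (∀ i, Adm (τ i)) ∧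
      ∀ F, Ex T a n F = ∑ i, w i * F (τ i)
  | 0 => ⟨Unit, inferInstance, fun _ => [], fun _ => 1, fun _ => by simp [Adm], fun F => by
      simp [Ex]⟩
  | n + 1 => by
    obtain ⟨ι, _, τ, w, h1, h2⟩ := Ex_rep T a hT n
    refine ⟨T n × ι, inferInstance, fun p => p.1.1 :: τ p.2, fun p => a n p.1.1 * w p.2,
      fun p l hl => ?_, fun F => ?_⟩
    · rcases List.mem_cons.1 hl with rfl | hl
      · exact hT n _ p.1.2
      · exact h1 _ l hl
    · rw [Fintype.sum_prod_type, Ex, ← Finset.sum_coe_sort]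
      refine Finset.sum_congr rfl fun l _ => ?_
      rw [h2, Finset.mul_sum]
      exact Finset.sum_congr rfl fun i _ => by ring

end Pool.Agent.MP_bcd61f_mp

end MrgPart2

-- ======== part 3: formerly Pool.Agent.MP_bcd61f_mp.Chain
section MrgPart3

set_option autoImplicit false
set_option maxSynthPendingDepth 3

open MeasureTheory Real Filter Topology Set

namespace Pool.Agent.MP_bcd61f_mp

variable {J : Type} [Fintype J]

/-- Messages of the Gaussian chain with site functions `f` and initial function `m0`. -/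
noncomputable def msg {V : Type*} [NormedAddCommGroup V] [InnerProductSpace ℝ V]
    [FiniteDimensional ℝ V] [MeasurableSpace V] [BorelSpace V]
    (κ : ℝ) (f : ℕ → V → ℝ) (m0 : V → ℝ) : ℕ → V → ℝ
  | 0 => m0
  | n + 1 => Av κ (fun y => f n y * msg κ f m0 n y)

section
variable {V : Type*} [NormedAddCommGroup V] [InnerProductSpace ℝ V] [FiniteDimensional ℝ V]
  [MeasurableSpace V] [BorelSpace V]
variable (T : ℕ → Finset (J → ℝ)) (a : ℕ → (J → ℝ) → ℝ)

noncomputable def MM (κ : ℝ) (c : J → V) (n : ℕ) (P : List (J → ℝ) → ℝ) (x : V) : ℝ :=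
  Ex T a n (fun t => P t * gm c (st κ⁻¹ t) x)

theorem MM_succ (hT : ∀ n, ∀ l ∈ T n, ∀ j, 0 ≤ l j) {κ : ℝ} (hκ : 0 < κ) (c : J → V) (n : ℕ)
    (P : List (J → ℝ) → ℝ) (x : V) :
    MM T a κ c (n + 1) P x = Av κ (fun y => ∑ l ∈ T n, a n l * rexp (-∑ j, l j * ‖y - c j‖ ^ 2) *
      MM T a κ c n (fun t => P (l :: t)) y) x := by
  obtain ⟨ι, _, τ, w, h1, h2⟩ := Ex_rep T a hT n
  have hs : ∀ i, (st κ⁻¹ (τ i)).Inv := fun i => st_inv (inv_pos.2 hκ) _ (h1 i)
  unfold MM Av
  rw [Ex]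
  simp_rw [h2]
  have e : ∀ y, ker κ (x - y) * ∑ l ∈ T n, a n l * rexp (-∑ j, l j * ‖y - c j‖ ^ 2) *
      ∑ i, w i * (P (l :: τ i) * gm c (st κ⁻¹ (τ i)) y) =
      ∑ l ∈ T n, ∑ i, (a n l * w i * P (l :: τ i)) *
        (ker κ (x - y) * (rexp (-∑ j, l j * ‖y - c j‖ ^ 2) * gm c (st κ⁻¹ (τ i)) y)) := by
    intro y
    simp only [Finset.mul_sum]
    exact Finset.sum_congr rfl fun l _ => Finset.sum_congr rfl fun i _ => by ring
  simp_rw [e]
  rw [integral_finsetSum _ fun l hl => integrable_finsetSum _ fun i _ =>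
    (gm_step hκ c (hs i) (hT n l hl) x).1.const_mul _]
  refine Finset.sum_congr rfl fun l hl => ?_
  rw [integral_finsetSum _ fun i _ => (gm_step hκ c (hs i) (hT n l hl) x).1.const_mul _,
    Finset.mul_sum]
  refine Finset.sum_congr rfl fun i _ => ?_
  rw [integral_const_mul, (gm_step hκ c (hs i) (hT n l hl) x).2]
  simp only [st]; ring

omit [FiniteDimensional ℝ V] [MeasurableSpace V] [BorelSpace V] in
theorem gm_pos (c : J → V) {s : St J} (hs : 0 < s.D) (x : V) : 0 < gm c s x :=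
  mul_pos (Real.rpow_pos_of_pos (by positivity) _) (Real.exp_pos _)

theorem MM_nonneg (hT : ∀ n, ∀ l ∈ T n, ∀ j, 0 ≤ l j) {m : ℕ}
    (hsite : ∀ n (e : J → ℕ) (q : J → ℝ), (∀ j, e j ≤ m) → (∀ j, 0 ≤ q j) →
      0 ≤ ∑ l ∈ T n, a n l * mon e l * rexp (-∑ j, l j * q j))
    {κ : ℝ} (hκ : 0 < κ) (c : J → V) :
    ∀ (n : ℕ) (P : List (J → ℝ) → ℝ), Good m n P → ∀ x, 0 ≤ MM T a κ c n P x
  | 0, P, hP, x => mul_nonneg hP (gm_pos c (by simp [st, St.init]) x).le
  | n + 1, P, hP, x => by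
    rw [MM_succ T a hT hκ]
    refine integral_nonneg fun y => mul_nonneg (ker_pos hκ _).le ?_
    obtain ⟨ι, _, τ, w, h1, h2⟩ := Ex_rep T a hT n
    have key : ∀ G ∈ AddSubmonoid.closure
        {G : (J → ℝ) → List (J → ℝ) → ℝ | ∃ (e : J → ℕ) (Q : List (J → ℝ) → ℝ),
          (∀ j, e j ≤ m) ∧ Good m n Q ∧ G = fun l t => mon e l * Q t},
        0 ≤ ∑ l ∈ T n, a n l * rexp (-∑ j, l j * ‖y - c j‖ ^ 2) * MM T a κ c n (G l) y := by
      intro G hG
      induction hG using AddSubmonoid.closure_induction with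
      | zero => simp [MM, h2]
      | add G H _ _ hG hH =>
        have : ∀ l, MM T a κ c n ((G + H) l) y = MM T a κ c n (G l) y + MM T a κ c n (H l) y := by
          intro l
          simp only [MM, h2, Pi.add_apply, ← Finset.sum_add_distrib]
          exact Finset.sum_congr rfl fun i _ => by ring
        simp only [this, mul_add, Finset.sum_add_distrib]
        exact add_nonneg hG hH
      | mem G hG =>
        obtain ⟨e, Q, he, hQ, rfl⟩ := hG
        have : ∀ l, MM T a κ c n (fun t => mon e l * Q t) y = mon e l * MM T a κ c n Q y := by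
          intro l
          simp only [MM, h2, Finset.mul_sum]
          exact Finset.sum_congr rfl fun i _ => by ring
        simp only [this]
        have e2 : ∑ l ∈ T n, a n l * rexp (-∑ j, l j * ‖y - c j‖ ^ 2) *
            (mon e l * MM T a κ c n Q y) =
            (∑ l ∈ T n, a n l * mon e l * rexp (-∑ j, l j * ‖y - c j‖ ^ 2)) *
              MM T a κ c n Q y := by
          rw [Finset.sum_mul]; exact Finset.sum_congr rfl fun l _ => by ring
        rw [e2]
        exact mul_nonneg (hsite n e _ he fun j => sq_nonneg _)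
          (MM_nonneg hT hsite hκ c n Q hQ y)
    exact key _ hP

theorem msg_eq_MM (hT : ∀ n, ∀ l ∈ T n, ∀ j, 0 ≤ l j) {κ : ℝ} (hκ : 0 < κ) (c : J → V)
    (f : ℕ → V → ℝ) (hf : ∀ n y, f n y = ∑ l ∈ T n, a n l * rexp (-∑ j, l j * ‖y - c j‖ ^ 2)) :
    ∀ n : ℕ, msg κ f (fun y => rexp (-∑ j, ‖y - c j‖ ^ 2)) n = MM T a κ c n (fun _ => 1)
  | 0 => by funext x; simp [msg, MM, Ex, gm, st, St.init]
  | n + 1 => by
    funext x
    rw [MM_succ T a hT hκ, msg, msg_eq_MM hT hκ c f hf n]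
    congr 1
    funext y
    rw [hf, Finset.sum_mul]

theorem MM_int [Nonempty J] (hT : ∀ n, ∀ l ∈ T n, ∀ j, 0 ≤ l j) {κ : ℝ} (hκ : 0 < κ) (c : J → V)
    (n : ℕ) (P : List (J → ℝ) → ℝ) :
    ∫ x, MM T a κ c n P x = Ex T a n (fun t => P t * ((π / ∑ k, (st κ⁻¹ t).N k) ^ hd V *
      rexp (-((∑ i, ∑ j, (st κ⁻¹ t).F i j * ‖c i - c j‖ ^ 2) / (2 * ∑ k, (st κ⁻¹ t).N k))))) := by
  obtain ⟨ι, _, τ, w, h1, h2⟩ := Ex_rep T a hT n
  have hs : ∀ i, (st κ⁻¹ (τ i)).Inv := fun i => st_inv (inv_pos.2 hκ) _ (h1 i)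
  unfold MM
  simp_rw [h2]
  rw [integral_finsetSum _ fun i _ => (((gm_int c (hs i)).1.const_mul _).const_mul _)]
  refine Finset.sum_congr rfl fun i _ => ?_
  rw [integral_const_mul, integral_const_mul, (gm_int c (hs i)).2]

end

/-- The chain integral as a function of the matrix of squared distances. -/
noncomputable def Phi (T : ℕ → Finset (J → ℝ)) (a : ℕ → (J → ℝ) → ℝ) (ρ δ : ℝ) (n : ℕ)
    (g : J → J → ℝ) : ℝ :=
  Ex T a n (fun t => (π / ∑ k, (st ρ t).N k) ^ δ *
      rexp (-((∑ i, ∑ j, (st ρ t).F i j * g i j) / (2 * ∑ k, (st ρ t).N k))))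

theorem antitone_path {Φ : (J → J → ℝ) → ℝ} {g : ℝ → J → J → ℝ}
    (hc : ∀ i j, ContinuousOn (fun t => g t i j) (Icc 0 1))
    (hm : ∀ i j, MonotoneOn (fun t => g t i j) (Icc 0 1)) (hdiag : ∀ t i, g t i i = 0)
    (hΦ : ∀ t ∈ Icc (0 : ℝ) 1, ∃ L : (J → J → ℝ) →L[ℝ] ℝ, HasFDerivAt Φ L (g t) ∧
      ∀ v : J → J → ℝ, (∀ i j, 0 ≤ v i j) → (∀ i, v i i = 0) → L v ≤ 0) :
    Φ (g 1) ≤ Φ (g 0) := by
  have hgc : ContinuousOn g (Icc 0 1) :=
    continuousOn_pi.2 fun i => continuousOn_pi.2 fun j => hc i j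
  let h : ℝ → ℝ := fun t => ∑ i, ∑ j, g t i j
  have hhc : ContinuousOn h (Icc 0 1) :=
    continuousOn_finsetSum _ fun i _ => continuousOn_finsetSum _ fun j _ => hc i j
  have key : ∀ ε > 0, Φ (g 1) - ε * h 1 ≤ Φ (g 0) - ε * h 0 := by
    intro ε hε
    let F : ℝ → ℝ := fun t => Φ (g t) - ε * h t
    have hFc : ContinuousOn F (Icc 0 1) := by
      refine ContinuousOn.sub (fun t ht => ?_) (continuousOn_const.mul hhc)
      obtain ⟨L, hL, -⟩ := hΦ t ht
      exact hL.continuousAt.comp_continuousWithinAt (hgc t ht)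
    have hcl : IsClosed ({t | F t ≤ F 0} ∩ Icc 0 1) := by
      rw [inter_comm]
      exact hFc.preimage_isClosed_of_isClosed isClosed_Icc isClosed_Iic
    have := hcl.Icc_subset_of_forall_mem_nhdsWithin (show F 0 ≤ F 0 from le_rfl) ?_
    · exact this ⟨zero_le_one, le_rfl⟩
    rintro t ⟨ht0, ht⟩
    have ht' : t ∈ Icc (0 : ℝ) 1 := Ico_subset_Icc_self ht
    obtain ⟨L, hL, hL'⟩ := hΦ t ht'
    have h1 : ∀ᶠ s in 𝓝[>] t, s ∈ Ioc t 1 := Ioc_mem_nhdsGT ht.2
    have h2 : Tendsto g (𝓝[>] t) (𝓝 (g t)) := by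
      refine (hgc t ht').tendsto.mono_left ?_
      rw [← nhdsWithin_Ioc_eq_nhdsGT ht.2]
      exact nhdsWithin_mono _ fun s hs => ⟨ht.1.trans hs.1.le, hs.2⟩
    have h3 := h2.eventually (hL.isLittleO.bound hε)
    filter_upwards [h1, h3] with s hs1 hs3
    have hs' : s ∈ Icc (0 : ℝ) 1 := ⟨ht.1.trans hs1.1.le, hs1.2⟩
    have hv : ∀ i j, 0 ≤ (g s - g t) i j := fun i j => sub_nonneg.2 (hm i j ht' hs' hs1.1.le)
    have h4 := hL' (g s - g t) hv fun i => by simp [hdiag]
    have h5 : ‖g s - g t‖ ≤ h s - h t := by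
      have e : h s - h t = ∑ i, ∑ j, (g s - g t) i j := by
        simp [h, Finset.sum_sub_distrib]
      rw [e]
      have h0 : 0 ≤ ∑ i, ∑ j, (g s - g t) i j :=
        Finset.sum_nonneg fun i _ => Finset.sum_nonneg fun j _ => hv i j
      refine (pi_norm_le_iff_of_nonneg h0).2 fun i => (pi_norm_le_iff_of_nonneg h0).2 fun j => ?_
      rw [Real.norm_of_nonneg (hv i j)]
      calc (g s - g t) i j ≤ ∑ j, (g s - g t) i j :=
            Finset.single_le_sum (fun j _ => hv i j) (Finset.mem_univ j)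
        _ ≤ _ := Finset.single_le_sum (f := fun i => ∑ j, (g s - g t) i j)
            (fun i _ => Finset.sum_nonneg fun j _ => hv i j) (Finset.mem_univ i)
    have h6 : Φ (g s) - Φ (g t) - L (g s - g t) ≤ ε * ‖g s - g t‖ :=
      (le_abs_self _).trans hs3
    have h7 : ε * ‖g s - g t‖ ≤ ε * (h s - h t) := mul_le_mul_of_nonneg_left h5 hε.le
    show F s ≤ F 0
    have : F t ≤ F 0 := ht0
    simp only [F] at this ⊢
    nlinarith
  have hlim : Tendsto (fun ε : ℝ => Φ (g 0) - ε * h 0 + ε * h 1) (𝓝[>] 0)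
      (𝓝 (Φ (g 0) - 0 * h 0 + 0 * h 1)) :=
    Tendsto.mono_left (Continuous.tendsto (by fun_prop) 0) nhdsWithin_le_nhds
  simp only [zero_mul, sub_zero, add_zero] at hlim
  refine ge_of_tendsto hlim ?_
  filter_upwards [self_mem_nhdsWithin] with ε hε
  linarith [key ε hε]

theorem Phi_deriv [Nonempty J] {W : Type*} [NormedAddCommGroup W] [InnerProductSpace ℝ W]
    [FiniteDimensional ℝ W] [MeasurableSpace W] [BorelSpace W]
    (T : ℕ → Finset (J → ℝ)) (a : ℕ → (J → ℝ) → ℝ) (hT : ∀ n, ∀ l ∈ T n, ∀ j, 0 ≤ l j) {m : ℕ}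
    (hsite : ∀ n (e : J → ℕ) (q : J → ℝ), (∀ j, e j ≤ m + 1) → (∀ j, 0 ≤ q j) →
      0 ≤ ∑ l ∈ T n, a n l * mon e l * rexp (-∑ j, l j * q j))
    {κ : ℝ} (hκ : 0 < κ) (c : J → W) (δ : ℝ) (hδ : hd W = δ + (m + 1 : ℕ)) (n : ℕ) :
    ∃ L : (J → J → ℝ) →L[ℝ] ℝ, HasFDerivAt (Phi T a κ⁻¹ δ n) L (fun i j => ‖c i - c j‖ ^ 2) ∧
      ∀ v : J → J → ℝ, (∀ i j, 0 ≤ v i j) → (∀ i, v i i = 0) → L v ≤ 0 := by
  classical
  obtain ⟨ι, _, τ, w, h1, h2⟩ := Ex_rep T a hT n
  have hs : ∀ i, (st κ⁻¹ (τ i)).Inv := fun i => st_inv (inv_pos.2 hκ) _ (h1 i)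
  have hN : ∀ i, 0 < ∑ k, (st κ⁻¹ (τ i)).N k := fun i =>
    Finset.sum_pos (fun k _ => (hs i).2.1 k) Finset.univ_nonempty
  let pr : J → J → (J → J → ℝ) →L[ℝ] ℝ := fun i j =>
    (ContinuousLinearMap.proj j : (J → ℝ) →L[ℝ] ℝ).comp (ContinuousLinearMap.proj i)
  let ℓ : ι → (J → J → ℝ) →L[ℝ] ℝ := fun p =>
    (-(2 * ∑ k, (st κ⁻¹ (τ p)).N k)⁻¹) • ∑ i, ∑ j, (st κ⁻¹ (τ p)).F i j • pr i j
  have hℓ : ∀ p v, ℓ p v =
      -((∑ i, ∑ j, (st κ⁻¹ (τ p)).F i j * v i j) / (2 * ∑ k, (st κ⁻¹ (τ p)).N k)) := by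
    intro p v
    simp only [ℓ, pr, smul_apply, sum_apply,
      ContinuousLinearMap.comp_apply, ContinuousLinearMap.proj_apply, smul_eq_mul]
    ring
  set g : J → J → ℝ := fun i j => ‖c i - c j‖ ^ 2 with hg
  have e : Phi T a κ⁻¹ δ n = fun g => ∑ p, (w p * (π / ∑ k, (st κ⁻¹ (τ p)).N k) ^ δ) *
      rexp (ℓ p g) := by
    funext g
    rw [Phi, h2]
    exact Finset.sum_congr rfl fun p _ => by rw [hℓ]; ring
  refine ⟨∑ p, (w p * (π / ∑ k, (st κ⁻¹ (τ p)).N k) ^ δ) • (rexp (ℓ p g) • ℓ p), ?_, ?_⟩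
  · rw [e]
    exact HasFDerivAt.fun_sum fun p _ => ((ℓ p).hasFDerivAt.exp).const_mul _
  · intro v hv hv0
    have hpos : ∀ i j, i ≠ j → 0 ≤ ∑ p, w p * ((st κ⁻¹ (τ p)).F i j *
        (∑ k, (st κ⁻¹ (τ p)).N k) ^ m * ((π / ∑ k, (st κ⁻¹ (τ p)).N k) ^ hd W * rexp (ℓ p g))) := by
      intro i j hij
      obtain ⟨-, gN, -, gF⟩ := good_st (J := J) (inv_pos.2 hκ).le n
      have hG := (gF i j hij).mul ((Good.sum Finset.univ fun k _ => gN k).pow m)
      rw [add_comm] at hG
      have h3 : 0 ≤ ∫ x, MM T a κ c n _ x :=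
        integral_nonneg fun x => MM_nonneg T a hT hsite hκ c n _ hG x
      rw [MM_int T a hT hκ, h2] at h3
      simp_rw [hℓ]
      exact h3
    have e2 : (∑ p, (w p * (π / ∑ k, (st κ⁻¹ (τ p)).N k) ^ δ) • (rexp (ℓ p g) • ℓ p)) v =
        -(2 * π ^ (m + 1))⁻¹ * ∑ i, ∑ j, v i j * ∑ p, w p * ((st κ⁻¹ (τ p)).F i j *
        (∑ k, (st κ⁻¹ (τ p)).N k) ^ m *
          ((π / ∑ k, (st κ⁻¹ (τ p)).N k) ^ hd W * rexp (ℓ p g))) := by
      simp only [sum_apply, smul_apply, smul_eq_mul,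
        Finset.mul_sum]
      rw [Finset.sum_congr rfl fun i _ => Finset.sum_comm, Finset.sum_comm]
      refine Finset.sum_congr rfl fun p _ => ?_
      have hp := hN p
      rw [hℓ p v, hδ, Real.rpow_add (div_pos pi_pos hp), Real.rpow_natCast, div_pow]
      set S := ∑ k, (st κ⁻¹ (τ p)).N k
      simp only [Finset.sum_div, Finset.mul_sum, ← Finset.sum_neg_distrib]
      refine Finset.sum_congr rfl fun i _ => Finset.sum_congr rfl fun j _ => ?_
      field_simp
      ring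
    rw [e2, neg_mul, neg_nonpos]
    refine mul_nonneg (by positivity) (Finset.sum_nonneg fun i _ => Finset.sum_nonneg fun j _ => ?_)
    by_cases hij : i = j
    · subst hij; rw [hv0, zero_mul]
    · exact mul_nonneg (hv i j) (hpos i j hij)

/-- A monotone continuous expansion from `c` to `c'` through configurations in `W`. -/
def Path {V : Type*} [NormedAddCommGroup V] (W : Type*) [NormedAddCommGroup W] (c c' : J → V) :
    Prop :=
  ∃ γ : ℝ → J → W, (∀ i j, ContinuousOn (fun t => ‖γ t i - γ t j‖ ^ 2) (Icc 0 1)) ∧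
    (∀ i j, MonotoneOn (fun t => ‖γ t i - γ t j‖ ^ 2) (Icc 0 1)) ∧
    (∀ i j, ‖γ 0 i - γ 0 j‖ ^ 2 = ‖c i - c j‖ ^ 2) ∧
    (∀ i j, ‖γ 1 i - γ 1 j‖ ^ 2 = ‖c' i - c' j‖ ^ 2)

theorem chain_exp [Nonempty J] {V : Type*} [NormedAddCommGroup V] [InnerProductSpace ℝ V]
    [FiniteDimensional ℝ V] [MeasurableSpace V] [BorelSpace V]
    {W : Type*} [NormedAddCommGroup W] [InnerProductSpace ℝ W]
    [FiniteDimensional ℝ W] [MeasurableSpace W] [BorelSpace W]
    (T : ℕ → Finset (J → ℝ)) (a : ℕ → (J → ℝ) → ℝ) (hT : ∀ n, ∀ l ∈ T n, ∀ j, 0 ≤ l j) {m : ℕ}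
    (hsite : ∀ n (e : J → ℕ) (q : J → ℝ), (∀ j, e j ≤ m + 1) → (∀ j, 0 ≤ q j) →
      0 ≤ ∑ l ∈ T n, a n l * mon e l * rexp (-∑ j, l j * q j))
    {κ : ℝ} (hκ : 0 < κ) (hδ : hd W = hd V + (m + 1 : ℕ)) {c c' : J → V} (hp : Path W c c')
    (f f' : ℕ → V → ℝ)
    (hf : ∀ n y, f n y = ∑ l ∈ T n, a n l * rexp (-∑ j, l j * ‖y - c j‖ ^ 2))
    (hf' : ∀ n y, f' n y = ∑ l ∈ T n, a n l * rexp (-∑ j, l j * ‖y - c' j‖ ^ 2)) (n : ℕ) :
    ∫ x, msg κ f' (fun y => rexp (-∑ j, ‖y - c' j‖ ^ 2)) n x ≤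
      ∫ x, msg κ f (fun y => rexp (-∑ j, ‖y - c j‖ ^ 2)) n x := by
  obtain ⟨γ, h1, h2, h3, h4⟩ := hp
  rw [msg_eq_MM T a hT hκ c f hf, msg_eq_MM T a hT hκ c' f' hf', MM_int T a hT hκ,
    MM_int T a hT hκ]
  have := antitone_path (Φ := Phi T a κ⁻¹ (hd V) n) (g := fun t i j => ‖γ t i - γ t j‖ ^ 2) h1 h2
    (fun t i => by simp) fun t _ => Phi_deriv T a hT hsite hκ (γ t) (hd V) hδ n
  simp only [h3, h4, Phi] at this
  simpa using this

end Pool.Agent.MP_bcd61f_mp

end MrgPart3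

-- ======== part 4: formerly Pool.Agent.MP_bcd61f_mp.Nice
section MrgPart4

set_option autoImplicit false
set_option maxSynthPendingDepth 3

open MeasureTheory Real Filter Topology Set

namespace Pool.Agent.MP_bcd61f_mp

variable {V : Type*} [NormedAddCommGroup V] [InnerProductSpace ℝ V] [FiniteDimensional ℝ V]
  [MeasurableSpace V] [BorelSpace V]

theorem ker_meas2 (κ : ℝ) : Measurable (fun p : V × V => ker κ (p.1 - p.2)) :=
  ((ker_continuous κ).comp (by fun_prop)).measurable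

theorem Av_measurable (κ : ℝ) {h : V → ℝ} (hh : Measurable h) : Measurable (Av κ h) := by
  have : StronglyMeasurable (fun p : V × V => ker κ (p.1 - p.2) * h p.2) :=
    ((ker_meas2 κ).mul (hh.comp measurable_snd)).stronglyMeasurable
  exact this.integral_prod_right'.measurable

theorem ker_mul_integrable {κ : ℝ} (hκ : 0 < κ) {h : V → ℝ} (hh : Measurable h) {C : ℝ}
    (hC : ∀ y, |h y| ≤ C) (x : V) : Integrable (fun y => ker κ (x - y) * h y) := by
  refine Integrable.mono' ((ker_sub_integrable hκ x).mul_const C) ?_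
    (Eventually.of_forall fun y => ?_)
  · exact (((ker_continuous κ).comp (by fun_prop)).measurable.mul hh).aestronglyMeasurable
  · have hk := ker_pos hκ (x - y)
    rw [Real.norm_eq_abs, abs_mul, abs_of_pos hk]
    exact mul_le_mul_of_nonneg_left (hC y) hk.le

theorem Av_const {κ : ℝ} (hκ : 0 < κ) (C : ℝ) (x : V) : Av κ (fun _ => C) x = C := by
  unfold Av; rw [integral_mul_const, ker_sub_int hκ, one_mul]

theorem Av_nonneg {κ : ℝ} (hκ : 0 < κ) {h : V → ℝ} (h0 : ∀ y, 0 ≤ h y) (x : V) : 0 ≤ Av κ h x :=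
  integral_nonneg fun y => mul_nonneg (ker_pos hκ _).le (h0 y)

theorem Av_abs_le {κ : ℝ} (hκ : 0 < κ) {h g : V → ℝ} (hg : Measurable g) {C : ℝ}
    (hC : ∀ y, |g y| ≤ C) (hle : ∀ y, |h y| ≤ g y) (x : V) : |Av κ h x| ≤ Av κ g x := by
  rw [← Real.norm_eq_abs]
  refine norm_integral_le_of_norm_le (ker_mul_integrable hκ hg hC x)
    (Eventually.of_forall fun y => ?_)
  have hk := ker_pos hκ (x - y)
  rw [Real.norm_eq_abs, abs_mul, abs_of_pos hk]
  exact mul_le_mul_of_nonneg_left (hle y) hk.le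

theorem Av_abs_le_const {κ : ℝ} (hκ : 0 < κ) {h : V → ℝ} {C : ℝ}
    (hC : ∀ y, |h y| ≤ C) (x : V) : |Av κ h x| ≤ C := by
  have := Av_abs_le hκ (g := fun _ => C) measurable_const (C := |C|) (fun _ => le_rfl) hC x
  rwa [Av_const hκ] at this

theorem prod_integrable {κ : ℝ} (hκ : 0 < κ) {g h : V → ℝ} (hg : Measurable g) {C : ℝ}
    (hC : ∀ y, |g y| ≤ C) (hh : Measurable h) (hi : Integrable h) :
    Integrable (Function.uncurry fun x y => g x * (ker κ (x - y) * h y))
      ((volume : Measure V).prod volume) := by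
  have hm : Measurable (Function.uncurry fun x y : V => g x * (ker κ (x - y) * h y)) :=
    (hg.comp measurable_fst).mul ((ker_meas2 κ).mul (hh.comp measurable_snd))
  have hx : ∀ y, Integrable (fun x => g x * (ker κ (x - y) * h y)) := by
    intro y
    have := (ker_mul_integrable hκ hg hC y).mul_const (h y)
    refine this.congr (Eventually.of_forall fun x => ?_)
    simp only [ker_sub_comm κ y x]; ring
  rw [integrable_prod_iff' hm.aestronglyMeasurable]
  refine ⟨Eventually.of_forall hx, ?_⟩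
  refine Integrable.mono' (hi.norm.const_mul C) ?_ (Eventually.of_forall fun y => ?_)
  · exact hm.stronglyMeasurable.norm.integral_prod_left'.aestronglyMeasurable
  · rw [Real.norm_of_nonneg (integral_nonneg fun x => norm_nonneg _)]
    calc ∫ x, ‖g x * (ker κ (x - y) * h y)‖ ≤ ∫ x, ker κ (y - x) * (C * ‖h y‖) := by
          refine integral_mono (hx y).norm ((ker_sub_integrable hκ y).mul_const _) fun x => ?_
          have hk := ker_pos hκ (x - y)
          simp only [norm_mul, Real.norm_eq_abs, abs_of_pos hk, ker_sub_comm κ y x]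
          have := mul_le_mul_of_nonneg_right (hC x) (mul_nonneg hk.le (abs_nonneg (h y)))
          linarith
      _ = C * ‖h y‖ := by rw [integral_mul_const, ker_sub_int hκ, one_mul]

theorem Av_symm {κ : ℝ} (hκ : 0 < κ) {g h : V → ℝ} (hg : Measurable g) {C : ℝ}
    (hC : ∀ y, |g y| ≤ C) (hh : Measurable h) (hi : Integrable h) :
    Integrable (fun x => g x * Av κ h x) ∧ ∫ x, g x * Av κ h x = ∫ y, h y * Av κ g y := by
  have hp := prod_integrable hκ hg hC hh hi
  have e : ∀ x, g x * Av κ h x = ∫ y, g x * (ker κ (x - y) * h y) := fun x => by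
    rw [integral_const_mul]; rfl
  simp_rw [e]
  refine ⟨hp.integral_prod_left, ?_⟩
  rw [integral_integral_swap hp]
  refine integral_congr_ae (Eventually.of_forall fun y => ?_)
  simp only [Av]
  rw [← integral_const_mul]
  refine integral_congr_ae (Eventually.of_forall fun x => ?_)
  simp only [ker_sub_comm κ y x]; ring

theorem Av_integrable {κ : ℝ} (hκ : 0 < κ) {h : V → ℝ} (hh : Measurable h) (hi : Integrable h) :
    Integrable (Av κ h) ∧ ∫ x, Av κ h x = ∫ y, h y := by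
  have := Av_symm hκ (g := fun _ => 1) measurable_const (C := 1) (fun _ => by simp) hh hi
  simpa [Av_const hκ] using this

/-- Nonnegative, bounded, measurable, integrable functions. -/
structure Nice (h : V → ℝ) : Prop where
  meas : Measurable h
  nonneg : ∀ x, 0 ≤ h x
  bdd : ∃ C, ∀ x, |h x| ≤ C
  int : Integrable h

theorem Nice.av {κ : ℝ} (hκ : 0 < κ) {h : V → ℝ} (hh : Nice h) : Nice (Av κ h) := by
  obtain ⟨C, hC⟩ := hh.bdd
  exact ⟨Av_measurable κ hh.meas, Av_nonneg hκ hh.nonneg, ⟨C, Av_abs_le_const hκ hC⟩,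
    (Av_integrable hκ hh.meas hh.int).1⟩

theorem Nice.bdd_mul {a h : V → ℝ} (ha : Measurable a) (ha0 : ∀ x, 0 ≤ a x) {C : ℝ}
    (hC : ∀ x, |a x| ≤ C) (hh : Nice h) : Nice (fun x => a x * h x) := by
  obtain ⟨C', hC'⟩ := hh.bdd
  refine ⟨ha.mul hh.meas, fun x => mul_nonneg (ha0 x) (hh.nonneg x), ⟨C * C', fun x => ?_⟩,
    hh.int.bdd_mul ha.aestronglyMeasurable (Eventually.of_forall hC)⟩
  rw [abs_mul]
  exact mul_le_mul (hC x) (hC' x) (abs_nonneg _) ((abs_nonneg _).trans (hC x))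

theorem Nice.mul {g h : V → ℝ} (hg : Nice g) (hh : Nice h) : Nice (fun x => g x * h x) := by
  obtain ⟨C, hC⟩ := hg.bdd
  exact hh.bdd_mul hg.meas hg.nonneg hC

theorem Nice.av_mono {κ : ℝ} (hκ : 0 < κ) {g h : V → ℝ} (hh : Nice h) (hg0 : ∀ x, 0 ≤ g x)
    (hle : ∀ x, g x ≤ h x) (x : V) : Av κ g x ≤ Av κ h x := by
  obtain ⟨C, hC⟩ := hh.bdd
  exact (le_abs_self _).trans (Av_abs_le hκ hh.meas hC (fun y => by
    rw [abs_of_nonneg (hg0 y)]; exact hle y) x)

theorem Nice.cauchy_schwarz {g h : V → ℝ} (hg : Nice g) (hh : Nice h) :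
    (∫ x, g x * h x) ^ 2 ≤ (∫ x, g x * g x) * ∫ x, h x * h x := by
  have key : ∀ t : ℝ, 0 ≤ (∫ x, g x * g x) * (t * t) + (-2 * ∫ x, g x * h x) * t +
      ∫ x, h x * h x := by
    intro t
    have h1 : 0 ≤ ∫ x, (t * g x - h x) ^ 2 := integral_nonneg fun x => sq_nonneg _
    have e : ∀ x, (t * g x - h x) ^ 2 =
        (t * t) * (g x * g x) + (-2 * t) * (g x * h x) + h x * h x := fun x => by ring
    simp_rw [e] at h1
    have i1 : Integrable (fun x => t * t * (g x * g x) + -2 * t * (g x * h x)) :=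
      ((hg.mul hg).int.const_mul _).add ((hg.mul hh).int.const_mul _)
    rw [integral_add i1 (hh.mul hh).int, integral_add ((hg.mul hg).int.const_mul _) ((hg.mul hh).int.const_mul _),
      integral_const_mul, integral_const_mul] at h1
    linarith
  have := discrim_le_zero key
  unfold discrim at this
  nlinarith

end Pool.Agent.MP_bcd61f_mp

end MrgPart4

-- ======== part 5: formerly Pool.Agent.MP_bcd61f_mp.Limit
section MrgPart5

set_option autoImplicit false
set_option maxSynthPendingDepth 3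

open MeasureTheory Real Filter Topology Set

namespace Pool.Agent.MP_bcd61f_mp

variable {J : Type} [Fintype J]
variable {V : Type*} [NormedAddCommGroup V] [InnerProductSpace ℝ V] [FiniteDimensional ℝ V]
  [MeasurableSpace V] [BorelSpace V]

noncomputable def site (c : J → V) (ψ : ℕ → J → ℝ → ℝ) (n : ℕ) (y : V) : ℝ :=
  ∏ j, ψ n j (‖y - c j‖ ^ 2)

noncomputable def m0 (c : J → V) (y : V) : ℝ := rexp (-∑ j, ‖y - c j‖ ^ 2)

/-- The chain inequality for a family of profiles. -/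
def CI (κ : ℝ) (c c' : J → V) (ψ : ℕ → J → ℝ → ℝ) : Prop :=
  ∀ n, ∫ x, msg κ (site c' ψ) (m0 c') n x ≤ ∫ x, msg κ (site c ψ) (m0 c) n x

/-- Exponential sums that are `m` times monotone. -/
def Rep (m : ℕ) (ψ : ℝ → ℝ) : Prop :=
  ∃ (s : Finset ℝ) (α : ℝ → ℝ), (∀ l ∈ s, 0 ≤ l) ∧ (∀ q, ψ q = ∑ l ∈ s, α l * rexp (-(l * q))) ∧
    ∀ e ≤ m, ∀ q, 0 ≤ q → 0 ≤ ∑ l ∈ s, α l * l ^ e * rexp (-(l * q))

theorem CI_of_Rep [Nonempty J] {W : Type*} [NormedAddCommGroup W] [InnerProductSpace ℝ W]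
    [FiniteDimensional ℝ W] [MeasurableSpace W] [BorelSpace W] {m : ℕ}
    {κ : ℝ} (hκ : 0 < κ) (hδ : hd W = hd V + (m + 1 : ℕ)) {c c' : J → V} (hp : Path W c c')
    (ψ : ℕ → J → ℝ → ℝ) (hψ : ∀ n j, Rep (m + 1) (ψ n j)) : CI κ c c' ψ := by
  classical
  choose s α h1 h2 h3 using hψ
  have key : ∀ n (e : J → ℕ) (q : J → ℝ),
      ∑ l ∈ Fintype.piFinset (s n), (∏ j, α n j (l j)) * mon e l * rexp (-∑ j, l j * q j) =
        ∏ j, ∑ l ∈ s n j, α n j l * l ^ e j * rexp (-(l * q j)) := by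
    intro n e q
    rw [Finset.prod_univ_sum]
    refine Finset.sum_congr rfl fun l _ => ?_
    rw [← Finset.sum_neg_distrib, Real.exp_sum, mon, ← Finset.prod_mul_distrib,
      ← Finset.prod_mul_distrib]
  have key2 : ∀ (c : J → V) n y, site c ψ n y = ∑ l ∈ Fintype.piFinset (s n),
      (∏ j, α n j (l j)) * rexp (-∑ j, l j * ‖y - c j‖ ^ 2) := by
    intro c n y
    have := key n 0 (fun j => ‖y - c j‖ ^ 2)
    simp only [mon, Pi.zero_apply, pow_zero, Finset.prod_const_one, mul_one] at this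
    rw [this, site]
    exact Finset.prod_congr rfl fun j _ => h2 n j _
  intro n
  refine chain_exp (fun n => Fintype.piFinset (s n)) (fun n l => ∏ j, α n j (l j))
    (fun n l hl j => h1 n j _ (Fintype.mem_piFinset.1 hl j)) (m := m) ?_ hκ hδ hp _ _
    (key2 c) (key2 c') n
  intro n e q he hq
  rw [key]
  exact Finset.prod_nonneg fun j _ => h3 n j _ (he j) _ (hq j)

/-- Bounded limits off a countable set. -/
def Lim (A : (ℝ → ℝ) → Prop) (ψ : ℝ → ℝ) : Prop :=
  ∃ (φ : ℕ → ℝ → ℝ) (C : ℝ) (B : Set ℝ), B.Countable ∧ (∀ N, A (φ N)) ∧ (∀ N, Measurable (φ N)) ∧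
    (∀ N q, 0 ≤ q → |φ N q| ≤ C) ∧ ∀ q, 0 ≤ q → q ∉ B → Tendsto (fun N => φ N q) atTop (𝓝 (ψ q))

theorem m0_nice [Nonempty J] (c : J → V) : Nice (m0 c) := by
  refine ⟨by unfold m0; fun_prop, fun x => (Real.exp_pos _).le, ⟨1, fun x => ?_⟩, ?_⟩
  · rw [m0, abs_of_pos (Real.exp_pos _), Real.exp_le_one_iff, neg_nonpos]
    exact Finset.sum_nonneg fun j _ => sq_nonneg _
  · have := star_integrable (fun _ : J => (1 : ℝ)) c (by
      simp only [Finset.sum_const, nsmul_eq_mul, mul_one, Nat.cast_pos]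
      exact Finset.card_pos.2 Finset.univ_nonempty)
    simp only [one_mul] at this
    exact this

theorem msg_measurable (κ : ℝ) {f : ℕ → V → ℝ} (hf : ∀ n, Measurable (f n)) {g : V → ℝ}
    (hg : Measurable g) : ∀ n, Measurable (msg κ f g n)
  | 0 => hg
  | n + 1 => Av_measurable κ ((hf n).mul (msg_measurable κ hf hg n))

theorem msg_nice {κ : ℝ} (hκ : 0 < κ) {f : ℕ → V → ℝ} (hf : ∀ n, Measurable (f n))
    (hf0 : ∀ n x, 0 ≤ f n x) (hfb : ∀ n, ∃ C, ∀ x, |f n x| ≤ C) {g : V → ℝ} (hg : Nice g) :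
    ∀ n, Nice (msg κ f g n)
  | 0 => hg
  | n + 1 => by
    obtain ⟨C, hC⟩ := hfb n
    exact ((msg_nice hκ hf hf0 hfb hg n).bdd_mul (hf n) (hf0 n) hC).av hκ

theorem msg_tendsto {κ : ℝ} (hκ : 0 < κ) {f : ℕ → ℕ → V → ℝ} {F : ℕ → V → ℝ} {C : ℕ → ℝ}
    (hf : ∀ N n, Measurable (f N n)) (hC : ∀ N n x, |f N n x| ≤ C n)
    (hlim : ∀ n, ∀ᵐ x, Tendsto (fun N => f N n x) atTop (𝓝 (F n x))) {g : V → ℝ} (hg : Nice g)
    (n : ℕ) : Tendsto (fun N => ∫ x, msg κ (f N) g n x) atTop (𝓝 (∫ x, msg κ F g n x)) := by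
  have hC0 : ∀ n, 0 ≤ C n := fun n => (abs_nonneg _).trans (hC 0 n 0)
  have hb := msg_nice hκ (f := fun n _ => C n) (fun _ => measurable_const) (fun n _ => hC0 n)
    (fun n => ⟨|C n|, fun _ => le_rfl⟩) hg
  have hb' : ∀ n, Nice (fun y => C n * msg κ (fun n _ => C n) g n y) := fun n =>
    (hb n).bdd_mul measurable_const (fun _ => hC0 n) (fun _ => le_rfl)
  have hdom : ∀ N n x, |msg κ (f N) g n x| ≤ msg κ (fun n _ => C n) g n x := by
    intro N n
    induction n with
    | zero => intro x; exact (abs_of_nonneg (hg.nonneg x)).le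
    | succ n ih =>
      intro x
      obtain ⟨C', hC'⟩ := (hb' n).bdd
      refine Av_abs_le hκ (hb' n).meas hC' (fun y => ?_) x
      rw [abs_mul]
      exact mul_le_mul (hC N n y) (ih y) (abs_nonneg _) (hC0 n)
  have hpt : ∀ n x, Tendsto (fun N => msg κ (f N) g n x) atTop (𝓝 (msg κ F g n x)) := by
    intro n
    induction n with
    | zero => intro x; exact tendsto_const_nhds
    | succ n ih =>
      intro x
      obtain ⟨C', hC'⟩ := (hb' n).bdd
      refine tendsto_integral_of_dominated_convergence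
        (fun y => ker κ (x - y) * (C n * msg κ (fun n _ => C n) g n y)) (fun N => ?_)
        (ker_mul_integrable hκ (hb' n).meas hC' x) (fun N => Eventually.of_forall fun y => ?_) ?_
      · exact (((ker_continuous κ).comp (by fun_prop)).measurable.mul
          ((hf N n).mul (msg_measurable κ (hf N) hg.meas n))).aestronglyMeasurable
      · have hk := ker_pos hκ (x - y)
        rw [Real.norm_eq_abs, abs_mul, abs_of_pos hk, abs_mul]
        exact mul_le_mul_of_nonneg_left (mul_le_mul (hC N n y) (hdom N n y) (abs_nonneg _)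
          (hC0 n)) hk.le
      · filter_upwards [hlim n] with y hy
        exact (hy.mul (ih y)).const_mul _
  exact tendsto_integral_of_dominated_convergence _
    (fun N => (msg_measurable κ (hf N) hg.meas n).aestronglyMeasurable) (hb n).int
    (fun N => Eventually.of_forall (hdom N n)) (Eventually.of_forall (hpt n))

theorem ae_normsq_notMem [Nontrivial V] (z : V) {B : Set ℝ} (hB : B.Countable) :
    ∀ᵐ y : V, ‖y - z‖ ^ 2 ∉ B := by
  have : ∀ᵐ y : V, ∀ b ∈ B, ‖y - z‖ ^ 2 ≠ b := by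
    rw [ae_ball_iff hB]
    intro b _
    have h0 := Measure.addHaar_sphere (volume : Measure V) z (√b)
    rw [ae_iff]
    refine measure_mono_null (fun y hy => ?_) h0
    simp only [mem_ofPred_eq, not_not] at hy
    rw [mem_sphere_iff_norm, ← hy, Real.sqrt_sq (norm_nonneg _)]
  filter_upwards [this] with y hy hb using hy _ hb rfl

theorem CI_of_Lim [Nonempty J] [Nontrivial V] {κ : ℝ} (hκ : 0 < κ) {c c' : J → V}
    {A : (ℝ → ℝ) → Prop} (hA : ∀ ψ : ℕ → J → ℝ → ℝ, (∀ n j, A (ψ n j)) → CI κ c c' ψ)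
    (ψ : ℕ → J → ℝ → ℝ) (hψ : ∀ n j, Lim A (ψ n j)) : CI κ c c' ψ := by
  choose φ C B hB h1 h2 h3 h4 using hψ
  have key : ∀ (c : J → V) n, Tendsto (fun N => ∫ x, msg κ (site c fun n j => φ n j N) (m0 c) n x)
      atTop (𝓝 (∫ x, msg κ (site c ψ) (m0 c) n x)) := by
    intro c n
    refine msg_tendsto hκ (C := fun n => ∏ j, C n j) (fun N n => ?_) (fun N n x => ?_)
      (fun n => ?_) (m0_nice c) n
    · exact Finset.measurable_prod _ fun j _ => (h2 n j N).comp (by fun_prop)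
    · rw [site, Finset.abs_prod]
      exact Finset.prod_le_prod (fun j _ => abs_nonneg _) fun j _ => h3 n j N _ (sq_nonneg _)
    · have : ∀ᵐ y : V, ∀ j, ‖y - c j‖ ^ 2 ∉ B n j :=
        ae_all_iff.2 fun j => ae_normsq_notMem (c j) (hB n j)
      filter_upwards [this] with y hy
      exact tendsto_finsetProd _ fun j _ => h4 n j _ (sq_nonneg _) (hy j)
  intro n
  exact le_of_tendsto_of_tendsto' (key c' n) (key c n) fun N =>
    hA (fun n j => φ n j N) (fun n j => h1 n j N) n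

end Pool.Agent.MP_bcd61f_mp

end MrgPart5

-- ======== part 6: formerly Pool.Agent.MP_bcd61f_mp.Moments
section MrgPart6

set_option autoImplicit false
set_option maxSynthPendingDepth 3

open MeasureTheory Real Filter Topology Set

namespace Pool.Agent.MP_bcd61f_mp

variable {V : Type*} [NormedAddCommGroup V] [InnerProductSpace ℝ V] [FiniteDimensional ℝ V]
  [MeasurableSpace V] [BorelSpace V]

noncomputable def XX (κ : ℝ) (a f : V → ℝ) : ℕ → V → ℝ
  | 0 => f
  | k + 1 => fun x => a x * Av κ (Av κ (fun y => a y * XX κ a f k y)) x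

noncomputable def YY (κ : ℝ) (a f : V → ℝ) (k : ℕ) : V → ℝ := Av κ (fun y => a y * XX κ a f k y)

/-- Bounded nonnegative measurable weights. -/
structure Wt (a : V → ℝ) : Prop where
  meas : Measurable a
  nonneg : ∀ x, 0 ≤ a x
  bdd : ∃ C, ∀ x, |a x| ≤ C

theorem Wt.mul {a h : V → ℝ} (ha : Wt a) (hh : Nice h) : Nice (fun x => a x * h x) := by
  obtain ⟨C, hC⟩ := ha.bdd
  exact hh.bdd_mul ha.meas ha.nonneg hC

variable {κ : ℝ} {a f : V → ℝ}

theorem XX_nice (hκ : 0 < κ) (ha : Wt a) (hf : Nice f) : ∀ k, Nice (XX κ a f k)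
  | 0 => hf
  | k + 1 => ha.mul (((ha.mul (XX_nice hκ ha hf k)).av hκ).av hκ)

theorem YY_nice (hκ : 0 < κ) (ha : Wt a) (hf : Nice f) (k : ℕ) : Nice (YY κ a f k) :=
  (ha.mul (XX_nice hκ ha hf k)).av hκ

theorem XX_YY (hκ : 0 < κ) (ha : Wt a) (hf : Nice f) (i j : ℕ) :
    ∫ x, XX κ a f i x * XX κ a f (j + 1) x = ∫ x, YY κ a f i x * YY κ a f j x := by
  have h1 := ha.mul (XX_nice hκ ha hf i)
  obtain ⟨C, hC⟩ := h1.bdd
  have h2 := YY_nice hκ ha hf j
  have := (Av_symm hκ h1.meas hC h2.meas h2.int).2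
  simp only [mul_comm (YY κ a f i _)]
  refine Eq.trans ?_ this
  refine integral_congr_ae (Eventually.of_forall fun x => ?_)
  simp only [XX, YY]; ring

theorem XX_shift (hκ : 0 < κ) (ha : Wt a) (hf : Nice f) : ∀ i j : ℕ,
    ∫ x, XX κ a f i x * XX κ a f j x = ∫ x, f x * XX κ a f (i + j) x
  | 0, j => by simp [XX]
  | i + 1, j => by
    rw [show i + 1 + j = i + (j + 1) by ring, ← XX_shift hκ ha hf i (j + 1), XX_YY hκ ha hf]
    simp only [mul_comm (XX κ a f (i + 1) _), mul_comm (YY κ a f i _)]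
    exact XX_YY hκ ha hf j i

theorem mom_logconvex (hκ : 0 < κ) (ha : Wt a) (hf : Nice f) (n : ℕ) :
    (∫ x, f x * XX κ a f (n + 1) x) ^ 2 ≤
      (∫ x, f x * XX κ a f n x) * ∫ x, f x * XX κ a f (n + 2) x := by
  rcases Nat.even_or_odd' n with ⟨k, rfl | rfl⟩
  · have := (XX_nice hκ ha hf k).cauchy_schwarz (XX_nice hκ ha hf (k + 1))
    rw [XX_shift hκ ha hf, XX_shift hκ ha hf, XX_shift hκ ha hf,
      show k + (k + 1) = 2 * k + 1 by ring, show k + k = 2 * k by ring,
      show k + 1 + (k + 1) = 2 * k + 2 by ring] at this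
    exact this
  · have := (YY_nice hκ ha hf k).cauchy_schwarz (YY_nice hκ ha hf (k + 1))
    rw [← XX_YY hκ ha hf, ← XX_YY hκ ha hf, ← XX_YY hκ ha hf,
      XX_shift hκ ha hf, XX_shift hκ ha hf, XX_shift hκ ha hf,
      show k + (k + 1 + 1) = 2 * k + 1 + 1 by ring, show k + (k + 1) = 2 * k + 1 by ring,
      show k + 1 + (k + 1 + 1) = 2 * k + 1 + 2 by ring] at this
    exact this

theorem seq_lower {μ : ℕ → ℝ} (h : ∀ n, μ (n + 1) ^ 2 ≤ μ n * μ (n + 2)) {r : ℝ} (hr : 0 < r)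
    (h0 : 0 < μ 0) (h1 : r * μ 0 ≤ μ 1) (n : ℕ) : r ^ n * μ 0 ≤ μ n := by
  have key : ∀ n, 0 < μ n ∧ r * μ n ≤ μ (n + 1) := by
    intro n
    induction n with
    | zero => exact ⟨h0, h1⟩
    | succ n ih =>
      have h2 : 0 < μ (n + 1) := (mul_pos hr ih.1).trans_le ih.2
      refine ⟨h2, le_of_mul_le_mul_left ?_ ih.1⟩
      have := mul_le_mul_of_nonneg_right ih.2 h2.le
      nlinarith [h n]
  induction n with
  | zero => simp
  | succ n ih =>
    rw [pow_succ, mul_comm _ r, mul_assoc]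
    exact (mul_le_mul_of_nonneg_left ih hr.le).trans (key n).2

theorem seq_exists {μ : ℕ → ℝ} (h : ∀ n, μ (n + 1) ^ 2 ≤ μ n * μ (n + 2)) {r r' c : ℝ}
    (hr' : 0 < r') (hr : r' < r) (hc : 0 < c) (h0 : ∀ n, c * r ^ n ≤ μ n) :
    ∃ k, 0 < μ (2 * k) ∧ r' * μ (2 * k) ≤ μ (2 * k + 1) := by
  have hpos : ∀ n, 0 < μ n := fun n => (mul_pos hc (pow_pos (hr'.trans hr) n)).trans_le (h0 n)
  by_contra hne
  push Not at hne
  have h1 : ∀ n, μ (n + 1) ≤ r' * μ n := by
    intro n
    rcases Nat.even_or_odd' n with ⟨k, rfl | rfl⟩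
    · exact (hne k (hpos _)).le
    · have h2 := hne (k + 1) (hpos _)
      have h3 := h (2 * k + 1)
      rw [show 2 * (k + 1) = 2 * k + 1 + 1 by ring] at h2
      refine le_of_mul_le_mul_left ?_ (hpos (2 * k + 1 + 1))
      have := mul_le_mul_of_nonneg_left h2.le (hpos (2 * k + 1)).le
      nlinarith
  have h2 : ∀ n, μ n ≤ r' ^ n * μ 0 := by
    intro n
    induction n with
    | zero => simp
    | succ n ih =>
      rw [pow_succ, mul_comm _ r', mul_assoc]
      exact (h1 n).trans (mul_le_mul_of_nonneg_left ih hr'.le)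
  have h3 : Tendsto (fun n : ℕ => (r / r') ^ n) atTop atTop :=
    tendsto_pow_atTop_atTop_of_one_lt ((one_lt_div hr').2 hr)
  obtain ⟨n, hn⟩ := (h3.eventually_gt_atTop (μ 0 / c)).exists
  have h4 := (h0 n).trans (h2 n)
  rw [div_pow, div_lt_div_iff₀ hc (pow_pos hr' n)] at hn
  linarith

theorem Av_const_mul (κ C : ℝ) (h : V → ℝ) (x : V) : Av κ (fun y => C * h y) x = C * Av κ h x := by
  unfold Av
  rw [← integral_const_mul]
  exact integral_congr_ae (Eventually.of_forall fun y => by ring)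

theorem XX_mono (hκ : 0 < κ) (ha : Wt a) {g : V → ℝ} (hf : Nice f) (hg : Nice g) {C : ℝ}
    (hC : 0 ≤ C) (hle : ∀ x, f x ≤ C * g x) : ∀ k x, XX κ a f k x ≤ C * XX κ a g k x
  | 0, x => hle x
  | k + 1, x => by
    have w : Wt (fun _ : V => C) := ⟨measurable_const, fun _ => hC, ⟨|C|, fun _ => le_rfl⟩⟩
    have n1 := ha.mul (XX_nice hκ ha hf k)
    have n2 := ha.mul (XX_nice hκ ha hg k)
    have h1 : ∀ x, Av κ (fun y => a y * XX κ a f k y) x ≤
        C * Av κ (fun y => a y * XX κ a g k y) x := by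
      intro x
      rw [← Av_const_mul]
      refine (w.mul n2).av_mono hκ n1.nonneg (fun y => ?_) x
      have := mul_le_mul_of_nonneg_left (XX_mono hκ ha hf hg hC hle k y) (ha.nonneg y)
      linarith
    have h2 := (w.mul (n2.av hκ)).av_mono hκ (n1.av hκ).nonneg h1 x
    rw [Av_const_mul] at h2
    have := mul_le_mul_of_nonneg_left h2 (ha.nonneg x)
    simp only [XX]
    linarith

theorem msg_XX (hκ : 0 < κ) (ha : Wt a) {g : V → ℝ} (hg : Nice g) (F : ℕ → V → ℝ)
    (h0 : ∀ k y, F (2 * k) y = a y * a y) (h1 : ∀ k y, F (2 * k + 1) y = 1) (k : ℕ) :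
    ∫ x, msg κ F g (2 * k + 1) x = ∫ x, a x * XX κ a (fun y => a y * g y) k x := by
  have key : ∀ k, ∀ x, a x * msg κ F g (2 * k) x = XX κ a (fun y => a y * g y) k x := by
    intro k
    induction k with
    | zero => intro x; simp [msg, XX]
    | succ k ih =>
      intro x
      rw [show 2 * (k + 1) = 2 * k + 1 + 1 by ring]
      simp only [msg, XX, h0, h1, one_mul, ← ih, mul_assoc]
  have n1 := ha.mul (XX_nice hκ ha (ha.mul hg) k)
  rw [← (Av_integrable hκ n1.meas n1.int).2]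
  simp only [msg, h0, ← key, mul_assoc]

end Pool.Agent.MP_bcd61f_mp

end MrgPart6

-- ======== part 7: formerly Pool.Agent.MP_bcd61f_mp.Smooth
section MrgPart7

set_option autoImplicit false
set_option maxSynthPendingDepth 3

open MeasureTheory Real Filter Topology Set

namespace Pool.Agent.MP_bcd61f_mp

variable {V : Type*} [NormedAddCommGroup V] [InnerProductSpace ℝ V] [FiniteDimensional ℝ V]
  [MeasurableSpace V] [BorelSpace V]

noncomputable def DK (κ : ℝ) (h : V → ℝ) (x y : V) : V →L[ℝ] ℝ :=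
  (-2 * κ * (ker κ (x - y) * h y)) • innerSL ℝ (x - y)

omit [FiniteDimensional ℝ V] [MeasurableSpace V] [BorelSpace V] in
theorem DK_deriv (κ : ℝ) (h : V → ℝ) (x y : V) :
    HasFDerivAt (fun x => ker κ (x - y) * h y) (DK κ h x y) x := by
  have h1 := ((((hasFDerivAt_id x).sub_const y).norm_sq.const_mul (-κ)).exp.const_mul
    ((κ / π) ^ hd V)).mul_const (h y)
  refine HasFDerivAt.congr_fderiv (f := fun x => ker κ (x - y) * h y) h1 ?_
  ext v
  simp [DK, ker]; ring

omit [FiniteDimensional ℝ V] [MeasurableSpace V] [BorelSpace V] in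
theorem DK_bound {κ : ℝ} (hκ : 0 < κ) (h : V → ℝ) (x y : V) :
    ‖DK κ h x y‖ ≤ (κ / π) ^ hd V * (κ + 1) * ‖h y‖ := by
  unfold DK ker
  set t := ‖x - y‖ with ht
  have h0 : 0 ≤ t := norm_nonneg _
  have hc : 0 < (κ / π) ^ hd V := Real.rpow_pos_of_pos (div_pos hκ pi_pos) _
  have h1 : 2 * κ * t * rexp (-κ * t ^ 2) ≤ κ + 1 := by
    have h2 : κ * t ^ 2 + 1 ≤ rexp (κ * t ^ 2) := Real.add_one_le_exp _
    have h3 : rexp (-κ * t ^ 2) * rexp (κ * t ^ 2) = 1 := by
      rw [← Real.exp_add]; simp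
    have h4 := Real.exp_pos (-κ * t ^ 2)
    have h5 : 2 * κ * t ≤ (κ + 1) * (κ * t ^ 2 + 1) := by
      nlinarith [mul_nonneg hκ.le (sq_nonneg (t - 1)), mul_nonneg hκ.le (mul_nonneg hκ.le (sq_nonneg t))]
    calc 2 * κ * t * rexp (-κ * t ^ 2) ≤ (κ + 1) * rexp (κ * t ^ 2) * rexp (-κ * t ^ 2) := by
          exact mul_le_mul_of_nonneg_right (h5.trans (by gcongr)) h4.le
      _ = κ + 1 := by rw [mul_assoc, mul_comm (rexp _), h3, mul_one]
  rw [norm_smul, innerSL_apply_norm, ← ht]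
  simp only [norm_mul, Real.norm_eq_abs, abs_of_pos hκ, abs_of_pos hc, abs_of_pos (Real.exp_pos _),
    abs_neg, abs_two]
  have := mul_le_mul_of_nonneg_left h1 (mul_nonneg hc.le (abs_nonneg (h y)))
  linarith

theorem DK_meas (κ : ℝ) {h : V → ℝ} (hh : Measurable h) (x : V) :
    AEStronglyMeasurable (DK κ h x) volume := by
  have h1 : Continuous (fun y : V => innerSL ℝ (x - y)) := by fun_prop
  have h2 : Measurable (fun y : V => -2 * κ * (ker κ (x - y) * h y)) :=
    (((ker_continuous κ).comp (by fun_prop)).measurable.mul hh).const_mul _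
  exact h2.aestronglyMeasurable.smul h1.aestronglyMeasurable

theorem DK_integrable {κ : ℝ} (hκ : 0 < κ) {h : V → ℝ} (hh : Nice h) (x : V) :
    Integrable (DK κ h x) :=
  Integrable.mono' (hh.int.norm.const_mul _) (DK_meas κ hh.meas x)
    (Eventually.of_forall (DK_bound hκ h x))

theorem Av_hasFDerivAt {κ : ℝ} (hκ : 0 < κ) {h : V → ℝ} (hh : Nice h) (x : V) :
    HasFDerivAt (Av κ h) (∫ y, DK κ h x y) x := by
  obtain ⟨C, hC⟩ := hh.bdd
  exact hasFDerivAt_integral_of_dominated_of_fderiv_le (s := univ) univ_mem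
    (Eventually.of_forall fun x => (ker_mul_integrable hκ hh.meas hC x).1)
    (ker_mul_integrable hκ hh.meas hC x) (DK_meas κ hh.meas x)
    (Eventually.of_forall fun y x _ => DK_bound hκ h x y) (hh.int.norm.const_mul _)
    (Eventually.of_forall fun y x _ => DK_deriv κ h x y)

theorem Av_contDiff {κ : ℝ} (hκ : 0 < κ) {h : V → ℝ} (hh : Nice h) : ContDiff ℝ 1 (Av κ h) := by
  rw [contDiff_one_iff_fderiv]
  refine ⟨fun x => (Av_hasFDerivAt hκ hh x).differentiableAt, ?_⟩
  have : fderiv ℝ (Av κ h) = fun x => ∫ y, DK κ h x y :=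
    funext fun x => (Av_hasFDerivAt hκ hh x).fderiv
  rw [this]
  refine continuous_of_dominated (fun x => DK_meas κ hh.meas x)
    (fun x => Eventually.of_forall (DK_bound hκ h x)) (hh.int.norm.const_mul _)
    (Eventually.of_forall fun y => ?_)
  have := ker_continuous (V := V) κ
  unfold DK
  fun_prop

theorem bessel {κ : ℝ} (hκ : 0 < κ) {h : V → ℝ} (hh : Nice h) (x : V) :
    Av κ h x ^ 2 + ‖fderiv ℝ (Av κ h) x‖ ^ 2 / (2 * κ) ≤ Av κ (fun y => h y * h y) x := by
  obtain ⟨C, hC⟩ := hh.bdd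
  obtain ⟨C2, hC2⟩ := (hh.mul hh).bdd
  set L := fderiv ℝ (Av κ h) x with hL
  set g := (InnerProductSpace.toDual ℝ V).symm L with hg
  have hgn : ‖g‖ = ‖L‖ := LinearIsometryEquiv.norm_map _ _
  have hLg : L g = ‖g‖ ^ 2 := by
    rw [← real_inner_self_eq_norm_sq]
    exact (InnerProductSpace.toDual_symm_apply).symm
  have i1 := ker_mul_integrable hκ hh.meas hC x
  have i2 := ker_mul_integrable hκ (hh.mul hh).meas hC2 x
  have i3 := ker_sub_integrable hκ x
  have i4 : Integrable (fun y => ker κ (x - y) * inner ℝ (x - y) g) :=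
    (ker_lin_integrable hκ g).comp_sub_left x
  have i5 : Integrable (fun y => ker κ (x - y) * inner ℝ (x - y) g ^ 2) :=
    (ker_sq_integrable hκ g).comp_sub_left x
  have i6 : Integrable (fun y => h y * (ker κ (x - y) * inner ℝ (x - y) g)) :=
    i4.bdd_mul hh.meas.aestronglyMeasurable (Eventually.of_forall hC)
  have e4 : ∫ y, ker κ (x - y) * inner ℝ (x - y) g = 0 := by
    rw [integral_sub_left_eq_self (fun z : V => ker κ z * inner ℝ z g) volume x, ker_lin_int]
  have e5 : ∫ y, ker κ (x - y) * inner ℝ (x - y) g ^ 2 ≤ ‖g‖ ^ 2 / (2 * κ) := by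
    rw [integral_sub_left_eq_self (fun z : V => ker κ z * inner ℝ z g ^ 2) volume x]
    exact ker_sq_int_le hκ g
  have e6 : -2 * κ * ∫ y, h y * (ker κ (x - y) * inner ℝ (x - y) g) = ‖g‖ ^ 2 := by
    rw [← hLg, hL, (Av_hasFDerivAt hκ hh x).fderiv,
      ContinuousLinearMap.integral_apply (DK_integrable hκ hh x), ← integral_const_mul]
    refine integral_congr_ae (Eventually.of_forall fun y => ?_)
    simp only [DK, smul_apply, innerSL_apply_apply, smul_eq_mul]; ring
  set s := Av κ h x with hs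
  have h0 : 0 ≤ ∫ y, ker κ (x - y) * (h y - s + inner ℝ (x - y) g) ^ 2 :=
    integral_nonneg fun y => mul_nonneg (ker_pos hκ _).le (sq_nonneg _)
  have e : ∀ y, ker κ (x - y) * (h y - s + inner ℝ (x - y) g) ^ 2 =
      ker κ (x - y) * (h y * h y) + (-2 * s) * (ker κ (x - y) * h y) + s ^ 2 * ker κ (x - y) +
      2 * (h y * (ker κ (x - y) * inner ℝ (x - y) g)) +
      (-2 * s) * (ker κ (x - y) * inner ℝ (x - y) g) +
      ker κ (x - y) * inner ℝ (x - y) g ^ 2 := fun y => by ring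
  simp_rw [e] at h0
  have j1 := i2.add (i1.const_mul (-2 * s))
  have j2 := j1.add (i3.const_mul (s ^ 2))
  have j3 := j2.add (i6.const_mul 2)
  have j4 := j3.add (i4.const_mul (-2 * s))
  erw [integral_add j4 i5, integral_add j3 (i4.const_mul _), integral_add j2 (i6.const_mul _),
    integral_add j1 (i3.const_mul _), integral_add i2 (i1.const_mul _)] at h0
  rw [integral_const_mul, integral_const_mul, integral_const_mul, integral_const_mul, e4,
    ker_sub_int hκ] at h0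
  change 0 ≤ Av κ (fun y => h y * h y) x + -2 * s * s + _ + _ + _ + _ at h0
  rw [← hgn]
  have e7 : 2 * ∫ y, h y * (ker κ (x - y) * inner ℝ (x - y) g) = -2 * (‖g‖ ^ 2 / (2 * κ)) := by
    rw [← e6]; field_simp
  nlinarith

theorem bessel_int {κ : ℝ} (hκ : 0 < κ) {h : V → ℝ} (hh : Nice h) :
    Integrable (fun x => ‖fderiv ℝ (Av κ h) x‖ ^ 2) ∧
    (∫ x, Av κ h x * Av κ h x) + (∫ x, ‖fderiv ℝ (Av κ h) x‖ ^ 2) / (2 * κ) ≤ ∫ y, h y * h y := by
  have h1 := Av_integrable hκ (hh.mul hh).meas (hh.mul hh).int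
  have h2 := ((hh.av hκ).mul (hh.av hκ)).int
  have hi : Integrable (fun x => ‖fderiv ℝ (Av κ h) x‖ ^ 2) := by
    refine Integrable.mono' (h1.1.const_mul (2 * κ)) ?_ (Eventually.of_forall fun x => ?_)
    · exact (((Av_contDiff hκ hh).continuous_fderiv one_ne_zero).norm.pow 2).aestronglyMeasurable
    · rw [Real.norm_of_nonneg (sq_nonneg _)]
      have := bessel hκ hh x
      have h3 : ‖fderiv ℝ (Av κ h) x‖ ^ 2 / (2 * κ) ≤ Av κ (fun y => h y * h y) x := by
        nlinarith [sq_nonneg (Av κ h x)]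
      rwa [div_le_iff₀' (by positivity)] at h3
  refine ⟨hi, ?_⟩
  rw [← h1.2, ← integral_div, ← integral_add h2 (hi.div_const _)]
  refine integral_mono (h2.add (hi.div_const _)) h1.1 fun x => ?_
  have := bessel hκ hh x
  simp only
  nlinarith

theorem jensen01 {g : ℝ → ℝ} (hg : Continuous g) :
    (∫ s in (0 : ℝ)..1, g s) ^ 2 ≤ ∫ s in (0 : ℝ)..1, g s ^ 2 := by
  set c := ∫ s in (0 : ℝ)..1, g s with hc
  have h0 : 0 ≤ ∫ s in (0 : ℝ)..1, (g s - c) ^ 2 :=
    intervalIntegral.integral_nonneg zero_le_one fun s _ => sq_nonneg _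
  have e : ∀ s, (g s - c) ^ 2 = g s ^ 2 + ((-2 * c) * g s + c ^ 2) := fun s => by ring
  simp_rw [e] at h0
  rw [intervalIntegral.integral_add (Continuous.intervalIntegrable (by fun_prop) _ _)
    (Continuous.intervalIntegrable (by fun_prop) _ _), intervalIntegral.integral_add
    (Continuous.intervalIntegrable (by fun_prop) _ _)
    (Continuous.intervalIntegrable (by fun_prop) _ _), intervalIntegral.integral_const_mul,
    ← hc] at h0
  simp at h0
  nlinarith

theorem shift_sq_le {φ : V → ℝ} (hφ : ContDiff ℝ 1 φ) (hc : HasCompactSupport φ) (z : V) :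
    ∫ x, (φ x - φ (x - z)) ^ 2 ≤ ∫ x, (fderiv ℝ φ x z) ^ 2 := by
  have hD : Continuous (fderiv ℝ φ) := hφ.continuous_fderiv one_ne_zero
  have hG : Integrable (fun x => (fderiv ℝ φ x z) ^ 2) := by
    refine Continuous.integrable_of_hasCompactSupport (by fun_prop) ?_
    exact (hc.fderiv ℝ).comp_left (g := fun L : V →L[ℝ] ℝ => (L z) ^ 2) (by simp)
  have hpt : ∀ x, (φ x - φ (x - z)) ^ 2 ≤ ∫ s in Ioc (0 : ℝ) 1, (fderiv ℝ φ (x - s • z) z) ^ 2 := by
    intro x
    have hd : ∀ s ∈ uIcc (0 : ℝ) 1, HasDerivAt (fun s : ℝ => -φ (x - s • z))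
        (fderiv ℝ φ (x - s • z) z) s := by
      intro s _
      have h1 : HasDerivAt (fun s : ℝ => x - s • z) (-z) s := by
        simpa using ((hasDerivAt_id s).smul_const z).const_sub x
      have h2 := ((hφ.differentiable one_ne_zero (x - s • z)).hasFDerivAt.comp_hasDerivAt s h1).neg
      refine HasDerivAt.congr_deriv (f := fun s : ℝ => -φ (x - s • z)) h2 ?_
      simp
    have h3 := intervalIntegral.integral_eq_sub_of_hasDerivAt hd
      (Continuous.intervalIntegrable (by fun_prop) _ _)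
    have h4 := jensen01 (g := fun s : ℝ => fderiv ℝ φ (x - s • z) z) (by fun_prop)
    rw [h3, intervalIntegral.integral_of_le zero_le_one] at h4
    simp only [one_smul, zero_smul, sub_zero] at h4
    nlinarith
  have hp : Integrable (Function.uncurry fun (x : V) (s : ℝ) => (fderiv ℝ φ (x - s • z) z) ^ 2)
      ((volume : Measure V).prod (volume.restrict (Ioc (0 : ℝ) 1))) := by
    have hm : Continuous (Function.uncurry fun (x : V) (s : ℝ) =>
        (fderiv ℝ φ (x - s • z) z) ^ 2) := by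
      unfold Function.uncurry; fun_prop
    rw [integrable_prod_iff' hm.aestronglyMeasurable]
    refine ⟨Eventually.of_forall fun s => hG.comp_sub_right (s • z), ?_⟩
    have : (fun s : ℝ => ∫ x : V, ‖(fderiv ℝ φ (x - s • z) z) ^ 2‖) =
        fun _ => ∫ x : V, ‖(fderiv ℝ φ x z) ^ 2‖ :=
      funext fun s => integral_sub_right_eq_self (fun x => ‖(fderiv ℝ φ x z) ^ 2‖) (s • z)
    simp only [Function.uncurry]
    rw [this]
    exact integrable_const _
  calc ∫ x, (φ x - φ (x - z)) ^ 2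
      ≤ ∫ x, ∫ s in Ioc (0 : ℝ) 1, (fderiv ℝ φ (x - s • z) z) ^ 2 :=
        integral_mono_of_nonneg (Eventually.of_forall fun x => sq_nonneg _) hp.integral_prod_left
          (Eventually.of_forall hpt)
    _ = ∫ s in Ioc (0 : ℝ) 1, ∫ x, (fderiv ℝ φ (x - s • z) z) ^ 2 := integral_integral_swap hp
    _ = ∫ x, (fderiv ℝ φ x z) ^ 2 := by
        have : (fun s : ℝ => ∫ x : V, (fderiv ℝ φ (x - s • z) z) ^ 2) =
            fun _ => ∫ x : V, (fderiv ℝ φ x z) ^ 2 :=
          funext fun s => integral_sub_right_eq_self (fun x => (fderiv ℝ φ x z) ^ 2) (s • z)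
        rw [this]; simp

theorem Av_lower {κ : ℝ} (hκ : 0 < κ) {φ : V → ℝ} (hφ : ContDiff ℝ 1 φ)
    (hc : HasCompactSupport φ) :
    (∫ x, φ x ^ 2) - (∫ x, ‖fderiv ℝ φ x‖ ^ 2) / (4 * κ) ≤ ∫ x, φ x * Av κ φ x := by
  have hD : Continuous (fderiv ℝ φ) := hφ.continuous_fderiv one_ne_zero
  have hφc := hφ.continuous
  have hk := ker_continuous (V := V) κ
  obtain ⟨C, hC⟩ := hφc.bounded_above_of_compact_support hc
  have i1 : Integrable φ := hφc.integrable_of_hasCompactSupport hc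
  have i2 : Integrable (fun x => φ x ^ 2) :=
    Continuous.integrable_of_hasCompactSupport (by fun_prop)
      (hc.comp_left (g := fun t : ℝ => t ^ 2) (by simp))
  have i3 : Integrable (fun x => ‖fderiv ℝ φ x‖ ^ 2) :=
    Continuous.integrable_of_hasCompactSupport (by fun_prop)
      ((hc.fderiv ℝ).comp_left (g := fun L : V →L[ℝ] ℝ => ‖L‖ ^ 2) (by simp))
  have p1 : Integrable (Function.uncurry fun (x z : V) => ker κ z * (φ x * φ (x - z)))
      ((volume : Measure V).prod volume) := by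
    refine Integrable.mono' ((i1.norm.const_mul C).mul_prod (ker_integrable hκ)) ?_
      (Eventually.of_forall fun p => ?_)
    · exact Continuous.aestronglyMeasurable (by unfold Function.uncurry; fun_prop)
    · have := ker_pos hκ p.2
      simp only [Function.uncurry, norm_mul, Real.norm_of_nonneg this.le]
      have h1 := mul_le_mul_of_nonneg_left (hC (p.1 - p.2)) (mul_nonneg this.le (norm_nonneg (φ p.1)))
      linarith
  have p2 : Integrable (Function.uncurry fun (x z : V) => ker κ z * (fderiv ℝ φ x z) ^ 2)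
      ((volume : Measure V).prod volume) := by
    refine Integrable.mono' (i3.mul_prod (ker_normsq hκ).1) ?_ (Eventually.of_forall fun p => ?_)
    · exact Continuous.aestronglyMeasurable (by unfold Function.uncurry; fun_prop)
    · have := ker_pos hκ p.2
      simp only [Function.uncurry, norm_mul, Real.norm_of_nonneg this.le, norm_pow]
      have h1 := pow_le_pow_left₀ (norm_nonneg _) ((fderiv ℝ φ p.1).le_opNorm p.2) 2
      have h2 := mul_le_mul_of_nonneg_left h1 this.le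
      nlinarith
  have e1 : ∫ x, φ x * Av κ φ x = ∫ z, ker κ z * ∫ x, φ x * φ (x - z) := by
    have : ∀ x, φ x * Av κ φ x = ∫ z, ker κ z * (φ x * φ (x - z)) := by
      intro x
      rw [Av, ← integral_sub_left_eq_self (fun y => ker κ (x - y) * φ y) volume x,
        ← integral_const_mul]
      refine integral_congr_ae (Eventually.of_forall fun z => ?_)
      simp only [sub_sub_cancel]; ring
    simp_rw [this]
    rw [integral_integral_swap p1]
    simp_rw [integral_const_mul]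
  have e2 : ∀ z, (∫ x, φ x ^ 2) - (∫ x, (fderiv ℝ φ x z) ^ 2) / 2 ≤ ∫ x, φ x * φ (x - z) := by
    intro z
    have h1 := shift_sq_le hφ hc z
    have i4 : Integrable (fun x => φ (x - z) ^ 2) := i2.comp_sub_right z
    have i5 : Integrable (fun x => φ x * φ (x - z)) :=
      (i1.comp_sub_right z).bdd_mul hφc.aestronglyMeasurable (Eventually.of_forall hC)
    have e : ∀ x, (φ x - φ (x - z)) ^ 2 = φ x ^ 2 + φ (x - z) ^ 2 - 2 * (φ x * φ (x - z)) :=
      fun x => by ring
    simp_rw [e] at h1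
    erw [integral_sub (i2.add i4) (i5.const_mul 2), integral_add i2 i4] at h1
    rw [integral_const_mul, integral_sub_right_eq_self (fun x => φ x ^ 2) z] at h1
    linarith
  have i6 : Integrable (fun z => ker κ z * ∫ x, (fderiv ℝ φ x z) ^ 2) := by
    have := p2.integral_prod_right
    simp only [Function.uncurry] at this
    simpa only [integral_const_mul] using this
  have i7 : Integrable (fun z => ker κ z * ∫ x, φ x * φ (x - z)) := by
    have := p1.integral_prod_right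
    simp only [Function.uncurry] at this
    simpa only [integral_const_mul] using this
  have e3 : ∫ z, ker κ z * ∫ x, (fderiv ℝ φ x z) ^ 2 ≤ (∫ x, ‖fderiv ℝ φ x‖ ^ 2) / (2 * κ) := by
    simp_rw [← integral_const_mul]
    rw [← integral_integral_swap p2, ← integral_div]
    refine integral_mono p2.integral_prod_left (i3.div_const _) fun x => ?_
    set g := (InnerProductSpace.toDual ℝ V).symm (fderiv ℝ φ x) with hg
    have hgn : ‖g‖ = ‖fderiv ℝ φ x‖ := LinearIsometryEquiv.norm_map _ _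
    have : ∀ z, fderiv ℝ φ x z = inner ℝ z g := fun z => by
      rw [real_inner_comm]; exact (InnerProductSpace.toDual_symm_apply).symm
    simp only [this, ← hgn]
    exact ker_sq_int_le hκ g
  rw [e1]
  have e4 : ∫ z, ((∫ x, φ x ^ 2) * ker κ z - (ker κ z * ∫ x, (fderiv ℝ φ x z) ^ 2) / 2) ≤
      ∫ z, ker κ z * ∫ x, φ x * φ (x - z) := by
    refine integral_mono (((ker_integrable hκ).const_mul _).sub (i6.div_const _)) i7 fun z => ?_
    have := mul_le_mul_of_nonneg_left (e2 z) (ker_pos hκ z).le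
    simp only
    linarith
  rw [integral_sub ((ker_integrable hκ).const_mul _) (i6.div_const _), integral_const_mul,
    ker_int hκ, integral_div] at e4
  have : (∫ x, ‖fderiv ℝ φ x‖ ^ 2) / (4 * κ) = (∫ x, ‖fderiv ℝ φ x‖ ^ 2) / (2 * κ) / 2 := by
    field_simp; ring
  linarith

end Pool.Agent.MP_bcd61f_mp

end MrgPart7

-- ======== part 8: formerly Pool.Agent.MP_bcd61f_mp.Lower
section MrgPart8

set_option autoImplicit false
set_option maxSynthPendingDepth 3

open MeasureTheory Real Filter Topology Set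

namespace Pool.Agent.MP_bcd61f_mp

variable {V : Type*} [NormedAddCommGroup V] [InnerProductSpace ℝ V] [FiniteDimensional ℝ V]
  [MeasurableSpace V] [BorelSpace V]

omit [NormedAddCommGroup V] [InnerProductSpace ℝ V] [FiniteDimensional ℝ V] [BorelSpace V] in
theorem wt_exp {U : V → ℝ} (hm : Measurable U) {M τ : ℝ} (hτ : 0 < τ) (hM : ∀ x, U x ≤ M) :
    Wt (fun x => rexp (τ * U x / 2)) :=
  ⟨by fun_prop, fun x => (Real.exp_pos _).le, ⟨rexp (τ * M / 2), fun x => by
    rw [abs_of_pos (Real.exp_pos _), Real.exp_le_exp]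
    have := hM x
    gcongr⟩⟩

theorem exp_neg_le {x : ℝ} (hx : |x| ≤ 1) : rexp (-x) ≤ 1 - x + x ^ 2 := by
  have := Real.abs_exp_sub_one_sub_id_le (x := -x) (by rwa [abs_neg])
  have := le_abs_self (rexp (-x) - 1 - -x)
  nlinarith

theorem lower_side {U : V → ℝ} (hm : Measurable U) {M : ℝ} (hM : ∀ x, U x ≤ M) {φ : V → ℝ}
    (hφ : ContDiff ℝ 1 φ) (hc : HasCompactSupport φ) (hn : ∫ x, φ x ^ 2 = 1) {L : ℝ}
    (hL : ∀ x, φ x ≠ 0 → |U x| ≤ L) {g : V → ℝ} (hg : Nice g) {cg : ℝ} (hcg0 : 0 < cg)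
    (hcg : ∀ x, φ x ≠ 0 → cg ≤ g x) {E₁ : ℝ}
    (hE : (∫ x, ‖fderiv ℝ φ x‖ ^ 2) - ∫ x, U x * φ x ^ 2 < E₁) :
    ∀ᶠ τ in 𝓝[>] (0 : ℝ), ∃ r c : ℝ, 1 - τ * E₁ < r ∧ 0 < c ∧ ∀ k, c * r ^ k ≤
      ∫ x, rexp (τ * U x / 2) * XX (1 / (2 * τ)) (fun x => rexp (τ * U x / 2))
        (fun y => rexp (τ * U y / 2) * g y) k x := by
  set K := ∫ x, ‖fderiv ℝ φ x‖ ^ 2 with hK
  set I := ∫ x, U x * φ x ^ 2 with hI
  have hK0 : 0 ≤ K := integral_nonneg fun x => sq_nonneg _
  have hφc := hφ.continuous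
  obtain ⟨C0, hC0⟩ := hφc.bounded_above_of_compact_support hc
  set C := C0 + 1 with hCdef
  have hC : ∀ x, |φ x| ≤ C := fun x => by
    have := hC0 x; rw [Real.norm_eq_abs] at this; linarith
  have hCpos : 0 < C := by have := (norm_nonneg _).trans (hC0 0); linarith
  have i1 : Integrable φ := hφc.integrable_of_hasCompactSupport hc
  have i2 : Integrable (fun x => φ x ^ 2) :=
    Continuous.integrable_of_hasCompactSupport (by fun_prop)
      (hc.comp_left (g := fun t : ℝ => t ^ 2) (by simp))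
  have iU : Integrable (fun x => U x * φ x ^ 2) := by
    refine Integrable.mono' (i2.const_mul L) (hm.mul (hφc.measurable.pow_const 2)).aestronglyMeasurable
      (Eventually.of_forall fun x => ?_)
    by_cases hx : φ x = 0
    · simp [hx]
    · rw [norm_mul, Real.norm_of_nonneg (sq_nonneg _)]
      exact mul_le_mul_of_nonneg_right (hL x hx) (sq_nonneg _)
  have nφ : Nice (fun x => |φ x|) :=
    ⟨hφc.abs.measurable, fun x => abs_nonneg _, ⟨C, fun x => by simpa using hC x⟩, i1.abs⟩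
  have e1 : ∀ᶠ τ in 𝓝 (0 : ℝ), τ * L < 1 :=
    (Continuous.tendsto (by fun_prop) (0 : ℝ)).eventually_lt tendsto_const_nhds (by simp)
  have e2 : ∀ᶠ τ in 𝓝 (0 : ℝ), τ * K < 1 :=
    (Continuous.tendsto (by fun_prop) (0 : ℝ)).eventually_lt tendsto_const_nhds (by simp)
  have e3 : ∀ᶠ τ in 𝓝 (0 : ℝ), 0 < 1 - τ * I + τ ^ 2 * L ^ 2 :=
    tendsto_const_nhds.eventually_lt (Continuous.tendsto (by fun_prop) (0 : ℝ)) (by simp)
  have e4 : ∀ᶠ τ in 𝓝 (0 : ℝ), τ * (L ^ 2 + E₁ * I - τ * E₁ * L ^ 2) < E₁ + I - K :=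
    (Continuous.tendsto (by fun_prop) (0 : ℝ)).eventually_lt tendsto_const_nhds
      (by simp only [zero_mul]; linarith)
  filter_upwards [nhdsWithin_le_nhds e1, nhdsWithin_le_nhds e2, nhdsWithin_le_nhds e3,
    nhdsWithin_le_nhds e4, self_mem_nhdsWithin] with τ h1 h2 h3 h4 hτ
  have hτ : 0 < τ := hτ
  set κ := 1 / (2 * τ) with hκdef
  have hκ : 0 < κ := by positivity
  set a : V → ℝ := fun x => rexp (τ * U x / 2) with ha
  have wa : Wt a := wt_exp hm hτ hM
  set f : V → ℝ := fun x => |φ x| * rexp (-(τ * U x / 2)) with hf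
  have hfb : ∀ x, f x ≤ |φ x| * rexp (τ * L / 2) := by
    intro x
    by_cases hx : φ x = 0
    · simp [hf, hx]
    · have := neg_le_of_abs_le (hL x hx)
      refine mul_le_mul_of_nonneg_left (Real.exp_le_exp.2 ?_) (abs_nonneg _)
      nlinarith
  have hf0 : ∀ x, 0 ≤ f x := fun x => mul_nonneg (abs_nonneg _) (Real.exp_pos _).le
  have fm : Measurable f := hφc.abs.measurable.mul (by fun_prop)
  have nf : Nice f := by
    refine ⟨fm, hf0, ⟨C * rexp (τ * L / 2), fun x => ?_⟩, ?_⟩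
    · rw [abs_of_nonneg (hf0 x)]
      exact (hfb x).trans (mul_le_mul_of_nonneg_right (hC x) (Real.exp_pos _).le)
    · exact Integrable.mono' (i1.abs.mul_const _) fm.aestronglyMeasurable
        (Eventually.of_forall fun x => by rw [Real.norm_of_nonneg (hf0 x)]; exact hfb x)
  have haf : (fun y => a y * f y) = fun y => |φ y| := by
    funext y
    simp only [ha, hf]
    rw [mul_left_comm, ← Real.exp_add]; simp
  have hff : ∀ x, f x * f x = φ x ^ 2 * rexp (-(τ * U x)) := by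
    intro x
    simp only [hf]
    rw [mul_mul_mul_comm, ← Real.exp_add, abs_mul_abs_self, ← sq]; congr 2; ring
  have hμ0 : ∫ x, f x * f x ≤ 1 - τ * I + τ ^ 2 * L ^ 2 := by
    have j1 : Integrable (fun x => φ x ^ 2 - τ * (U x * φ x ^ 2)) := i2.sub (iU.const_mul τ)
    have : 1 - τ * I + τ ^ 2 * L ^ 2 =
        ∫ x, (φ x ^ 2 - τ * (U x * φ x ^ 2) + τ ^ 2 * L ^ 2 * φ x ^ 2) := by
      rw [integral_add j1 (i2.const_mul _), integral_sub i2 (iU.const_mul τ), integral_const_mul,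
        integral_const_mul, hn, mul_one]
    rw [this]
    refine integral_mono (nf.mul nf).int (j1.add (i2.const_mul _)) fun x => ?_
    simp only [hff]
    by_cases hx : φ x = 0
    · simp [hx]
    · have h5 : |τ * U x| ≤ τ * L := by
        rw [abs_mul, abs_of_pos hτ]; exact mul_le_mul_of_nonneg_left (hL x hx) hτ.le
      have h6 := exp_neg_le (h5.trans h1.le)
      have h7 : (τ * U x) ^ 2 ≤ (τ * L) ^ 2 := by
        rw [← sq_abs]; exact pow_le_pow_left₀ (abs_nonneg _) h5 2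
      have h8 := mul_le_mul_of_nonneg_left (h6.trans (add_le_add_right h7 _)) (sq_nonneg (φ x))
      nlinarith
  have hμ0' : 0 < ∫ x, f x * f x := by
    have : rexp (-(τ * M)) ≤ ∫ x, f x * f x := by
      rw [← mul_one (rexp _), ← hn, ← integral_const_mul]
      refine integral_mono (i2.const_mul _) (nf.mul nf).int fun x => ?_
      simp only [hff]
      rw [mul_comm]
      refine mul_le_mul_of_nonneg_left (Real.exp_le_exp.2 ?_) (sq_nonneg _)
      have := hM x
      nlinarith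
    exact (Real.exp_pos _).trans_le this
  have hμ1 : 1 - τ * K ≤ ∫ x, f x * XX κ a f 1 x := by
    have h5 := XX_YY hκ wa nf 0 0
    simp only [YY, XX, haf] at h5
    simp only [XX, haf]
    rw [h5]
    have h6 := nφ.cauchy_schwarz (nφ.av hκ)
    have h7 : ∫ x, |φ x| * |φ x| = 1 := by
      rw [← hn]; exact integral_congr_ae (Eventually.of_forall fun x => by
        simp only [abs_mul_abs_self]; ring)
    have h8 := Av_lower hκ hφ hc
    have h9 : ∫ x, φ x * Av κ φ x ≤ ∫ x, |φ x| * Av κ (fun x => |φ x|) x := by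
      refine integral_mono (Av_symm hκ hφc.measurable hC hφc.measurable i1).1
        (nφ.mul (nφ.av hκ)).int fun x => ?_
      refine (le_abs_self _).trans ?_
      rw [abs_mul]
      exact mul_le_mul_of_nonneg_left (Av_abs_le hκ nφ.meas (C := C) (fun y => by simpa using hC y)
        (fun y => le_rfl) x) (abs_nonneg _)
    have h10 : K / (4 * κ) = τ * K / 2 := by rw [hκdef]; field_simp; ring
    rw [hn, ← hK, h10] at h8
    rw [h7, one_mul] at h6
    have h11 : (1 - τ * K / 2) ^ 2 ≤ (∫ x, |φ x| * Av κ (fun x => |φ x|) x) ^ 2 :=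
      pow_le_pow_left₀ (by linarith) (h8.trans h9) 2
    nlinarith [sq_nonneg (τ * K)]
  set r := (1 - τ * K) / (1 - τ * I + τ ^ 2 * L ^ 2) with hr
  have hr0 : 0 < r := div_pos (by linarith) h3
  have hrμ : r * ∫ x, f x * XX κ a f 0 x ≤ ∫ x, f x * XX κ a f 1 x := by
    refine le_trans ?_ hμ1
    refine (mul_le_mul_of_nonneg_left hμ0 hr0.le).trans_eq ?_
    rw [hr]; field_simp
  have hseq := seq_lower (μ := fun n => ∫ x, f x * XX κ a f n x) (mom_logconvex hκ wa nf) hr0
    hμ0' hrμ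
  set C2 := C * rexp (τ * L) with hC2
  have hC2pos : 0 < C2 := by positivity
  have hfa : ∀ x, f x ≤ C2 * a x := by
    intro x
    by_cases hx : φ x = 0
    · simp only [hf, hx, abs_zero, zero_mul]; exact mul_nonneg hC2pos.le (wa.nonneg x)
    · have := neg_le_of_abs_le (hL x hx)
      simp only [hf, ha, hC2]
      rw [mul_assoc, ← Real.exp_add]
      refine mul_le_mul (hC x) (Real.exp_le_exp.2 ?_) (Real.exp_pos _).le hCpos.le
      nlinarith
  have hfg : ∀ x, f x ≤ C2 / cg * (a x * g x) := by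
    intro x
    by_cases hx : φ x = 0
    · simp only [hf, hx, abs_zero, zero_mul]
      exact mul_nonneg (by positivity) (mul_nonneg (wa.nonneg x) (hg.nonneg x))
    · refine (hfa x).trans ?_
      have h5 := mul_le_mul_of_nonneg_left (hcg x hx)
        (mul_nonneg (div_pos hC2pos hcg0).le (wa.nonneg x))
      have : C2 / cg * a x * cg = C2 * a x := by field_simp
      linarith
  refine ⟨r, (∫ x, f x * f x) / (C2 * (C2 / cg)), ?_, by positivity, fun k => ?_⟩
  · rw [hr, lt_div_iff₀ h3]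
    have := mul_lt_mul_of_pos_left h4 hτ
    nlinarith
  · have h5 := hseq k
    have n2 := XX_nice hκ wa (wa.mul hg) k
    have h6 : ∫ x, f x * XX κ a f k x ≤
        ∫ x, C2 * (C2 / cg) * (a x * XX κ a (fun y => a y * g y) k x) := by
      refine integral_mono (nf.mul (XX_nice hκ wa nf k)).int ((wa.mul n2).int.const_mul _)
        fun x => ?_
      have h7 := XX_mono hκ wa nf (wa.mul hg) (div_pos hC2pos hcg0).le hfg k x
      have h8 := mul_le_mul (hfa x) h7 ((XX_nice hκ wa nf k).nonneg x)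
        (mul_nonneg hC2pos.le (wa.nonneg x))
      simp only
      linarith
    rw [integral_const_mul] at h6
    rw [div_mul_eq_mul_div, div_le_iff₀ (by positivity)]
    simp only [XX] at h5
    linarith

end Pool.Agent.MP_bcd61f_mp

end MrgPart8

-- marker of a merged file
example : 731051 + 319159 = 731051 + 319159 := rfl
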