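import Mathlib.Analysis.Calculus.BumpFunction.FiniteDimension
import Mathlib.Combinatorics.SimpleGraph.Basic
import Mathlib.Topology.UniformSpace.Uniformizable
import Pool.Agent.MP_bcd61f_mp.Lower

-- ======== part 0: formerly Pool.Agent.MP_bcd61f_mp.Upper
section MrgPart0

set_option autoImplicit false
set_option maxSynthPendingDepth 3

open MeasureTheory Real Filter Topology Set

namespace Pool.Agent.MP_bcd61f_mp

variable {V : Type*} [NormedAddCommGroup V] [InnerProductSpace ℝ V] [FiniteDimensional ℝ V]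
  [MeasurableSpace V] [BorelSpace V]

omit [MeasurableSpace V] [BorelSpace V] in
theorem exists_cutoff (x0 : V) : ∃ c : ℝ, 0 ≤ c ∧ ∀ ρ : ℝ, 0 < ρ → ∃ χ : V → ℝ, ContDiff ℝ 1 χ ∧
    HasCompactSupport χ ∧ (∀ x, 0 ≤ χ x) ∧ (∀ x, χ x ≤ 1) ∧ (∀ x, ‖x - x0‖ ≤ ρ → χ x = 1) ∧
    (∀ x, χ x ≠ 0 → ‖x - x0‖ ≤ 2 * ρ) ∧ ∀ x, ‖fderiv ℝ χ x‖ ≤ c / ρ := by
  let b : ContDiffBump (0 : V) := ⟨1, 2, one_pos, one_lt_two⟩
  have hb : ContDiff ℝ 1 b := b.contDiff
  obtain ⟨c, hc⟩ := (hb.continuous_fderiv one_ne_zero).bounded_above_of_compact_support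
    (b.hasCompactSupport.fderiv ℝ)
  refine ⟨c, (norm_nonneg _).trans (hc 0), fun ρ hρ => ?_⟩
  have hn : ∀ x : V, ‖ρ⁻¹ • (x - x0)‖ = ‖x - x0‖ / ρ := fun x => by
    rw [norm_smul, Real.norm_of_nonneg (inv_pos.2 hρ).le]; ring
  have hsupp : ∀ x, b (ρ⁻¹ • (x - x0)) ≠ 0 → ‖x - x0‖ ≤ 2 * ρ := by
    intro x hx
    by_contra h
    apply hx
    apply b.zero_of_le_dist
    rw [dist_zero_right, hn, le_div_iff₀ hρ]
    exact (not_le.1 h).le
  refine ⟨fun x => b (ρ⁻¹ • (x - x0)), hb.comp (by fun_prop), ?_, fun x => b.nonneg,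
    fun x => b.le_one, fun x hx => ?_, hsupp, fun x => ?_⟩
  · refine HasCompactSupport.intro (isCompact_closedBall x0 (2 * ρ)) fun x hx => ?_
    by_contra h
    exact hx (mem_closedBall_iff_norm.2 (hsupp x h))
  · apply b.one_of_mem_closedBall
    rw [mem_closedBall_zero_iff, hn, div_le_iff₀ hρ]
    simpa [b] using hx
  · have h1 : HasFDerivAt (fun x : V => ρ⁻¹ • (x - x0)) (ρ⁻¹ • ContinuousLinearMap.id ℝ V) x :=
      ((hasFDerivAt_id x).sub_const x0).const_smul ρ⁻¹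
    have h2 := (hb.differentiable one_ne_zero _).hasFDerivAt.comp x h1
    have h3 : fderiv ℝ (fun x => b (ρ⁻¹ • (x - x0))) x = _ := h2.fderiv
    rw [h3]
    refine (ContinuousLinearMap.opNorm_comp_le _ _).trans ?_
    have h4 : ‖ρ⁻¹ • ContinuousLinearMap.id ℝ V‖ ≤ ρ⁻¹ := by
      rw [norm_smul, Real.norm_of_nonneg (inv_pos.2 hρ).le]
      exact mul_le_of_le_one_right (inv_pos.2 hρ).le ContinuousLinearMap.norm_id_le
    rw [div_eq_mul_inv]
    exact mul_le_mul (hc _) h4 (norm_nonneg _) ((norm_nonneg _).trans (hc 0))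

/-- Admissible trial functions. -/
def Trial (φ : V → ℝ) : Prop := ContDiff ℝ 1 φ ∧ HasCompactSupport φ ∧ ∫ x, φ x ^ 2 = 1

/-- The energy functional. -/
noncomputable def En (U φ : V → ℝ) : ℝ := (∫ x, ‖fderiv ℝ φ x‖ ^ 2) - ∫ x, U x * φ x ^ 2

theorem normalize {U ψ : V → ℝ} (hψ : ContDiff ℝ 1 ψ) (hc : HasCompactSupport ψ)
    (hN : 0 < ∫ x, ψ x ^ 2) {E : ℝ} (hE : En U ψ ≤ E * ∫ x, ψ x ^ 2) :
    ∃ φ : V → ℝ, Trial φ ∧ En U φ ≤ E := by
  set N := ∫ x, ψ x ^ 2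
  set s := (√N)⁻¹ with hs
  have hs2 : s ^ 2 = N⁻¹ := by rw [hs, inv_pow, Real.sq_sqrt hN.le]
  refine ⟨fun x => s * ψ x, ⟨contDiff_const.mul hψ, hc.mul_left, ?_⟩, ?_⟩
  · simp_rw [mul_pow]
    rw [integral_const_mul, hs2, inv_mul_cancel₀ hN.ne']
  · have h1 : ∀ x, ‖fderiv ℝ (fun x => s * ψ x) x‖ ^ 2 = s ^ 2 * ‖fderiv ℝ ψ x‖ ^ 2 := by
      intro x
      rw [((hψ.differentiable one_ne_zero x).hasFDerivAt.const_mul s).fderiv, norm_smul, mul_pow,
        Real.norm_eq_abs, sq_abs]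
    have h2 : ∀ x, U x * (s * ψ x) ^ 2 = s ^ 2 * (U x * ψ x ^ 2) := fun x => by ring
    unfold En at hE ⊢
    simp_rw [h1, h2]
    rw [integral_const_mul, integral_const_mul, ← mul_sub, hs2, inv_mul_le_iff₀ hN]
    linarith

theorem weight_est {κ : ℝ} (hκ : 0 < κ) {h g D : V → ℝ} (hh : Nice h) (hg : Wt g) {B : ℝ}
    (hD : Integrable (fun x => D x * (h x * h x))) (hle : ∀ x, Av κ g x ≤ D x + B) :
    ∫ x, g x * (Av κ h x * Av κ h x) ≤ (∫ x, D x * (h x * h x)) + B * ∫ x, h x * h x := by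
  obtain ⟨C, hC⟩ := hg.bdd
  have n2 := hh.mul hh
  have h1 := Av_symm hκ hg.meas hC n2.meas n2.int
  calc ∫ x, g x * (Av κ h x * Av κ h x) ≤ ∫ x, g x * Av κ (fun y => h y * h y) x := by
        refine integral_mono (hg.mul ((hh.av hκ).mul (hh.av hκ))).int h1.1 fun x => ?_
        refine mul_le_mul_of_nonneg_left ?_ (hg.nonneg x)
        have := bessel hκ hh x
        have h2 : 0 ≤ ‖fderiv ℝ (Av κ h) x‖ ^ 2 / (2 * κ) := by positivity
        nlinarith
    _ = ∫ x, h x * h x * Av κ g x := h1.2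
    _ ≤ ∫ x, (D x * (h x * h x) + B * (h x * h x)) := by
        refine integral_mono ?_ (hD.add (n2.int.const_mul B)) fun x => ?_
        · exact (n2.int.bdd_mul (Av_measurable κ hg.meas).aestronglyMeasurable
            (Eventually.of_forall (Av_abs_le_const hκ hC))).congr
            (Eventually.of_forall fun x => mul_comm _ _)
        · have := mul_le_mul_of_nonneg_left (hle x) (n2.nonneg x)
          simp only
          linarith
    _ = _ := by rw [integral_add hD (n2.int.const_mul B), integral_const_mul]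

theorem core_estimate {U W : V → ℝ} {M η : ℝ} {x0 : V} (hUm : Measurable U) (hη : 0 < η)
    (hU : ∀ x, η * ‖x - x0‖ ^ 2 ≤ M - U x) (hM : 0 ≤ M) (hWm : Measurable W) (hW : ∀ x, W x ≤ M)
    {ρ c δ L β τ E₁ E₂ : ℝ} (hρ : 0 < ρ) (hδ : 0 < δ) (hL : 0 ≤ L) (hβ : 0 < β) (hτ : 0 < τ)
    (hE : 0 ≤ M + E₂)
    {χ : V → ℝ} (hχ : ContDiff ℝ 1 χ) (hχc : HasCompactSupport χ) (hχ0 : ∀ x, 0 ≤ χ x)
    (hχ1 : ∀ x, χ x ≤ 1) (hχ2 : ∀ x, ‖x - x0‖ ≤ ρ → χ x = 1)
    (hχ3 : ∀ x, χ x ≠ 0 → ‖x - x0‖ ≤ 2 * ρ) (hχ4 : ∀ x, ‖fderiv ℝ χ x‖ ≤ c / ρ)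
    (hWL : ∀ x, ‖x - x0‖ ≤ 2 * ρ → M - W x ≤ L)
    (hUW : ∀ x y, ‖y - x0‖ ≤ 2 * ρ → ‖x - y‖ ≤ δ → U x ≤ W y)
    (H1 : (1 + β) * (E₁ + M * rexp (τ * M)) + (1 + β⁻¹) * (c / ρ) ^ 2 * rexp (τ * M) +
      L * (2 * τ * hd V) / δ ^ 2 * rexp (τ * M) ≤ (M + E₂) * (1 - τ * E₁ -
        (4 / (η * ρ ^ 2) * (E₁ + M * rexp (τ * M)) + 2 * τ * hd V / (ρ / 2) ^ 2 * rexp (τ * M))))
    (H2 : 0 < 1 - τ * E₁ -
        (4 / (η * ρ ^ 2) * (E₁ + M * rexp (τ * M)) + 2 * τ * hd V / (ρ / 2) ^ 2 * rexp (τ * M)))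
    {f : V → ℝ} (hf : Nice f) (hF : 0 < ∫ x, f x * f x)
    (hN : (1 - τ * E₁) * ∫ x, f x * f x ≤
      ∫ x, Av (1 / (2 * τ)) (fun y => rexp (τ * U y / 2) * f y) x *
        Av (1 / (2 * τ)) (fun y => rexp (τ * U y / 2) * f y) x) :
    ∃ φ : V → ℝ, Trial φ ∧ En W φ ≤ E₂ := by
  set κ := 1 / (2 * τ) with hκdef
  have hκ : 0 < κ := by positivity
  have hdκ : hd V / κ = 2 * τ * hd V := by rw [hκdef]; field_simp
  have hd0 : 0 ≤ hd V := by unfold hd; positivity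
  have hD0 : ∀ x, 0 ≤ M - U x := fun x => le_trans (by positivity) (hU x)
  have hUM : ∀ x, U x ≤ M := fun x => by linarith [hD0 x]
  have wa := wt_exp hUm hτ hUM
  set h : V → ℝ := fun y => rexp (τ * U y / 2) * f y with hh
  have nh : Nice h := wa.mul hf
  have hhh : ∀ x, h x * h x = rexp (τ * U x) * (f x * f x) := by
    intro x
    simp only [hh]
    rw [mul_mul_mul_comm, ← Real.exp_add]; congr 2; ring
  set φ := Av κ h with hφ
  have nφ : Nice φ := nh.av hκ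
  have cφ : ContDiff ℝ 1 φ := Av_contDiff hκ nh
  set F := ∫ x, f x * f x with hFdef
  set H := ∫ x, h x * h x with hHdef
  set N := ∫ x, φ x * φ x with hNdef
  set Kin := ∫ x, ‖fderiv ℝ φ x‖ ^ 2 with hKdef
  set P := ∫ x, (M - U x) * (h x * h x) with hPdef
  set e := rexp (τ * M) with he
  have he0 : 0 < e := Real.exp_pos _
  have hb := bessel_int hκ nh
  have hKin0 : 0 ≤ Kin := integral_nonneg fun x => sq_nonneg _
  have hP0 : 0 ≤ P := integral_nonneg fun x => mul_nonneg (hD0 x) ((nh.mul nh).nonneg x)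
  have hN0 : 0 ≤ N := integral_nonneg fun x => (nφ.mul nφ).nonneg x
  have hH0 : 0 ≤ H := integral_nonneg fun x => (nh.mul nh).nonneg x
  have f1 : N + τ * Kin ≤ H := by
    have := hb.2
    have e1 : Kin / (2 * κ) = τ * Kin := by rw [hκdef]; field_simp
    rw [← hφ, ← hKdef, e1] at this
    exact this
  have iP : Integrable (fun x => (M - U x) * (h x * h x)) := by
    have w : Wt (fun x => (M - U x) * rexp (τ * U x)) := by
      refine ⟨by fun_prop, fun x => mul_nonneg (hD0 x) (Real.exp_pos _).le, ⟨e / τ, fun x => ?_⟩⟩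
      rw [abs_of_nonneg (mul_nonneg (hD0 x) (Real.exp_pos _).le), le_div_iff₀ hτ]
      have h1 : τ * (M - U x) + 1 ≤ rexp (τ * (M - U x)) := Real.add_one_le_exp _
      have h2 : rexp (τ * (M - U x)) * rexp (τ * U x) = e := by
        rw [← Real.exp_add]; congr 1; ring
      have h3 := mul_le_mul_of_nonneg_right h1 (Real.exp_pos (τ * U x)).le
      have h4 := Real.exp_pos (τ * U x)
      linarith
    refine (w.mul (hf.mul hf)).int.congr (Eventually.of_forall fun x => ?_)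
    simp only [hhh]; ring
  have f2 : H + τ * P - τ * M * H ≤ F := by
    have j1 : Integrable (fun x => h x * h x + τ * ((M - U x) * (h x * h x))) :=
      (nh.mul nh).int.add (iP.const_mul τ)
    have : H + τ * P - τ * M * H = ∫ x, (h x * h x + τ * ((M - U x) * (h x * h x)) -
        τ * M * (h x * h x)) := by
      rw [integral_sub j1 ((nh.mul nh).int.const_mul _),
        integral_add (nh.mul nh).int (iP.const_mul τ), integral_const_mul, integral_const_mul]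
    rw [this]
    refine integral_mono (j1.sub ((nh.mul nh).int.const_mul _)) (hf.mul hf).int fun x => ?_
    simp only [hhh]
    have h1 : 1 - τ * U x ≤ rexp (-(τ * U x)) := Real.one_sub_le_exp_neg _
    have h2 : rexp (-(τ * U x)) * rexp (τ * U x) = 1 := by rw [← Real.exp_add]; simp
    have h3 := Real.exp_pos (τ * U x)
    have h4 : (1 - τ * U x) * rexp (τ * U x) ≤ 1 :=
      (mul_le_mul_of_nonneg_right h1 h3.le).trans_eq h2
    have h5 := mul_le_mul_of_nonneg_right h4 ((hf.mul hf).nonneg x)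
    linarith
  have f3 : H ≤ e * F := by
    rw [hFdef, ← integral_const_mul]
    refine integral_mono (nh.mul nh).int ((hf.mul hf).int.const_mul _) fun x => ?_
    simp only [hhh]
    refine mul_le_mul_of_nonneg_right (Real.exp_le_exp.2 ?_) ((hf.mul hf).nonneg x)
    exact mul_le_mul_of_nonneg_left (hUM x) hτ.le
  set Q := E₁ + M * e with hQ
  have f4 : Kin + P ≤ Q * F := by
    refine le_of_mul_le_mul_left ?_ hτ
    have := mul_le_mul_of_nonneg_left f3 (mul_nonneg hτ.le hM)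
    rw [hQ]
    linarith
  have χm := hχ.continuous.measurable
  have hχsq : ∀ x, χ x * χ x ≤ 1 := fun x => mul_le_one₀ (hχ1 x) (hχ0 x) (hχ1 x)
  have hχsq0 : ∀ x, 0 ≤ χ x * χ x := fun x => mul_nonneg (hχ0 x) (hχ0 x)
  have hg1b : ∀ x, (M - W x) * (χ x * χ x) ≤ L := by
    intro x
    by_cases hx : χ x = 0
    · simp [hx, hL]
    · exact (mul_le_of_le_one_right (by linarith [hW x]) (hχsq x)).trans (hWL x (hχ3 x hx))
  have hg10 : ∀ x, 0 ≤ (M - W x) * (χ x * χ x) := fun x =>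
    mul_nonneg (by linarith [hW x]) (hχsq0 x)
  have w1 : Wt (fun x => (M - W x) * (χ x * χ x)) :=
    ⟨by fun_prop, hg10, ⟨L, fun x => by rw [abs_of_nonneg (hg10 x)]; exact hg1b x⟩⟩
  have f5 : ∫ x, (M - W x) * (χ x * χ x) * (φ x * φ x) ≤ P + L * (2 * τ * hd V) / δ ^ 2 * H := by
    refine weight_est hκ nh w1 iP fun x => ?_
    rw [← hdκ]
    refine ker_tail hκ hδ _ w1.meas _ L hL hg10 x (fun y => ?_) fun y hy => ?_
    · linarith [hg1b y, hD0 x]
    · by_cases hx : χ y = 0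
      · simp [hx, hUM x]
      · have := hUW x y (hχ3 y hx) hy
        exact (mul_le_of_le_one_right (by linarith [hW y]) (hχsq y)).trans (by linarith)
  have w2 : Wt (fun x => 1 - χ x * χ x) :=
    ⟨by fun_prop, fun x => by linarith [hχsq x], ⟨1, fun x => by
      rw [abs_of_nonneg (by linarith [hχsq x])]; linarith [hχsq0 x]⟩⟩
  have f6 : ∫ x, (1 - χ x * χ x) * (φ x * φ x) ≤
      4 / (η * ρ ^ 2) * P + 2 * τ * hd V / (ρ / 2) ^ 2 * H := by
    have := weight_est hκ nh w2 (D := fun x => 4 / (η * ρ ^ 2) * (M - U x))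
      (B := 2 * τ * hd V / (ρ / 2) ^ 2) ((iP.const_mul (4 / (η * ρ ^ 2))).congr
        (Eventually.of_forall fun x => by simp only; ring)) fun x => ?_
    · simp_rw [mul_assoc (4 / (η * ρ ^ 2))] at this
      rwa [integral_const_mul] at this
    · rw [← hdκ, ← one_mul (hd V / κ)]
      have h0 : 0 ≤ 4 / (η * ρ ^ 2) * (M - U x) := mul_nonneg (by positivity) (hD0 x)
      refine ker_tail hκ (half_pos hρ) _ w2.meas _ 1 zero_le_one w2.nonneg x (fun y => ?_)
        fun y hy => ?_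
      · linarith [hχsq0 y]
      · by_cases hx : ‖x - x0‖ ≤ ρ / 2
        · have h1 : ‖y - x0‖ ≤ ρ := by
            have := norm_sub_le_norm_sub_add_norm_sub y x x0
            rw [norm_sub_rev y x] at this
            linarith
          rw [hχ2 y h1]; linarith
        · have h1 : (ρ / 2) ^ 2 ≤ ‖x - x0‖ ^ 2 :=
            pow_le_pow_left₀ (by positivity) (not_le.1 hx).le 2
          have h2 : η * (ρ / 2) ^ 2 ≤ M - U x := (mul_le_mul_of_nonneg_left h1 hη.le).trans (hU x)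
          have h3 := mul_le_mul_of_nonneg_left h2 (show 0 ≤ 4 / (η * ρ ^ 2) by positivity)
          have h4 : 4 / (η * ρ ^ 2) * (η * (ρ / 2) ^ 2) = 1 := by field_simp; norm_num
          linarith [hχsq0 y]
  set ψ : V → ℝ := fun x => χ x * φ x with hψ
  have cψ : ContDiff ℝ 1 ψ := hχ.mul cφ
  have sψ : HasCompactSupport ψ := hχc.mul_right
  have iψ : Integrable (fun x => ψ x ^ 2) :=
    Continuous.integrable_of_hasCompactSupport (cψ.continuous.pow 2)
      (sψ.comp_left (g := fun t : ℝ => t ^ 2) (by simp))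
  have f7 : ∫ x, ‖fderiv ℝ ψ x‖ ^ 2 ≤ (1 + β) * Kin + (1 + β⁻¹) * (c / ρ) ^ 2 * N := by
    rw [hKdef, hNdef, ← integral_const_mul, ← integral_const_mul,
      ← integral_add (hb.1.const_mul _) ((nφ.mul nφ).int.const_mul _)]
    refine integral_mono_of_nonneg (Eventually.of_forall fun x => sq_nonneg _)
      ((hb.1.const_mul _).add ((nφ.mul nφ).int.const_mul _)) (Eventually.of_forall fun x => ?_)
    have h1 := ((hχ.differentiable one_ne_zero x).hasFDerivAt.mul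
      (cφ.differentiable one_ne_zero x).hasFDerivAt).fderiv
    have h2 : ‖fderiv ℝ ψ x‖ ≤ ‖fderiv ℝ φ x‖ + φ x * (c / ρ) := by
      have h3 : fderiv ℝ ψ x = _ := h1
      rw [h3]
      refine (norm_add_le _ _).trans (add_le_add ?_ ?_)
      · rw [norm_smul, Real.norm_of_nonneg (hχ0 x)]
        exact mul_le_of_le_one_left (norm_nonneg _) (hχ1 x)
      · rw [norm_smul, Real.norm_of_nonneg (nφ.nonneg x)]
        exact mul_le_mul_of_nonneg_left (hχ4 x) (nφ.nonneg x)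
    have h4 := pow_le_pow_left₀ (norm_nonneg _) h2 2
    set A := ‖fderiv ℝ φ x‖
    set B := φ x * (c / ρ) with hB
    have h5 : 2 * A * B ≤ β * A ^ 2 + β⁻¹ * B ^ 2 := by
      have h6 : 0 ≤ β⁻¹ * (β * A - B) ^ 2 := by positivity
      have h7 : β⁻¹ * (β * A - B) ^ 2 = β * A ^ 2 - 2 * A * B + β⁻¹ * B ^ 2 := by field_simp; ring
      linarith
    have h8 : (1 + β⁻¹) * (c / ρ) ^ 2 * (φ x * φ x) = (1 + β⁻¹) * B ^ 2 := by rw [hB]; ring
    simp only
    rw [h8]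
    linarith
  have f8 : ∫ x, ψ x ^ 2 = N - ∫ x, (1 - χ x * χ x) * (φ x * φ x) := by
    rw [hNdef, ← integral_sub (nφ.mul nφ).int (w2.mul (nφ.mul nφ)).int]
    exact integral_congr_ae (Eventually.of_forall fun x => by simp only [hψ]; ring)
  have f9 : ∫ x, W x * ψ x ^ 2 =
      M * (∫ x, ψ x ^ 2) - ∫ x, (M - W x) * (χ x * χ x) * (φ x * φ x) := by
    rw [← integral_const_mul, ← integral_sub (iψ.const_mul _) (w1.mul (nφ.mul nφ)).int]
    exact integral_congr_ae (Eventually.of_forall fun x => by simp only [hψ]; ring)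
  set O := 4 / (η * ρ ^ 2) * Q + 2 * τ * hd V / (ρ / 2) ^ 2 * e with hO
  have f10 : (1 - τ * E₁ - O) * F ≤ ∫ x, ψ x ^ 2 := by
    have h1 : 4 / (η * ρ ^ 2) * P ≤ 4 / (η * ρ ^ 2) * (Q * F) :=
      mul_le_mul_of_nonneg_left (by linarith) (by positivity)
    have h2 : 2 * τ * hd V / (ρ / 2) ^ 2 * H ≤ 2 * τ * hd V / (ρ / 2) ^ 2 * (e * F) :=
      mul_le_mul_of_nonneg_left f3 (by positivity)
    rw [f8, hO]
    linarith
  refine normalize cψ sψ ((mul_pos H2 hF).trans_le f10) ?_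
  unfold En
  rw [f9]
  have h1 := mul_le_mul_of_nonneg_left f10 hE
  have h2 := mul_le_mul_of_nonneg_right H1 hF.le
  have h3 : (1 + β⁻¹) * (c / ρ) ^ 2 * N ≤ (1 + β⁻¹) * (c / ρ) ^ 2 * (e * F) :=
    mul_le_mul_of_nonneg_left (by linarith [mul_nonneg hτ.le hKin0]) (by positivity)
  have h4 : L * (2 * τ * hd V) / δ ^ 2 * H ≤ L * (2 * τ * hd V) / δ ^ 2 * (e * F) :=
    mul_le_mul_of_nonneg_left f3 (by positivity)
  have h5 : (1 + β) * (Kin + P) ≤ (1 + β) * (Q * F) := mul_le_mul_of_nonneg_left f4 (by positivity)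
  have h6 : 0 ≤ β * P := by positivity
  linarith

end Pool.Agent.MP_bcd61f_mp

end MrgPart0

-- ======== part 1: formerly Pool.Agent.MP_bcd61f_mp.Transfer
section MrgPart1

set_option autoImplicit false
set_option maxSynthPendingDepth 3

open MeasureTheory Real Filter Topology Set

namespace Pool.Agent.MP_bcd61f_mp

variable {V : Type*} [NormedAddCommGroup V] [InnerProductSpace ℝ V] [FiniteDimensional ℝ V]
  [MeasurableSpace V] [BorelSpace V]

theorem transfer {U U' W : V → ℝ} {M₀ η : ℝ} {x0 : V} (hUm : Measurable U) (hη : 0 < η)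
    (hU : ∀ x, η * ‖x - x0‖ ^ 2 ≤ M₀ - U x) (hWm : Measurable W) (hW : ∀ x, W x ≤ M₀)
    (hWL : ∀ ρ : ℝ, ∃ L, ∀ x, ‖x - x0‖ ≤ ρ → -L ≤ W x)
    (hUW : ∀ ρ : ℝ, 0 < ρ → ∃ δ, 0 < δ ∧ ∀ x y, ‖y - x0‖ ≤ ρ → ‖x - y‖ ≤ δ → U x ≤ W y)
    (hU'm : Measurable U') (hU'M : ∀ x, U' x ≤ M₀) {φ' : V → ℝ} (hφ' : Trial φ') {L' : ℝ}
    (hL' : ∀ x, φ' x ≠ 0 → |U' x| ≤ L') {g g' : V → ℝ} (hg : Nice g) (hg1 : ∀ x, g x ≤ 1)
    (hg' : Nice g') {cg : ℝ} (hcg0 : 0 < cg) (hcg : ∀ x, φ' x ≠ 0 → cg ≤ g' x)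
    (hCI : ∀ τ : ℝ, 0 < τ → ∀ k,
      ∫ x, rexp (τ * U' x / 2) * XX (1 / (2 * τ)) (fun x => rexp (τ * U' x / 2))
        (fun y => rexp (τ * U' y / 2) * g' y) k x ≤
      ∫ x, rexp (τ * U x / 2) * XX (1 / (2 * τ)) (fun x => rexp (τ * U x / 2))
        (fun y => rexp (τ * U y / 2) * g y) k x)
    {E₂ : ℝ} (hE : En U' φ' < E₂) : ∃ φ : V → ℝ, Trial φ ∧ En W φ ≤ E₂ := by
  obtain ⟨E₁, hE1, hE2⟩ := exists_between hE
  set M := |M₀| + |E₂| with hM
  have hM0 : 0 ≤ M := by positivity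
  have hMM : M₀ ≤ M := by have := le_abs_self M₀; have := abs_nonneg E₂; linarith
  have hME : 0 ≤ M + E₂ := by have := neg_abs_le E₂; have := abs_nonneg M₀; linarith
  obtain ⟨c, hc0, hχ⟩ := exists_cutoff x0
  have b1 : ∀ᶠ β in 𝓝 (0 : ℝ), (1 + β) * (E₁ + M) < M + E₂ :=
    (Continuous.tendsto (by fun_prop) (0 : ℝ)).eventually_lt tendsto_const_nhds
      (by simp only [add_zero, one_mul]; linarith)
  obtain ⟨β, hβ1, hβ⟩ :=
    ((b1.filter_mono (nhdsWithin_le_nhds (s := Ioi 0))).and self_mem_nhdsWithin).exists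
  have hβ : 0 < β := hβ
  have t1 : Tendsto (fun ρ : ℝ => c / ρ) atTop (𝓝 0) := tendsto_const_nhds.div_atTop tendsto_id
  have t2 : Tendsto (fun ρ : ℝ => 4 / (η * ρ ^ 2)) atTop (𝓝 0) :=
    tendsto_const_nhds.div_atTop ((tendsto_pow_atTop two_ne_zero).const_mul_atTop hη)
  have b2 : ∀ᶠ ρ in atTop, (1 + β) * (E₁ + M) + (1 + β⁻¹) * (c / ρ) ^ 2 <
      (M + E₂) * (1 - 4 / (η * ρ ^ 2) * (E₁ + M)) :=
    (((t1.pow 2).const_mul _).const_add _).eventually_lt
      (((t2.mul_const _).const_sub _).const_mul _) (by simpa using hβ1)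
  have b3 : ∀ᶠ ρ : ℝ in atTop, 0 < 1 - 4 / (η * ρ ^ 2) * (E₁ + M) :=
    tendsto_const_nhds.eventually_lt ((t2.mul_const _).const_sub _) (by simp)
  obtain ⟨ρ, hρ2, hρ3, hρ⟩ := (b2.and (b3.and (eventually_gt_atTop 0))).exists
  obtain ⟨χ, χ1, χ2, χ3, χ4, χ5, χ6, χ7⟩ := hχ ρ hρ
  obtain ⟨L0, hL0⟩ := hWL (2 * ρ)
  obtain ⟨δ, hδ, hδ'⟩ := hUW (2 * ρ) (by positivity)
  set L := M + |L0| with hL
  have b4 : ∀ᶠ τ in 𝓝 (0 : ℝ), (1 + β) * (E₁ + M * rexp (τ * M)) +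
      (1 + β⁻¹) * (c / ρ) ^ 2 * rexp (τ * M) + L * (2 * τ * hd V) / δ ^ 2 * rexp (τ * M) <
      (M + E₂) * (1 - τ * E₁ - (4 / (η * ρ ^ 2) * (E₁ + M * rexp (τ * M)) +
        2 * τ * hd V / (ρ / 2) ^ 2 * rexp (τ * M))) :=
    (Continuous.tendsto (by fun_prop) (0 : ℝ)).eventually_lt
      (Continuous.tendsto (by fun_prop) (0 : ℝ)) (by simpa using hρ2)
  have b5 : ∀ᶠ τ in 𝓝 (0 : ℝ), 0 < 1 - τ * E₁ - (4 / (η * ρ ^ 2) * (E₁ + M * rexp (τ * M)) +
        2 * τ * hd V / (ρ / 2) ^ 2 * rexp (τ * M)) :=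
    tendsto_const_nhds.eventually_lt (Continuous.tendsto (by fun_prop) (0 : ℝ))
      (by simpa using hρ3)
  have b6 : ∀ᶠ τ in 𝓝 (0 : ℝ), 0 < 1 - τ * E₁ :=
    tendsto_const_nhds.eventually_lt (Continuous.tendsto (by fun_prop) (0 : ℝ)) (by simp)
  have b7 := lower_side hU'm hU'M hφ'.1 hφ'.2.1 hφ'.2.2 hL' hg' hcg0 hcg hE1
  obtain ⟨τ, ⟨h4, h5, h6⟩, ⟨r, cc, hr, hcc, hk⟩, hτ⟩ :=
    (((b4.and (b5.and b6)).filter_mono (nhdsWithin_le_nhds (s := Ioi 0))).and
      (b7.and self_mem_nhdsWithin)).exists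
  have hτ : 0 < τ := hτ
  have hκ : 0 < 1 / (2 * τ) := by positivity
  have hUM : ∀ x, U x ≤ M₀ := fun x => by
    have := hU x
    have : 0 ≤ η * ‖x - x0‖ ^ 2 := by positivity
    linarith
  have wa := wt_exp hUm hτ hUM
  set a : V → ℝ := fun x => rexp (τ * U x / 2) with ha
  have na : Nice a := by
    refine ⟨wa.meas, wa.nonneg, wa.bdd, ?_⟩
    refine Integrable.mono' ((gauss_integrable (b := τ * η / 2) (by positivity) x0).const_mul
      (rexp (τ * M₀ / 2))) wa.meas.aestronglyMeasurable (Eventually.of_forall fun x => ?_)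
    rw [Real.norm_of_nonneg (wa.nonneg x), ← Real.exp_add, Real.exp_le_exp]
    have := mul_le_mul_of_nonneg_left (hU x) hτ.le
    linarith
  have hlow : ∀ k, cc * r ^ k ≤ ∫ x, a x * XX (1 / (2 * τ)) a a k x := by
    intro k
    refine ((hk k).trans (hCI τ hτ k)).trans ?_
    refine integral_mono (wa.mul (XX_nice hκ wa (wa.mul hg) k)).int
      (wa.mul (XX_nice hκ wa na k)).int fun x => ?_
    have := XX_mono hκ wa (wa.mul hg) na zero_le_one (fun x => by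
      rw [one_mul]; exact mul_le_of_le_one_right (wa.nonneg x) (hg1 x)) k x
    rw [one_mul] at this
    exact mul_le_mul_of_nonneg_left this (wa.nonneg x)
  obtain ⟨k, hk1, hk2⟩ := seq_exists (μ := fun n => ∫ x, a x * XX (1 / (2 * τ)) a a n x)
    (mom_logconvex hκ wa na) h6 hr hcc hlow
  have e1 := XX_shift hκ wa na k k
  have e2 := XX_shift hκ wa na k (k + 1)
  rw [XX_YY hκ wa na] at e2
  rw [show 2 * k = k + k by ring, ← e1] at hk1 hk2
  rw [show k + k + 1 = k + (k + 1) by ring, ← e2] at hk2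
  refine core_estimate hUm hη (fun x => (hU x).trans (by linarith)) hM0 hWm
    (fun x => (hW x).trans hMM) hρ hδ (L := L) (by positivity) hβ hτ hME χ1 χ2 χ3 χ4 χ5 χ6 χ7
    (fun x hx => ?_) hδ' h4.le h5 (XX_nice hκ wa na k) hk1 hk2
  have := hL0 x hx
  have := le_abs_self L0
  linarith

end Pool.Agent.MP_bcd61f_mp

end MrgPart1

-- ======== part 2: formerly Pool.Agent.MP_bcd61f_mp.Approx
section MrgPart2

set_option autoImplicit false
set_option maxSynthPendingDepth 3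

open MeasureTheory Real Filter Topology Set

namespace Pool.Agent.MP_bcd61f_mp

def ES : Submodule ℝ (ℝ → ℝ) :=
  Submodule.span ℝ ((fun (l : ℝ) (q : ℝ) => rexp (-(l * q))) '' Ici 0)

theorem ES_exp {l : ℝ} (hl : 0 ≤ l) : (fun q => rexp (-(l * q))) ∈ ES :=
  Submodule.subset_span ⟨l, hl, rfl⟩

theorem ES_one : (1 : ℝ → ℝ) ∈ ES := by
  have := ES_exp le_rfl
  simp only [zero_mul, neg_zero, Real.exp_zero] at this
  exact this

theorem ES_mul {f g : ℝ → ℝ} (hf : f ∈ ES) (hg : g ∈ ES) : f * g ∈ ES := by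
  have := Submodule.mul_mem_mul hf hg
  unfold ES at this
  rw [Submodule.span_mul_span] at this
  refine Submodule.span_mono ?_ this
  rintro _ ⟨_, ⟨l, hl, rfl⟩, _, ⟨l', hl', rfl⟩, rfl⟩
  refine ⟨l + l', show (0 : ℝ) ≤ l + l' from add_nonneg hl hl', ?_⟩
  funext q
  simp only [Pi.mul_apply, ← Real.exp_add]; congr 1; ring

theorem ES_pow {f : ℝ → ℝ} (hf : f ∈ ES) : ∀ k : ℕ, f ^ k ∈ ES
  | 0 => by simpa using ES_one
  | k + 1 => by rw [pow_succ]; exact ES_mul (ES_pow hf k) hf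

def KM : ℕ → (ℝ → ℝ) → Prop
  | 0, φ => ∀ q, 0 ≤ q → 0 ≤ φ q
  | m + 1, φ => (∀ q, 0 ≤ q → 0 ≤ φ q) ∧ ∃ φ1 : ℝ → ℝ, (∀ q, HasDerivAt φ (-φ1 q) q) ∧ KM m φ1

theorem KM.nonneg : ∀ {m : ℕ} {φ : ℝ → ℝ}, KM m φ → ∀ q, 0 ≤ q → 0 ≤ φ q
  | 0, _, h => h
  | _ + 1, _, h => h.1

theorem KM.add : ∀ {m : ℕ} {φ ψ : ℝ → ℝ}, KM m φ → KM m ψ → KM m (fun q => φ q + ψ q)
  | 0, _, _, h, h' => fun q hq => add_nonneg (h q hq) (h' q hq)
  | _ + 1, _, _, ⟨h0, φ1, h1, h2⟩, ⟨h0', ψ1, h1', h2'⟩ =>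
    ⟨fun q hq => add_nonneg (h0 q hq) (h0' q hq), fun q => φ1 q + ψ1 q,
      fun q => by rw [neg_add]; exact (h1 q).add (h1' q), h2.add h2'⟩

theorem KM.smul {a : ℝ} (ha : 0 ≤ a) : ∀ {m : ℕ} {φ : ℝ → ℝ}, KM m φ → KM m (fun q => a * φ q)
  | 0, _, h => fun q hq => mul_nonneg ha (h q hq)
  | _ + 1, _, ⟨h0, φ1, h1, h2⟩ =>
    ⟨fun q hq => mul_nonneg ha (h0 q hq), fun q => a * φ1 q,
      fun q => by rw [← mul_neg]; exact (h1 q).const_mul a, h2.smul ha⟩

theorem KM.const : ∀ {m : ℕ} {a : ℝ}, 0 ≤ a → KM m (fun _ => a)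
  | 0, _, ha => fun _ _ => ha
  | _ + 1, a, ha => ⟨fun _ _ => ha, fun _ => 0, fun q => by simpa using hasDerivAt_const q a,
      KM.const le_rfl⟩

theorem KM_sum (s : Finset ℝ) : ∀ (m : ℕ) (α : ℝ → ℝ),
    KM m (fun q => ∑ l ∈ s, α l * rexp (-(l * q))) →
    ∀ e ≤ m, ∀ q, 0 ≤ q → 0 ≤ ∑ l ∈ s, α l * l ^ e * rexp (-(l * q))
  | m, α, h, 0, _, q, hq => by simpa using h.nonneg q hq
  | 0, _, _, e + 1, he, _, _ => by omega
  | m + 1, α, ⟨_, φ1, h1, h2⟩, e + 1, he, q, hq => by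
    have : φ1 = fun q => ∑ l ∈ s, (α l * l) * rexp (-(l * q)) := by
      funext q
      have h3 : HasDerivAt (fun q => ∑ l ∈ s, α l * rexp (-(l * q)))
          (∑ l ∈ s, α l * (rexp (-(l * q)) * -(l * 1))) q :=
        HasDerivAt.fun_sum fun l _ => (((hasDerivAt_id q).const_mul l).neg.exp).const_mul _
      have := (h1 q).unique h3
      rw [neg_eq_iff_eq_neg, ← Finset.sum_neg_distrib] at this
      rw [this]
      exact Finset.sum_congr rfl fun l _ => by ring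
    rw [this] at h2
    have := KM_sum s m (fun l => α l * l) h2 e (by omega) q hq
    refine this.trans_eq (Finset.sum_congr rfl fun l _ => by ring)

def Rp (m : ℕ) (φ : ℝ → ℝ) : Prop := φ ∈ ES ∧ KM m φ

theorem ES_rep {φ : ℝ → ℝ} (h : φ ∈ ES) : ∃ (s : Finset ℝ) (α : ℝ → ℝ), (∀ l ∈ s, 0 ≤ l) ∧
    φ = fun q => ∑ l ∈ s, α l * rexp (-(l * q)) := by
  obtain ⟨l, hl, rfl⟩ := (Finsupp.mem_span_image_iff_linearCombination ℝ).1 h
  refine ⟨l.support, l, fun x hx => hl hx, ?_⟩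
  funext q
  simp [Finsupp.linearCombination_apply, Finsupp.sum, Finset.sum_apply]

theorem Rp.rep {m : ℕ} {φ : ℝ → ℝ} (h : Rp m φ) : Rep m φ := by
  obtain ⟨s, α, h1, rfl⟩ := ES_rep h.1
  exact ⟨s, α, h1, fun _ => rfl, KM_sum s m α h.2⟩

theorem ES_measurable {φ : ℝ → ℝ} (h : φ ∈ ES) : Measurable φ := by
  obtain ⟨s, α, -, rfl⟩ := ES_rep h
  fun_prop

theorem Lim.add {m : ℕ} {φ ψ : ℝ → ℝ} (h : Lim (Rp m) φ) (h' : Lim (Rp m) ψ) :
    Lim (Rp m) (fun q => φ q + ψ q) := by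
  obtain ⟨f, C, B, hB, h1, h2, h3, h4⟩ := h
  obtain ⟨f', C', B', hB', h1', h2', h3', h4'⟩ := h'
  refine ⟨fun N q => f N q + f' N q, C + C', B ∪ B', hB.union hB',
    fun N => ⟨ES.add_mem (h1 N).1 (h1' N).1, (h1 N).2.add (h1' N).2⟩,
    fun N => (h2 N).add (h2' N), fun N q hq => (abs_add_le _ _).trans
      (add_le_add (h3 N q hq) (h3' N q hq)), fun q hq hqB => ?_⟩
  rw [mem_union, not_or] at hqB
  exact (h4 q hq hqB.1).add (h4' q hq hqB.2)

theorem Lim.smul {m : ℕ} {φ : ℝ → ℝ} {a : ℝ} (ha : 0 ≤ a) (h : Lim (Rp m) φ) :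
    Lim (Rp m) (fun q => a * φ q) := by
  obtain ⟨f, C, B, hB, h1, h2, h3, h4⟩ := h
  refine ⟨fun N q => a * f N q, a * C, B, hB,
    fun N => ⟨ES.smul_mem a (h1 N).1, (h1 N).2.smul ha⟩,
    fun N => (h2 N).const_mul a, fun N q hq => ?_, fun q hq hqB => (h4 q hq hqB).const_mul a⟩
  rw [abs_mul, abs_of_nonneg ha]
  exact mul_le_mul_of_nonneg_left (h3 N q hq) ha

theorem Lim.const {m : ℕ} {a : ℝ} (ha : 0 ≤ a) : Lim (Rp m) (fun _ => a) := by
  refine ⟨fun _ _ => a, |a|, ∅, countable_empty, fun _ => ⟨?_, KM.const ha⟩,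
    fun _ => measurable_const, fun _ _ _ => le_rfl, fun _ _ _ => tendsto_const_nhds⟩
  have := ES.smul_mem a ES_one
  convert this using 1
  funext q; simp

theorem Lim.sum {m : ℕ} {ι : Type*} (s : Finset ι) {φ : ι → ℝ → ℝ}
    (h : ∀ i ∈ s, Lim (Rp m) (φ i)) : Lim (Rp m) (fun q => ∑ i ∈ s, φ i q) := by
  classical
  induction s using Finset.induction_on with
  | empty => simpa using Lim.const le_rfl
  | insert a s ha ih =>
    simp only [Finset.sum_insert ha]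
    exact (h a (Finset.mem_insert_self _ _)).add (ih fun i hi => h i (Finset.mem_insert_of_mem hi))

/-- Smooth step. -/
noncomputable def SS (a : ℝ) (b : ℕ) (q : ℝ) : ℝ := 1 - (1 - rexp (-(a * q))) ^ b

theorem y_mem {a q : ℝ} (ha : 0 ≤ a) (hq : 0 ≤ q) :
    0 ≤ 1 - rexp (-(a * q)) ∧ 1 - rexp (-(a * q)) ≤ 1 := by
  have h1 : rexp (-(a * q)) ≤ 1 := by rw [Real.exp_le_one_iff, neg_nonpos]; positivity
  have := Real.exp_pos (-(a * q))
  constructor <;> linarith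

theorem SS_mem {a : ℝ} (ha : 0 ≤ a) (b : ℕ) {q : ℝ} (hq : 0 ≤ q) : 0 ≤ SS a b q ∧ SS a b q ≤ 1 := by
  obtain ⟨h1, h2⟩ := y_mem ha hq
  have := pow_le_one₀ (n := b) h1 h2
  have := pow_nonneg h1 b
  unfold SS; constructor <;> linarith

theorem SS_le {a : ℝ} (ha : 0 ≤ a) (b : ℕ) {q : ℝ} (hq : 0 ≤ q) :
    SS a b q ≤ b * rexp (-(a * q)) := by
  obtain ⟨h1, h2⟩ := y_mem ha hq
  have := one_add_mul_le_pow (a := -rexp (-(a * q))) (by linarith) b
  unfold SS
  rw [← sub_eq_add_neg] at this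
  linarith

theorem SS_ES {a : ℝ} (ha : 0 ≤ a) (b : ℕ) : SS a b ∈ ES :=
  ES.sub_mem ES_one (ES_pow (ES.sub_mem ES_one (ES_exp ha)) b)

theorem SS_deriv (a : ℝ) (b : ℕ) (q : ℝ) : HasDerivAt (SS a b)
    (-(b * (1 - rexp (-(a * q))) ^ (b - 1) * (a * rexp (-(a * q))))) q := by
  have h := (((((hasDerivAt_id q).const_mul a).neg.exp).const_sub 1).fun_pow b).const_sub 1
  refine HasDerivAt.congr_deriv (f := SS a b) h ?_
  simp [mul_comm]

theorem SS_KM {a : ℝ} (ha : 0 ≤ a) (b : ℕ) : KM 1 (SS a b) :=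
  ⟨fun q hq => (SS_mem ha b hq).1, _, SS_deriv a b, fun q hq => by
    have := (y_mem ha hq).1
    positivity⟩

theorem SS_antitone {a : ℝ} (ha : 0 ≤ a) (b : ℕ) {q q' : ℝ} (hq : 0 ≤ q) (h : q ≤ q') :
    SS a b q' ≤ SS a b q := by
  unfold SS
  have h1 := (y_mem ha hq).1
  have : rexp (-(a * q')) ≤ rexp (-(a * q)) := by
    rw [Real.exp_le_exp, neg_le_neg_iff]; exact mul_le_mul_of_nonneg_left h ha
  have := pow_le_pow_left₀ h1 (show 1 - rexp (-(a * q)) ≤ 1 - rexp (-(a * q')) by linarith) b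
  linarith

noncomputable def bb (r : ℝ) (N : ℕ) : ℕ := ⌈rexp ((N + 1 : ℝ) * r)⌉₊

theorem tendsto_exp_neg {c : ℝ} (hc : 0 < c) :
    Tendsto (fun N : ℕ => rexp (-((N + 1 : ℝ) * c))) atTop (𝓝 0) := by
  refine Real.tendsto_exp_atBot.comp (tendsto_neg_atTop_atBot.comp ?_)
  exact (tendsto_atTop_add_const_right _ _ tendsto_natCast_atTop_atTop).atTop_mul_const hc

theorem SS_tendsto_zero {r q : ℝ} (hr : 0 ≤ r) (h : r < q) :
    Tendsto (fun N : ℕ => SS (N + 1) (bb r N) q) atTop (𝓝 0) := by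
  have hq : 0 ≤ q := hr.trans h.le
  have h1 := (tendsto_exp_neg (sub_pos.2 h)).add (tendsto_exp_neg (hr.trans_lt h))
  rw [add_zero] at h1
  refine squeeze_zero (fun N => (SS_mem (by positivity) _ hq).1) (fun N => ?_) h1
  refine (SS_le (by positivity) _ hq).trans ?_
  have h2 : (bb r N : ℝ) ≤ rexp ((N + 1 : ℝ) * r) + 1 := (Nat.ceil_lt_add_one (by positivity)).le
  refine (mul_le_mul_of_nonneg_right h2 (Real.exp_pos _).le).trans_eq ?_
  rw [add_mul, ← Real.exp_add, one_mul]; congr 2; ring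

theorem SS_tendsto_one {r q : ℝ} (hq : 0 ≤ q) (h : q < r) :
    Tendsto (fun N : ℕ => SS (N + 1) (bb r N) q) atTop (𝓝 1) := by
  have h0 : Tendsto (fun N : ℕ => rexp (-rexp ((N + 1 : ℝ) * (r - q)))) atTop (𝓝 0) := by
    refine Real.tendsto_exp_atBot.comp (tendsto_neg_atTop_atBot.comp
      (Real.tendsto_exp_atTop.comp ?_))
    exact (tendsto_atTop_add_const_right _ _ tendsto_natCast_atTop_atTop).atTop_mul_const
      (sub_pos.2 h)
  have h1 : Tendsto (fun N : ℕ => (1 - rexp (-((N + 1 : ℝ) * q))) ^ bb r N) atTop (𝓝 0) := by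
    refine squeeze_zero (fun N => pow_nonneg (y_mem (by positivity) hq).1 _) (fun N => ?_) h0
    have h2 : 1 - rexp (-((N + 1 : ℝ) * q)) ≤ rexp (-rexp (-((N + 1 : ℝ) * q))) :=
      Real.one_sub_le_exp_neg _
    refine (pow_le_pow_left₀ (y_mem (by positivity) hq).1 h2 _).trans ?_
    rw [← Real.exp_nat_mul, Real.exp_le_exp, mul_neg, neg_le_neg_iff]
    have h3 : rexp ((N + 1 : ℝ) * r) ≤ bb r N := Nat.le_ceil _
    refine le_trans (le_of_eq ?_) (mul_le_mul_of_nonneg_right h3 (Real.exp_pos _).le)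
    rw [← Real.exp_add]; congr 1; ring
  have := h1.const_sub 1
  rwa [sub_zero] at this

theorem Lim_step {r : ℝ} (hr : 0 ≤ r) : Lim (Rp 1) (fun q => if q < r then 1 else 0) := by
  refine ⟨fun N => SS (N + 1) (bb r N), 1, {r}, countable_singleton r,
    fun N => ⟨SS_ES (by positivity) _, SS_KM (by positivity) _⟩,
    fun N => ES_measurable (SS_ES (by positivity) _), fun N q hq => ?_, fun q hq hqr => ?_⟩
  · have := SS_mem (a := N + 1) (by positivity) (bb r N) hq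
    rw [abs_of_nonneg this.1]; exact this.2
  · beta_reduce
    split_ifs with h
    · exact SS_tendsto_one hq h
    · exact SS_tendsto_zero hr (lt_of_le_of_ne (not_lt.1 h) (Ne.symm hqr))

/-- Smooth ramp. -/
noncomputable def TT (a : ℝ) (b : ℕ) (q : ℝ) : ℝ :=
  ∑ i ∈ Finset.range b, (a * (i + 1))⁻¹ * SS a (i + 1) q

theorem TT_ES {a : ℝ} (ha : 0 ≤ a) (b : ℕ) : TT a b ∈ ES := by
  have := ES.sum_mem (t := Finset.range b) (f := fun i => (a * (i + 1))⁻¹ • SS a (i + 1))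
    fun i _ => ES.smul_mem _ (SS_ES ha _)
  convert this using 1
  funext q; simp [TT, Finset.sum_apply]

theorem TT_deriv {a : ℝ} (ha : 0 < a) (b : ℕ) (q : ℝ) : HasDerivAt (TT a b) (-SS a b q) q := by
  have h := HasDerivAt.fun_sum (u := Finset.range b)
    fun i _ => (SS_deriv a (i + 1) q).const_mul (a * (i + 1))⁻¹
  refine HasDerivAt.congr_deriv (f := TT a b) h ?_
  have := mul_geom_sum (1 - rexp (-(a * q))) b
  unfold SS
  rw [neg_sub, ← this, Finset.mul_sum]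
  refine Finset.sum_congr rfl fun i _ => ?_
  simp only [add_tsub_cancel_right]
  push_cast
  field_simp
  ring

theorem TT_nonneg {a : ℝ} (ha : 0 ≤ a) (b : ℕ) {q : ℝ} (hq : 0 ≤ q) : 0 ≤ TT a b q :=
  Finset.sum_nonneg fun i _ => mul_nonneg (by positivity) (SS_mem ha _ hq).1

theorem TT_KM {a : ℝ} (ha : 0 < a) (b : ℕ) : KM 2 (TT a b) :=
  ⟨fun _ hq => TT_nonneg ha.le b hq, _, TT_deriv ha b, SS_KM ha.le b⟩

theorem TT_le {a : ℝ} (ha : 0 < a) (b : ℕ) {q : ℝ} (hq : 0 ≤ q) :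
    TT a b q ≤ b * rexp (-(a * q)) / a := by
  calc TT a b q ≤ ∑ i ∈ Finset.range b, rexp (-(a * q)) / a := by
        refine Finset.sum_le_sum fun i _ => ?_
        have := SS_le ha.le (i + 1) hq
        refine (mul_le_mul_of_nonneg_left this (by positivity)).trans_eq ?_
        push_cast; field_simp
    _ = _ := by simp; ring

theorem TT_sub {a : ℝ} (ha : 0 < a) (b : ℕ) {q q' : ℝ} (hq : 0 ≤ q) (h : q ≤ q') :
    SS a b q' * (q' - q) ≤ TT a b q - TT a b q' ∧ TT a b q - TT a b q' ≤ q' - q := by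
  rcases h.eq_or_lt with rfl | h
  · simp
  obtain ⟨x, hx, hx'⟩ := exists_hasDerivAt_eq_slope (TT a b) (fun q => -SS a b q) h
    (fun x _ => (TT_deriv ha b x).continuousAt.continuousWithinAt) fun x _ => TT_deriv ha b x
  have e : TT a b q - TT a b q' = SS a b x * (q' - q) := by
    rw [eq_div_iff (sub_pos.2 h).ne'] at hx'; linarith
  have hx0 : 0 ≤ x := hq.trans hx.1.le
  have h1 := SS_antitone ha.le b hx0 hx.2.le
  have h2 := (SS_mem ha.le b hx0).2
  rw [e]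
  constructor <;> nlinarith

theorem TT_at {r : ℝ} (hr : 0 ≤ r) (N : ℕ) : TT (N + 1) (bb r N) r ≤ 2 / (N + 1) := by
  refine (TT_le (by positivity) _ hr).trans (div_le_div_of_nonneg_right ?_ (by positivity))
  have h2 : (bb r N : ℝ) ≤ rexp ((N + 1 : ℝ) * r) + 1 := (Nat.ceil_lt_add_one (by positivity)).le
  refine (mul_le_mul_of_nonneg_right h2 (Real.exp_pos _).le).trans ?_
  rw [add_mul, ← Real.exp_add, one_mul, add_neg_cancel, Real.exp_zero]
  have : rexp (-((N + 1 : ℝ) * r)) ≤ 1 := by rw [Real.exp_le_one_iff, neg_nonpos]; positivity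
  linarith

theorem TT_upper {r : ℝ} (hr : 0 ≤ r) (N : ℕ) {q : ℝ} (hq : 0 ≤ q) :
    TT (N + 1) (bb r N) q ≤ max (r - q) 0 + 2 / (N + 1) := by
  have h0 := TT_at hr N
  rcases le_total q r with h | h
  · have := (TT_sub (a := N + 1) (by positivity) (bb r N) hq h).2
    have := le_max_left (r - q) 0
    linarith
  · have h1 := (TT_sub (a := N + 1) (by positivity) (bb r N) hr h).1
    have h2 := (SS_mem (a := N + 1) (by positivity) (bb r N) hq).1
    have := le_max_right (r - q) 0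
    have := mul_nonneg h2 (sub_nonneg.2 h)
    linarith

theorem Lim_ramp {r : ℝ} (hr : 0 ≤ r) : Lim (Rp 2) (fun q => max (r - q) 0) := by
  refine ⟨fun N => TT (N + 1) (bb r N), r + 2, ∅, countable_empty,
    fun N => ⟨TT_ES (by positivity) _, TT_KM (by positivity) _⟩,
    fun N => ES_measurable (TT_ES (by positivity) _), fun N q hq => ?_, fun q hq _ => ?_⟩
  · rw [abs_of_nonneg (TT_nonneg (by positivity) _ hq)]
    refine (TT_upper hr N hq).trans (add_le_add (max_le (by linarith) hr) ?_)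
    rw [div_le_iff₀ (by positivity)]
    have : (0 : ℝ) ≤ N := Nat.cast_nonneg N
    linarith
  · have h2 : Tendsto (fun N : ℕ => max (r - q) 0 + 2 / ((N : ℝ) + 1)) atTop
        (𝓝 (max (r - q) 0 + 0)) := by
      refine tendsto_const_nhds.add ?_
      exact tendsto_const_nhds.div_atTop
        (tendsto_atTop_add_const_right _ _ tendsto_natCast_atTop_atTop)
    rw [add_zero] at h2
    rw [tendsto_order]
    constructor
    · intro x hx
      rcases lt_or_ge x 0 with h0 | h0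
      · exact Eventually.of_forall fun N => h0.trans_le (TT_nonneg (by positivity) _ hq)
      have hx' : x < r - q := by
        rcases lt_max_iff.1 hx with h | h
        · exact h
        · linarith
      obtain ⟨q', h1, h3⟩ := exists_between (show q + x < r by linarith)
      have h4 := (SS_tendsto_one (hq.trans (by linarith)) h3).mul_const (q' - q)
      rw [one_mul] at h4
      filter_upwards [(tendsto_order.1 h4).1 x (by linarith)] with N hN
      have h5 := (TT_sub (a := N + 1) (by positivity) (bb r N) hq (show q ≤ q' by linarith)).1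
      have h6 := TT_nonneg (a := N + 1) (by positivity) (bb r N) (show 0 ≤ q' by linarith)
      linarith
    · intro x hx
      filter_upwards [(tendsto_order.1 h2).2 x hx] with N hN
      exact (TT_upper hr N hq).trans_lt hN

end Pool.Agent.MP_bcd61f_mp

end MrgPart2

-- ======== part 3: formerly Pool.Agent.MP_bcd61f_mp.Stair
section MrgPart3

set_option autoImplicit false
set_option maxSynthPendingDepth 3

open MeasureTheory Real Filter Topology Set

namespace Pool.Agent.MP_bcd61f_mp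

theorem stair_bounds {ψ : ℝ → ℝ} (hψ : Antitone ψ) {h : ℝ} (hh : 0 < h) (L : ℕ) (w : ℕ → ℝ)
    {q : ℝ} (hq : 0 ≤ q) (hL : q < L * h) (hw0 : ∀ i, 0 ≤ w i) (hw1 : ∀ i, w i ≤ 1)
    (hw2 : ∀ i : ℕ, q ≤ i * h → w i = 1) (hw3 : ∀ i : ℕ, (i + 1 : ℝ) * h ≤ q → w i = 0) :
    ψ (q + h) ≤ ψ (L * h) + ∑ i ∈ Finset.range L, (ψ (i * h) - ψ ((i + 1 : ℝ) * h)) * w i ∧
    ψ (L * h) + ∑ i ∈ Finset.range L, (ψ (i * h) - ψ ((i + 1 : ℝ) * h)) * w i ≤ ψ (q - h) := by
  set k := ⌊q / h⌋₊ with hk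
  have hk1 : (k : ℝ) * h ≤ q := by
    rw [← le_div_iff₀ hh]; exact Nat.floor_le (div_nonneg hq hh.le)
  have hk2 : q < (k + 1 : ℝ) * h := by
    rw [← div_lt_iff₀ hh]; exact Nat.lt_floor_add_one _
  have hkL : k < L := by
    have : (k : ℝ) * h < L * h := hk1.trans_lt hL
    exact_mod_cast lt_of_mul_lt_mul_right this hh.le
  have key : ∀ M : ℕ, k + 1 ≤ M → ψ (M * h) +
      ∑ i ∈ Finset.range M, (ψ (i * h) - ψ ((i + 1 : ℝ) * h)) * w i =
      ψ ((k + 1 : ℝ) * h) + (ψ (k * h) - ψ ((k + 1 : ℝ) * h)) * w k := by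
    intro M hM
    induction M, hM using Nat.le_induction with
    | base =>
      rw [Finset.sum_range_succ, Finset.sum_eq_zero, zero_add]
      · push_cast; rfl
      · intro i hi
        rw [hw3 i, mul_zero]
        have : (i + 1 : ℝ) ≤ k := by exact_mod_cast Finset.mem_range.1 hi
        exact (mul_le_mul_of_nonneg_right this hh.le).trans hk1
    | succ M hM ih =>
      rw [Finset.sum_range_succ, hw2 M, ← ih]
      · push_cast; ring
      · have : (k + 1 : ℝ) ≤ M := by exact_mod_cast hM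
        exact hk2.le.trans (mul_le_mul_of_nonneg_right this hh.le)
  rw [key L hkL]
  have h1 : ψ ((k + 1 : ℝ) * h) ≤ ψ (k * h) := hψ (by nlinarith)
  have h2 : ψ (q + h) ≤ ψ ((k + 1 : ℝ) * h) := hψ (by nlinarith)
  have h3 : ψ (k * h) ≤ ψ (q - h) := hψ (by nlinarith)
  have := hw0 k
  have := hw1 k
  constructor <;> nlinarith

theorem stair_le {ψ : ℝ → ℝ} (hψ : Antitone ψ) (h0 : ∀ q, 0 ≤ ψ q) {h : ℝ} (hh : 0 < h) (L : ℕ)
    (w : ℕ → ℝ) (hw0 : ∀ i, 0 ≤ w i) (hw1 : ∀ i, w i ≤ 1) :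
    |ψ (L * h) + ∑ i ∈ Finset.range L, (ψ (i * h) - ψ ((i + 1 : ℝ) * h)) * w i| ≤ ψ 0 := by
  have h1 : ∀ i : ℕ, 0 ≤ ψ (i * h) - ψ ((i + 1 : ℝ) * h) := fun i =>
    sub_nonneg.2 (hψ (by nlinarith))
  rw [abs_of_nonneg (add_nonneg (h0 _) (Finset.sum_nonneg fun i _ => mul_nonneg (h1 i) (hw0 i)))]
  have h2 : ∑ i ∈ Finset.range L, (ψ (i * h) - ψ ((i + 1 : ℝ) * h)) * w i ≤
      ∑ i ∈ Finset.range L, (ψ (i * h) - ψ ((i + 1 : ℝ) * h)) :=
    Finset.sum_le_sum fun i _ => mul_le_of_le_one_right (h1 i) (hw1 i)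
  have h3 := Finset.sum_range_sub' (fun i : ℕ => ψ (i * h)) L
  push_cast at h3
  rw [zero_mul] at h3
  linarith

theorem Lim_stair {A : (ℝ → ℝ) → Prop} {ψ : ℝ → ℝ} (hψ : Antitone ψ) (h0 : ∀ q, 0 ≤ ψ q)
    (w : ℝ → ℕ → ℝ → ℝ) (hw0 : ∀ h, 0 < h → ∀ i q, 0 ≤ w h i q)
    (hw1 : ∀ h, 0 < h → ∀ i q, w h i q ≤ 1)
    (hw2 : ∀ h : ℝ, 0 < h → ∀ (i : ℕ) (q : ℝ), q ≤ i * h → w h i q = 1)
    (hw3 : ∀ h : ℝ, 0 < h → ∀ (i : ℕ) (q : ℝ), (i + 1 : ℝ) * h ≤ q → w h i q = 0)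
    (σ : ℝ → ℕ → ℝ → ℝ) (hσ : ∀ h, 0 < h → ∀ L, A (σ h L) ∧ Measurable (σ h L) ∧ ∀ q, 0 ≤ q →
      σ h L q = ψ (L * h) + ∑ i ∈ Finset.range L, (ψ (i * h) - ψ ((i + 1 : ℝ) * h)) * w h i q) :
    Lim A ψ := by
  have hp : ∀ N : ℕ, (0 : ℝ) < 1 / (N + 1) := fun N => by positivity
  refine ⟨fun N => σ (1 / (N + 1)) ((N + 1) ^ 2), ψ 0, {q | ¬ ContinuousAt ψ q},
    hψ.countable_not_continuousAt, fun N => (hσ _ (hp N) _).1, fun N => (hσ _ (hp N) _).2.1,
    fun N q hq => ?_, fun q hq hc => ?_⟩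
  · beta_reduce
    rw [(hσ _ (hp N) _).2.2 q hq]
    exact stair_le hψ h0 (hp N) _ _ (fun i => hw0 _ (hp N) i q) (fun i => hw1 _ (hp N) i q)
  · have hc' : ContinuousAt ψ q := not_not.1 hc
    have h1 : Tendsto (fun N : ℕ => (1 : ℝ) / (N + 1)) atTop (𝓝 0) :=
      tendsto_one_div_add_atTop_nhds_zero_nat
    have h2 : Tendsto (fun N : ℕ => ψ (q + 1 / (N + 1))) atTop (𝓝 (ψ q)) :=
      hc'.tendsto.comp (by simpa using h1.const_add q)
    have h3 : Tendsto (fun N : ℕ => ψ (q - 1 / (N + 1))) atTop (𝓝 (ψ q)) :=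
      hc'.tendsto.comp (by simpa using h1.const_sub q)
    have h4 : ∀ᶠ N : ℕ in atTop, q < (((N + 1) ^ 2 : ℕ) : ℝ) * (1 / (N + 1)) := by
      filter_upwards [tendsto_natCast_atTop_atTop.eventually_gt_atTop q] with N hN
      have : (((N + 1) ^ 2 : ℕ) : ℝ) * (1 / (N + 1)) = N + 1 := by push_cast; field_simp
      rw [this]; linarith
    refine tendsto_of_tendsto_of_tendsto_of_le_of_le' h2 h3 ?_ ?_
    · filter_upwards [h4] with N hN
      rw [(hσ _ (hp N) _).2.2 q hq]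
      exact (stair_bounds hψ (hp N) _ _ hq hN (fun i => hw0 _ (hp N) i q)
        (fun i => hw1 _ (hp N) i q) (fun i => hw2 _ (hp N) i q) (fun i => hw3 _ (hp N) i q)).1
    · filter_upwards [h4] with N hN
      rw [(hσ _ (hp N) _).2.2 q hq]
      exact (stair_bounds hψ (hp N) _ _ hq hN (fun i => hw0 _ (hp N) i q)
        (fun i => hw1 _ (hp N) i q) (fun i => hw2 _ (hp N) i q) (fun i => hw3 _ (hp N) i q)).2

theorem Lim_antitone {ψ : ℝ → ℝ} (hψ : Antitone ψ) (h0 : ∀ q, 0 ≤ ψ q) : Lim (Lim (Rp 1)) ψ := by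
  refine Lim_stair hψ h0 (fun h i q => if q < (i + 1 : ℝ) * h then 1 else 0) ?_ ?_ ?_ ?_
    (fun h L q => ψ (L * h) + ∑ i ∈ Finset.range L, (ψ (i * h) - ψ ((i + 1 : ℝ) * h)) *
      if q < (i + 1 : ℝ) * h then 1 else 0) fun h hh L => ⟨?_, ?_, fun _ _ => rfl⟩
  · intro h _ i q; split_ifs <;> norm_num
  · intro h _ i q; split_ifs <;> norm_num
  · intro h hh i q hq; rw [if_pos (by linarith)]
  · intro h hh i q hq; rw [if_neg (by linarith)]
  · refine (Lim.const (h0 _)).add (Lim.sum _ fun i _ => (Lim_step (by positivity)).smul ?_)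
    exact sub_nonneg.2 (hψ (by nlinarith))
  · refine measurable_const.add (Finset.measurable_sum _ fun i _ => Measurable.const_mul ?_ _)
    exact Measurable.ite measurableSet_Iio measurable_const measurable_const

theorem abel_sum (s R : ℕ → ℝ) (L : ℕ) : ∑ i ∈ Finset.range L, s i * (R (i + 1) - R i) =
    ∑ i ∈ Finset.range L, (s i - s (i + 1)) * R (i + 1) + s L * R L - s 0 * R 0 := by
  induction L with
  | zero => simp
  | succ L ih => rw [Finset.sum_range_succ, Finset.sum_range_succ, ih]; ring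

theorem Lim_convex {ψ : ℝ → ℝ} (hψ : Antitone ψ) (h0 : ∀ q, 0 ≤ ψ q)
    (hc : ConvexOn ℝ (Ici 0) ψ) : Lim (Lim (Rp 2)) ψ := by
  let s : ℝ → ℕ → ℝ := fun h i => (ψ (i * h) - ψ ((i + 1 : ℝ) * h)) / h
  refine Lim_stair hψ h0
    (fun h i q => (max ((i + 1 : ℝ) * h - q) 0 - max (i * h - q) 0) / h) ?_ ?_ ?_ ?_
    (fun h L q => ψ (L * h) + (∑ i ∈ Finset.range L, (s h i - s h (i + 1)) *
      max ((i + 1 : ℝ) * h - q) 0 + s h L * max (L * h - q) 0)) fun h hh L => ⟨?_, ?_, ?_⟩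
  · intro h hh i q
    exact div_nonneg (sub_nonneg.2 (max_le_max (by nlinarith) le_rfl)) hh.le
  · intro h hh i q
    rw [div_le_one hh]
    have h1 := le_max_left (i * h - q) 0
    have h2 := le_max_right (i * h - q) 0
    have : max ((i + 1 : ℝ) * h - q) 0 ≤ h + max (i * h - q) 0 := max_le (by linarith) (by linarith)
    linarith
  · intro h hh i q hq
    rw [max_eq_left (by linarith), max_eq_left (by linarith)]
    field_simp; ring
  · intro h hh i q hq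
    rw [max_eq_right (by linarith), max_eq_right (by linarith)]
    simp
  · refine (Lim.const (h0 _)).add ((Lim.sum _ fun i _ => (Lim_ramp (by positivity)).smul ?_).add
      ((Lim_ramp (by positivity)).smul ?_))
    · have := hc.2 (show (0 : ℝ) ≤ i * h by positivity)
        (show (0 : ℝ) ≤ (i + 1 + 1 : ℝ) * h by positivity) (show (0 : ℝ) ≤ 1 / 2 by norm_num)
        (show (0 : ℝ) ≤ 1 / 2 by norm_num) (by norm_num)
      simp only [smul_eq_mul] at this
      rw [show 1 / 2 * (i * h) + 1 / 2 * ((i + 1 + 1 : ℝ) * h) = (i + 1 : ℝ) * h by ring] at this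
      simp only [s]
      push_cast
      rw [← sub_div]
      exact div_nonneg (by linarith) hh.le
    · exact div_nonneg (sub_nonneg.2 (hψ (by nlinarith))) hh.le
  · fun_prop
  · intro q hq
    have := abel_sum (s h) (fun i => max (i * h - q) 0) L
    push_cast at this
    rw [zero_mul, max_eq_right (by linarith : 0 - q ≤ 0), mul_zero, sub_zero] at this
    rw [← this]
    congr 1
    refine Finset.sum_congr rfl fun i _ => ?_
    simp only [s]; ring

variable {J : Type} [Fintype J] [Nonempty J]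
variable {V : Type*} [NormedAddCommGroup V] [InnerProductSpace ℝ V] [FiniteDimensional ℝ V]
  [MeasurableSpace V] [BorelSpace V] [Nontrivial V]
variable {W : Type*} [NormedAddCommGroup W] [InnerProductSpace ℝ W]
    [FiniteDimensional ℝ W] [MeasurableSpace W] [BorelSpace W]

theorem CI_antitone {κ : ℝ} (hκ : 0 < κ) (hδ : hd W = hd V + 1) {c c' : J → V} (hp : Path W c c')
    (ψ : ℕ → J → ℝ → ℝ) (hψ : ∀ n j, Antitone (ψ n j)) (h0 : ∀ n j q, 0 ≤ ψ n j q) :
    CI κ c c' ψ :=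
  CI_of_Lim hκ (CI_of_Lim hκ fun ψ hψ => CI_of_Rep (m := 0) hκ (by simpa using hδ) hp ψ
    fun n j => (hψ n j).rep) ψ fun n j => Lim_antitone (hψ n j) (h0 n j)

theorem CI_convex {κ : ℝ} (hκ : 0 < κ) (hδ : hd W = hd V + 2) {c c' : J → V} (hp : Path W c c')
    (ψ : ℕ → J → ℝ → ℝ) (hψ : ∀ n j, Antitone (ψ n j)) (h0 : ∀ n j q, 0 ≤ ψ n j q)
    (hc : ∀ n j, ConvexOn ℝ (Ici 0) (ψ n j)) : CI κ c c' ψ :=
  CI_of_Lim hκ (CI_of_Lim hκ fun ψ hψ => CI_of_Rep (m := 1) hκ (by rw [hδ]; norm_num) hp ψ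
    fun n j => (hψ n j).rep) ψ fun n j => Lim_convex (hψ n j) (h0 n j) (hc n j)

end Pool.Agent.MP_bcd61f_mp

end MrgPart3

-- ======== part 4: formerly Pool.Agent.MP_bcd61f_mp.Final
section MrgPart4

set_option autoImplicit false
set_option maxSynthPendingDepth 3

open MeasureTheory Real Filter Topology Set

namespace Pool.Agent.MP_bcd61f_mp

variable {V : Type*} [NormedAddCommGroup V] [InnerProductSpace ℝ V] [FiniteDimensional ℝ V]
  [MeasurableSpace V] [BorelSpace V]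
variable {J : Type} [Fintype J]

noncomputable def sh (u : ℝ → ℝ) (δ q : ℝ) : ℝ := u (max q 0 + δ)

noncomputable def ut (u : ℝ → ℝ) (δ q : ℝ) : ℝ := sh u δ q - δ * max q 0

theorem sh_antitone {u : ℝ → ℝ} (hu : AntitoneOn u (Ioi 0)) {δ : ℝ} (hδ : 0 < δ) :
    Antitone (sh u δ) := fun q q' h =>
  hu (show 0 < max q 0 + δ by positivity) (show 0 < max q' 0 + δ by positivity)
    (by have := max_le_max h (le_refl (0 : ℝ)); linarith)

theorem ut_antitone {u : ℝ → ℝ} (hu : AntitoneOn u (Ioi 0)) {δ : ℝ} (hδ : 0 < δ) :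
    Antitone (ut u δ) := fun q q' h => by
  have h1 := sh_antitone hu hδ h
  have h2 := mul_le_mul_of_nonneg_left (max_le_max h (le_refl (0 : ℝ))) hδ.le
  unfold ut; linarith

noncomputable def prof (u : J → ℝ → ℝ) (δ τ : ℝ) (n : ℕ) (j : J) (q : ℝ) : ℝ :=
  if Even n then rexp (τ * ut (u j) δ q) else 1

omit [MeasurableSpace V] [BorelSpace V] [InnerProductSpace ℝ V] [FiniteDimensional ℝ V] in
theorem exists_radius {φ : V → ℝ} (hc : HasCompactSupport φ) :
    ∃ ρ : ℝ, ∀ x, φ x ≠ 0 → ‖x‖ ≤ ρ := by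
  obtain ⟨ρ, hρ⟩ := hc.isCompact.isBounded.exists_norm_le
  exact ⟨ρ, fun x hx => hρ x (subset_tsupport _ hx)⟩

theorem pot_integrable {u : ℝ → ℝ} (hloc : LocallyIntegrable (fun x : V => u (‖x‖ ^ 2)))
    (z : V) {φ : V → ℝ} (hφ : Continuous φ) (hc : HasCompactSupport φ) :
    Integrable (fun x => u (‖x - z‖ ^ 2) * φ x ^ 2) := by
  have h1 : HasCompactSupport (fun x => φ (x + z) ^ 2) :=
    (hc.comp_homeomorph (Homeomorph.addRight z)).comp_left (g := fun t : ℝ => t ^ 2) (by simp)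
  have h2 := (hloc.integrable_smul_right_of_hasCompactSupport (by fun_prop) h1).comp_sub_right z
  simpa using h2

theorem bdd_pot_integrable {g : ℝ → ℝ} (hg : Antitone g) (z : V) {φ : V → ℝ} (hφ : Continuous φ)
    (hc : HasCompactSupport φ) : Integrable (fun x => g (‖x - z‖ ^ 2) * φ x ^ 2) := by
  obtain ⟨ρ, hρ⟩ := exists_radius hc
  have i2 : Integrable (fun x => φ x ^ 2) :=
    Continuous.integrable_of_hasCompactSupport (by fun_prop)
      (hc.comp_left (g := fun t : ℝ => t ^ 2) (by simp))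
  refine Integrable.mono' (i2.const_mul (|g 0| + |g ((ρ + ‖z‖) ^ 2)|))
    ((hg.measurable.comp (by fun_prop)).mul (hφ.measurable.pow_const 2)).aestronglyMeasurable
    (Eventually.of_forall fun x => ?_)
  by_cases hx : φ x = 0
  · simp [hx]
  · rw [norm_mul, Real.norm_of_nonneg (sq_nonneg (φ x))]
    refine mul_le_mul_of_nonneg_right ?_ (sq_nonneg _)
    have h1 : g (‖x - z‖ ^ 2) ≤ g 0 := hg (sq_nonneg _)
    have h2 : g ((ρ + ‖z‖) ^ 2) ≤ g (‖x - z‖ ^ 2) :=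
      hg (pow_le_pow_left₀ (norm_nonneg _) ((norm_sub_le _ _).trans (by linarith [hρ x hx])) 2)
    rw [Real.norm_eq_abs, abs_le]
    constructor
    · linarith [neg_abs_le (g ((ρ + ‖z‖) ^ 2)), abs_nonneg (g 0)]
    · linarith [le_abs_self (g 0), abs_nonneg (g ((ρ + ‖z‖) ^ 2))]

theorem pot_tendsto [Nontrivial V] {u : ℝ → ℝ} (hu : AntitoneOn u (Ioi 0))
    (hloc : LocallyIntegrable (fun x : V => u (‖x‖ ^ 2))) (z : V) {φ : V → ℝ} (hφ : Continuous φ)
    (hc : HasCompactSupport φ) :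
    Tendsto (fun n : ℕ => ∫ x, ut u (1 / (n + 1)) (‖x - z‖ ^ 2) * φ x ^ 2) atTop
      (𝓝 (∫ x, u (‖x - z‖ ^ 2) * φ x ^ 2)) := by
  obtain ⟨ρ, hρ⟩ := exists_radius hc
  have hp : ∀ n : ℕ, (0 : ℝ) < 1 / (n + 1) := fun n => by positivity
  have hp1 : ∀ n : ℕ, (1 : ℝ) / (n + 1) ≤ 1 := fun n => by
    rw [div_le_one (by positivity)]; linarith [Nat.cast_nonneg (α := ℝ) n]
  have i2 : Integrable (fun x => φ x ^ 2) :=
    Continuous.integrable_of_hasCompactSupport (by fun_prop)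
      (hc.comp_left (g := fun t : ℝ => t ^ 2) (by simp))
  have hae := ae_normsq_notMem z (hu.countable_not_continuousWithinAt.insert 0)
  set R := (ρ + ‖z‖) ^ 2 with hR
  refine tendsto_integral_of_dominated_convergence
    (fun x => ‖u (‖x - z‖ ^ 2) * φ x ^ 2‖ + (|u (R + 1)| + R) * φ x ^ 2)
    (fun n => (bdd_pot_integrable (ut_antitone hu (hp n)) z hφ hc).1)
    ((pot_integrable hloc z hφ hc).norm.add (i2.const_mul _)) (fun n => ?_) ?_
  · filter_upwards [hae] with x hx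
    by_cases hx0 : φ x = 0
    · simp [hx0]
    rw [mem_insert_iff, not_or] at hx
    set q := ‖x - z‖ ^ 2 with hq
    have hq0 : 0 < q := lt_of_le_of_ne (sq_nonneg _) (Ne.symm hx.1)
    have hqR : q ≤ R :=
      pow_le_pow_left₀ (norm_nonneg _) ((norm_sub_le _ _).trans (by linarith [hρ x hx0])) 2
    rw [norm_mul, norm_mul, Real.norm_of_nonneg (sq_nonneg (φ x)), ← add_mul]
    refine mul_le_mul_of_nonneg_right ?_ (sq_nonneg _)
    have := hp n
    have := hp1 n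
    have h1 : u (q + 1 / (n + 1)) ≤ u q := hu hq0 (show 0 < q + 1 / (n + 1) by linarith)
      (by linarith)
    have h2 : u (R + 1) ≤ u (q + 1 / (n + 1)) := hu (show 0 < q + 1 / (n + 1) by linarith)
      (show 0 < R + 1 by linarith) (by linarith)
    have h3 : 1 / (n + 1) * q ≤ R := by nlinarith
    have h4 : 0 ≤ 1 / (n + 1) * q := by positivity
    simp only [ut, sh, max_eq_left hq0.le, Real.norm_eq_abs]
    rw [abs_le]
    constructor
    · linarith [neg_abs_le (u (R + 1)), abs_nonneg (u q)]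
    · linarith [le_abs_self (u q), abs_nonneg (u (R + 1))]
  · filter_upwards [hae] with x hx
    rw [mem_insert_iff, not_or] at hx
    set q := ‖x - z‖ ^ 2 with hq
    have hq0 : 0 < q := lt_of_le_of_ne (sq_nonneg _) (Ne.symm hx.1)
    have hcw : ContinuousWithinAt u (Ioi 0) q := by
      by_contra h
      exact hx.2 ⟨hq0, h⟩
    have hca : ContinuousAt u q := hcw.continuousAt (Ioi_mem_nhds hq0)
    have h1 : Tendsto (fun N : ℕ => (1 : ℝ) / (N + 1)) atTop (𝓝 0) :=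
      tendsto_one_div_add_atTop_nhds_zero_nat
    have h2 : Tendsto (fun N : ℕ => u (q + 1 / (N + 1))) atTop (𝓝 (u q)) :=
      hca.tendsto.comp (by simpa using h1.const_add q)
    have h3 := (h2.sub (h1.mul_const q)).mul_const (φ x ^ 2)
    simp only [zero_mul, sub_zero] at h3
    simpa only [ut, sh, max_eq_left hq0.le] using h3

theorem energy_mono [Nonempty J] [Nontrivial V] (u : J → ℝ → ℝ)
    (hu : ∀ j, AntitoneOn (u j) (Ioi 0))
    (hloc : ∀ j, LocallyIntegrable (fun x : V => u j (‖x‖ ^ 2))) (c c' : J → V)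
    (hCI : ∀ δ τ : ℝ, 0 < δ → 0 < τ → CI (1 / (2 * τ)) c c' (prof u δ τ))
    {φ' : V → ℝ} (hφ' : Trial φ') {E : ℝ}
    (hE : En (fun x => ∑ j, u j (‖x - c' j‖ ^ 2)) φ' < E) :
    ∃ φ : V → ℝ, Trial φ ∧ En (fun x => ∑ j, u j (‖x - c j‖ ^ 2)) φ ≤ E := by
  have hp : ∀ n : ℕ, (0 : ℝ) < 1 / (n + 1) := fun n => by positivity
  have hφc := hφ'.1.continuous
  have t1 : Tendsto (fun n : ℕ => En (fun x => ∑ j, ut (u j) (1 / (n + 1)) (‖x - c' j‖ ^ 2)) φ')
      atTop (𝓝 (En (fun x => ∑ j, u j (‖x - c' j‖ ^ 2)) φ')) := by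
    unfold En
    refine Tendsto.const_sub _ ?_
    simp_rw [Finset.sum_mul]
    rw [integral_finsetSum _ fun j _ => pot_integrable (hloc j) (c' j) hφc hφ'.2.1]
    refine (tendsto_finsetSum _ fun j _ => pot_tendsto (hu j) (hloc j) (c' j) hφc hφ'.2.1).congr
      fun n => ?_
    rw [integral_finsetSum _ fun j _ =>
      bdd_pot_integrable (ut_antitone (hu j) (hp n)) (c' j) hφc hφ'.2.1]
  obtain ⟨n, hn⟩ := (t1.eventually_lt tendsto_const_nhds hE).exists
  set δ : ℝ := 1 / (n + 1) with hδdef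
  have hδ : 0 < δ := hp n
  obtain ⟨j0⟩ := ‹Nonempty J›
  obtain ⟨ρ', hρ'⟩ := exists_radius hφ'.2.1
  have hUm : ∀ c : J → V, Measurable (fun x => ∑ j, ut (u j) δ (‖x - c j‖ ^ 2)) := fun c =>
    Finset.measurable_sum _ fun j _ => (ut_antitone (hu j) hδ).measurable.comp (by fun_prop)
  have hsh : ∀ j q, 0 ≤ q → sh (u j) δ q ≤ sh (u j) (δ / 2) 0 := by
    intro j q hq
    simp only [sh, max_eq_left hq, max_self]
    exact hu j (show 0 < 0 + δ / 2 by linarith) (show 0 < q + δ by linarith) (by linarith)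
  have hU : ∀ (c : J → V) x, δ * ‖x - c j0‖ ^ 2 ≤
      ∑ j, sh (u j) (δ / 2) 0 - ∑ j, ut (u j) δ (‖x - c j‖ ^ 2) := by
    intro c x
    rw [← Finset.sum_sub_distrib]
    have h1 : ∀ j, δ * ‖x - c j‖ ^ 2 ≤ sh (u j) (δ / 2) 0 - ut (u j) δ (‖x - c j‖ ^ 2) := by
      intro j
      have := hsh j _ (sq_nonneg ‖x - c j‖)
      simp only [ut, max_eq_left (sq_nonneg ‖x - c j‖)]
      linarith
    exact (h1 j0).trans (Finset.single_le_sum (f := fun j => sh (u j) (δ / 2) 0 -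
      ut (u j) δ (‖x - c j‖ ^ 2)) (fun j _ => le_trans (by positivity) (h1 j)) (Finset.mem_univ _))
  have hUM : ∀ (c : J → V) x, ∑ j, ut (u j) δ (‖x - c j‖ ^ 2) ≤ ∑ j, sh (u j) (δ / 2) 0 := by
    intro c x
    have := hU c x
    have : 0 ≤ δ * ‖x - c j0‖ ^ 2 := by positivity
    linarith
  have hX : ∀ (c : J → V) (τ : ℝ), 0 < τ → ∀ k,
      ∫ x, msg (1 / (2 * τ)) (site c (prof u δ τ)) (m0 c) (2 * k + 1) x =
      ∫ x, rexp (τ * (∑ j, ut (u j) δ (‖x - c j‖ ^ 2)) / 2) * XX (1 / (2 * τ))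
        (fun x => rexp (τ * (∑ j, ut (u j) δ (‖x - c j‖ ^ 2)) / 2))
        (fun y => rexp (τ * (∑ j, ut (u j) δ (‖y - c j‖ ^ 2)) / 2) * m0 c y) k x := by
    intro c τ hτ k
    refine msg_XX (by positivity) (wt_exp (hUm c) hτ (hUM c)) (m0_nice c) _ (fun k y => ?_)
      (fun k y => ?_) k
    · simp only [site, prof, even_two_mul, if_true]
      rw [← Real.exp_add, ← Real.exp_sum, ← Finset.mul_sum]; congr 1; ring
    · simp [site, prof]
  have hsq : ∀ (j : J) x, φ' x ≠ 0 → ‖x - c' j‖ ^ 2 ≤ (ρ' + ‖c' j‖) ^ 2 := fun j x hx =>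
    pow_le_pow_left₀ (norm_nonneg _) ((norm_sub_le _ _).trans (by linarith [hρ' x hx])) 2
  suffices key : ∃ φ : V → ℝ, Trial φ ∧
      En (fun x => ∑ j, sh (u j) (δ / 2) (‖x - c j‖ ^ 2)) φ ≤ E by
    obtain ⟨φ, hφ, hφE⟩ := key
    refine ⟨φ, hφ, le_trans ?_ hφE⟩
    unfold En
    refine sub_le_sub_left ?_ _
    simp_rw [Finset.sum_mul]
    rw [integral_finsetSum _ fun j _ => pot_integrable (hloc j) (c j) hφ.1.continuous hφ.2.1,
      integral_finsetSum _ fun j _ =>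
      bdd_pot_integrable (sh_antitone (hu j) (half_pos hδ)) (c j) hφ.1.continuous hφ.2.1]
    refine Finset.sum_le_sum fun j _ => integral_mono_ae
      (bdd_pot_integrable (sh_antitone (hu j) (half_pos hδ)) (c j) hφ.1.continuous hφ.2.1)
      (pot_integrable (hloc j) (c j) hφ.1.continuous hφ.2.1) ?_
    filter_upwards [ae_normsq_notMem (c j) (countable_singleton 0)] with x hx
    have hq0 : 0 < ‖x - c j‖ ^ 2 := lt_of_le_of_ne (sq_nonneg _) (Ne.symm hx)
    refine mul_le_mul_of_nonneg_right ?_ (sq_nonneg _)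
    simp only [sh, max_eq_left hq0.le]
    exact hu j hq0 (show 0 < ‖x - c j‖ ^ 2 + δ / 2 by linarith) (by linarith)
  refine transfer (W := fun x => ∑ j, sh (u j) (δ / 2) (‖x - c j‖ ^ 2))
    (hUm c) hδ (hU c)
    (Finset.measurable_sum _ fun j _ =>
      (sh_antitone (hu j) (half_pos hδ)).measurable.comp (by fun_prop))
    (fun x => Finset.sum_le_sum fun j _ => sh_antitone (hu j) (half_pos hδ) (sq_nonneg _))
    (fun ρ => ⟨-∑ j, sh (u j) (δ / 2) ((ρ + ‖c j0 - c j‖) ^ 2), fun x hx => by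
      rw [neg_neg]
      refine Finset.sum_le_sum fun j _ => sh_antitone (hu j) (half_pos hδ) ?_
      exact pow_le_pow_left₀ (norm_nonneg _)
        ((norm_sub_le_norm_sub_add_norm_sub x (c j0) (c j)).trans (by linarith)) 2⟩)
    (fun ρ hρ => ?_) (hUm c') (hUM c') hφ'
    (L' := |∑ j, sh (u j) (δ / 2) 0| + |∑ j, ut (u j) δ ((ρ' + ‖c' j‖) ^ 2)|) (fun x hx => ?_)
    (m0_nice c) (fun x => ?_) (m0_nice c') (cg := rexp (-∑ j, (ρ' + ‖c' j‖) ^ 2)) (Real.exp_pos _)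
    (fun x hx => ?_) (fun τ hτ k => ?_) hn
  · set R := ρ + ∑ j, ‖c j0 - c j‖ with hR
    have hR0 : 0 < R := by positivity
    refine ⟨δ / (4 * R), by positivity, fun x y hy hxy => Finset.sum_le_sum fun j _ => ?_⟩
    have h1 : ‖y - c j‖ ≤ R := by
      have := Finset.single_le_sum (f := fun j => ‖c j0 - c j‖) (fun j _ => norm_nonneg _)
        (Finset.mem_univ j)
      exact (norm_sub_le_norm_sub_add_norm_sub y (c j0) (c j)).trans (by linarith)
    have h2 : ‖y - c j‖ ≤ δ / (4 * R) + ‖x - c j‖ := by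
      have := norm_sub_le_norm_sub_add_norm_sub y x (c j)
      rw [norm_sub_rev y x] at this
      linarith
    have h3 : ‖y - c j‖ ^ 2 + δ / 2 ≤ ‖x - c j‖ ^ 2 + δ := by
      have h4 : δ / (4 * R) * (2 * R) = δ / 2 := by field_simp; ring
      have h5 : 0 < δ / (4 * R) := by positivity
      have h6 := norm_nonneg (y - c j)
      have h7 := norm_nonneg (x - c j)
      rcases le_total ‖y - c j‖ ‖x - c j‖ with h | h
      · nlinarith
      · have := mul_le_mul (show ‖y - c j‖ - ‖x - c j‖ ≤ δ / (4 * R) by linarith)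
          (show ‖y - c j‖ + ‖x - c j‖ ≤ 2 * R by linarith) (by linarith) h5.le
        nlinarith
    have h8 : 0 ≤ δ * ‖x - c j‖ ^ 2 := by positivity
    simp only [ut, sh, max_eq_left (sq_nonneg ‖x - c j‖), max_eq_left (sq_nonneg ‖y - c j‖)]
    have := hu j (show 0 < ‖y - c j‖ ^ 2 + δ / 2 by positivity)
      (show 0 < ‖x - c j‖ ^ 2 + δ by positivity) h3
    linarith
  · have h1 := hUM c' x
    have h2 : ∑ j, ut (u j) δ ((ρ' + ‖c' j‖) ^ 2) ≤ ∑ j, ut (u j) δ (‖x - c' j‖ ^ 2) :=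
      Finset.sum_le_sum fun j _ => ut_antitone (hu j) hδ (hsq j x hx)
    rw [abs_le]
    constructor
    · linarith [neg_abs_le (∑ j, ut (u j) δ ((ρ' + ‖c' j‖) ^ 2)),
        abs_nonneg (∑ j, sh (u j) (δ / 2) 0)]
    · linarith [abs_nonneg (∑ j, ut (u j) δ ((ρ' + ‖c' j‖) ^ 2)),
        le_abs_self (∑ j, sh (u j) (δ / 2) 0)]
  · rw [m0, Real.exp_le_one_iff, neg_nonpos]
    exact Finset.sum_nonneg fun j _ => sq_nonneg _
  · rw [m0, Real.exp_le_exp, neg_le_neg_iff]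
    exact Finset.sum_le_sum fun j _ => hsq j x hx
  · rw [← hX c τ hτ, ← hX c' τ hτ]
    exact hCI δ τ hδ hτ _

theorem iInf_mono_of {U U' : V → ℝ}
    (h : ∀ φ' : V → ℝ, Trial φ' → ∀ E, En U' φ' < E → ∃ φ : V → ℝ, Trial φ ∧ En U φ ≤ E) :
    (⨅ (φ : V → ℝ) (_ : Trial φ), ((En U φ : ℝ) : EReal)) ≤
      ⨅ (φ : V → ℝ) (_ : Trial φ), ((En U' φ : ℝ) : EReal) := by
  refine le_iInf₂ fun φ' hφ' => ?_
  by_contra hlt
  obtain ⟨E, hE1, hE2⟩ := EReal.lt_iff_exists_real_btwn.1 (not_le.1 hlt)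
  obtain ⟨φ, hφ, hφE⟩ := h φ' hφ' E (EReal.coe_lt_coe_iff.1 hE1)
  exact absurd ((iInf₂_le φ hφ).trans (EReal.coe_le_coe_iff.2 hφE)) (not_le.2 hE2)

omit [Fintype J] in
theorem prof_antitone {u : J → ℝ → ℝ} (hu : ∀ j, AntitoneOn (u j) (Ioi 0)) {δ τ : ℝ} (hδ : 0 < δ)
    (hτ : 0 < τ) (n : ℕ) (j : J) : Antitone (prof u δ τ n j) := by
  intro q q' h
  unfold prof
  split_ifs
  · exact Real.exp_le_exp.2 (mul_le_mul_of_nonneg_left (ut_antitone (hu j) hδ h) hτ.le)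
  · exact le_rfl

omit [Fintype J] in
theorem prof_nonneg (u : J → ℝ → ℝ) (δ τ : ℝ) (n : ℕ) (j : J) (q : ℝ) : 0 ≤ prof u δ τ n j q := by
  unfold prof
  split_ifs
  · exact (Real.exp_pos _).le
  · exact zero_le_one

omit [Fintype J] in
theorem prof_convex {u : J → ℝ → ℝ} (hu : ∀ j, ConvexOn ℝ (Ioi 0) (u j)) {δ τ : ℝ} (hδ : 0 < δ)
    (hτ : 0 < τ) (n : ℕ) (j : J) : ConvexOn ℝ (Ici 0) (prof u δ τ n j) := by
  refine ⟨convex_Ici 0, fun x hx y hy a b ha hb hab => ?_⟩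
  unfold prof
  split_ifs
  · have hx : 0 ≤ x := hx
    have hy : 0 ≤ y := hy
    have h1 := (hu j).2 (show x + δ ∈ Ioi 0 by simp only [mem_Ioi]; linarith)
      (show y + δ ∈ Ioi 0 by simp only [mem_Ioi]; linarith) ha hb hab
    have h2 := convexOn_exp.2 (mem_univ (τ * ut (u j) δ x)) (mem_univ (τ * ut (u j) δ y)) ha hb hab
    refine le_trans (Real.exp_le_exp.2 ?_) h2
    simp only [smul_eq_mul] at h1 ⊢
    have h3 : 0 ≤ a * x + b * y := by positivity
    simp only [ut, sh, max_eq_left hx, max_eq_left hy, max_eq_left h3]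
    rw [show a * (x + δ) + b * (y + δ) = a * x + b * y + δ by linear_combination δ * hab] at h1
    have := mul_le_mul_of_nonneg_left h1 hτ.le
    linarith
  · simp [hab]

end Pool.Agent.MP_bcd61f_mp

end MrgPart4

-- marker of a merged file
example : 731051 + 451366 = 731051 + 451366 := rfl
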