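import Pool.Agent.Results.MP_bcd61f_mp.LiftedPath

/- Special cases of `LiftedPath.result` (not hand-ins): the path hypothesis holds whenever the
affine dimensions of the two configurations add up to at most `d + 2`, and whenever there are at
most `d + 3` nuclei. -/

set_option autoImplicit false

open MeasureTheory Set

namespace Pool.Agent.MP_bcd61f_mp

theorem exists_embed {F : Type*} [NormedAddCommGroup F] [InnerProductSpace ℝ F]
    (S : Submodule ℝ F) [FiniteDimensional ℝ S] {n : ℕ} (hS : Module.finrank ℝ S ≤ n) {K : ℕ}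
    (p : Fin K → F) (o : F) (hp : ∀ i, p i - o ∈ S) :
    ∃ q : Fin K → EuclideanSpace ℝ (Fin n), ∀ i j, dist (q i) (q j) = dist (p i) (p j) := by
  let b := stdOrthonormalBasis ℝ S
  let v : Fin (Module.finrank ℝ S) → EuclideanSpace ℝ (Fin n) := fun k =>
    EuclideanSpace.basisFun (Fin n) ℝ (Fin.castLE hS k)
  have hv : Orthonormal ℝ v :=
    (EuclideanSpace.basisFun (Fin n) ℝ).orthonormal.comp _ (Fin.castLE_injective hS)
  let f := (b.toBasis.constr ℝ v).isometryOfOrthonormal (v := b.toBasis) b.orthonormal (by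
    have : (b.toBasis.constr ℝ v) ∘ b.toBasis = v := by funext k; simp
    rw [this]; exact hv)
  refine ⟨fun i => f ⟨p i - o, hp i⟩, fun i j => ?_⟩
  rw [f.dist_map, Subtype.dist_eq, dist_sub_right]

theorem of_interpolation (d K : ℕ) (w : Fin K → EuclideanSpace ℝ (Fin d) → ℝ)
    (hloc : ∀ j, LocallyIntegrable (w j))
    (hrad : ∀ j x y, ‖x‖ = ‖y‖ → w j x = w j y)
    (hanti : ∀ j x y, x ≠ 0 → ‖x‖ ≤ ‖y‖ → w j y ≤ w j x)
    (R R' : Fin K → EuclideanSpace ℝ (Fin d))
    (hR : ∀ i j, dist (R i) (R j) ≤ dist (R' i) (R' j))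
    (h : ∀ t ∈ Icc (0 : ℝ) 1, ∃ q : Fin K → EuclideanSpace ℝ (Fin (d + 2)), ∀ i j,
      dist (q i) (q j) = dist (WithLp.toLp 2 (√(1 - t) • R i, √t • R' i))
        (WithLp.toLp 2 (√(1 - t) • R j, √t • R' j))) :
    groundEnergy (fun x => ∑ j, w j (x - R j)) ≤ groundEnergy (fun x => ∑ j, w j (x - R' j)) := by
  choose! γ hγ using h
  have e : ∀ i j, ∀ t ∈ Icc (0 : ℝ) 1, dist (γ t i) (γ t j) =
      √((1 - t) * dist (R i) (R j) ^ 2 + t * dist (R' i) (R' j) ^ 2) := by
    intro i j t ht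
    rw [hγ t ht, WithLp.prod_dist_eq_of_L2]
    simp only [WithLp.toLp_fst, WithLp.toLp_snd, dist_smul₀, mul_pow, Real.norm_eq_abs, sq_abs,
      Real.sq_sqrt (sub_nonneg.2 ht.2), Real.sq_sqrt ht.1]
  refine Results.MP_bcd61f_mp.LiftedPath.result d K w hloc hrad hanti R R' γ
    (fun i j => ContinuousOn.congr (by fun_prop) (e i j)) (fun i j s hs t ht h => ?_)
    (fun i j => ?_) fun i j => ?_
  · simp only [e i j s hs, e i j t ht]
    have h1 := pow_le_pow_left₀ dist_nonneg (hR i j) 2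
    exact Real.sqrt_le_sqrt (by nlinarith)
  · rw [e i j 0 ⟨le_rfl, zero_le_one⟩]; simp
  · rw [e i j 1 ⟨zero_le_one, le_rfl⟩]; simp

/-- At most `d + 3` nuclei. -/
theorem few_nuclei (d K : ℕ) (hK : K ≤ d + 3) (w : Fin K → EuclideanSpace ℝ (Fin d) → ℝ)
    (hloc : ∀ j, LocallyIntegrable (w j))
    (hrad : ∀ j x y, ‖x‖ = ‖y‖ → w j x = w j y)
    (hanti : ∀ j x y, x ≠ 0 → ‖x‖ ≤ ‖y‖ → w j y ≤ w j x)
    (R R' : Fin K → EuclideanSpace ℝ (Fin d))
    (hR : ∀ i j, dist (R i) (R j) ≤ dist (R' i) (R' j)) :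
    groundEnergy (fun x => ∑ j, w j (x - R j)) ≤ groundEnergy (fun x => ∑ j, w j (x - R' j)) := by
  refine of_interpolation d K w hloc hrad hanti R R' hR fun t _ => ?_
  rcases K with _ | K
  · exact ⟨fun i => i.elim0, fun i => i.elim0⟩
  set p := fun i => WithLp.toLp 2 (√(1 - t) • R i, √t • R' i)
  refine exists_embed (vectorSpan ℝ (range p)) ?_ p (p 0) fun i =>
    vsub_mem_vectorSpan ℝ (mem_range_self i) (mem_range_self 0)
  exact (finrank_vectorSpan_range_le ℝ p (Fintype.card_fin _)).trans (by omega)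

/-- The affine dimensions of the two configurations add up to at most `d + 2` (for `d = 3`: one of
them is coplanar; for `d ≤ 2`: no condition). -/
theorem low_dimension (d K : ℕ) (w : Fin K → EuclideanSpace ℝ (Fin d) → ℝ)
    (hloc : ∀ j, LocallyIntegrable (w j))
    (hrad : ∀ j x y, ‖x‖ = ‖y‖ → w j x = w j y)
    (hanti : ∀ j x y, x ≠ 0 → ‖x‖ ≤ ‖y‖ → w j y ≤ w j x)
    (R R' : Fin K → EuclideanSpace ℝ (Fin d))
    (hdim : Module.finrank ℝ (vectorSpan ℝ (range R)) +
      Module.finrank ℝ (vectorSpan ℝ (range R')) ≤ d + 2)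
    (hR : ∀ i j, dist (R i) (R j) ≤ dist (R' i) (R' j)) :
    groundEnergy (fun x => ∑ j, w j (x - R j)) ≤ groundEnergy (fun x => ∑ j, w j (x - R' j)) := by
  refine of_interpolation d K w hloc hrad hanti R R' hR fun t _ => ?_
  rcases K with _ | K
  · exact ⟨fun i => i.elim0, fun i => i.elim0⟩
  set p := fun i => WithLp.toLp 2 (√(1 - t) • R i, √t • R' i)
  let L := (WithLp.linearEquiv 2 ℝ (EuclideanSpace ℝ (Fin d) × EuclideanSpace ℝ (Fin d))).symm
  let S := ((vectorSpan ℝ (range R)).prod (vectorSpan ℝ (range R'))).map L.toLinearMap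
  refine exists_embed S ?_ p (p 0) fun i => ?_
  · refine (Submodule.finrank_map_le _ _).trans ?_
    have e : (vectorSpan ℝ (range R)).prod (vectorSpan ℝ (range R')) =
        LinearMap.range ((vectorSpan ℝ (range R)).subtype.prodMap
          (vectorSpan ℝ (range R')).subtype) := by
      rw [LinearMap.range_prodMap, Submodule.range_subtype, Submodule.range_subtype]
    rw [e]
    refine (LinearMap.finrank_range_le _).trans ?_
    rw [Module.finrank_prod]
    exact hdim
  · refine ⟨(√(1 - t) • (R i - R 0), √t • (R' i - R' 0)), ⟨Submodule.smul_mem _ _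
      (vsub_mem_vectorSpan ℝ (mem_range_self i) (mem_range_self 0)), Submodule.smul_mem _ _
      (vsub_mem_vectorSpan ℝ (mem_range_self i) (mem_range_self 0))⟩, ?_⟩
    simp only [smul_sub]
    rfl

end Pool.Agent.MP_bcd61f_mp
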