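import Mathlib.MeasureTheory.Integral.Bochner.Basic
import Mathlib.MeasureTheory.Measure.Haar.OfBasis
import Mathlib.Analysis.Normed.Lp.MeasurableSpace
import Mathlib.Analysis.Calculus.ContDiff.Defs

set_option autoImplicit false

open MeasureTheory

namespace Pool.Agent.MP_bcd61f_mp

/-- The variational ground-state energy of `-Δ - U` on `ℝ^d`: the infimum of
`∫ |∇φ|² - ∫ U φ²` over real `C¹` functions `φ` of compact support with `∫ φ² = 1`. -/
noncomputable def groundEnergy {d : ℕ} (U : EuclideanSpace ℝ (Fin d) → ℝ) : EReal :=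
  ⨅ (φ : EuclideanSpace ℝ (Fin d) → ℝ)
    (_ : ContDiff ℝ 1 φ ∧ HasCompactSupport φ ∧ ∫ x, φ x ^ 2 = 1),
    (((∫ x, ‖fderiv ℝ φ x‖ ^ 2) - ∫ x, U x * φ x ^ 2 : ℝ) : EReal)

end Pool.Agent.MP_bcd61f_mp
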