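import Pool.Agent.MP_bcd61f_mp.Cor

/- Every expansion of seven points of three-space is a monotone motion in dimension five. -/

set_option autoImplicit false

open MeasureTheory Set Matrix
open scoped MatrixOrder

namespace Pool.Agent.MP_bcd61f_mp.Sv

/-- The form `-(1/2) ∑ D i j l i l j`. -/
noncomputable def Q {n : ℕ} (D : Fin n → Fin n → ℝ) (l : Fin n → ℝ) : ℝ :=
  -(1 / 2) * ∑ i, ∑ j, D i j * l i * l j

theorem Q_smul {n : ℕ} (D : Fin n → Fin n → ℝ) (c : ℝ) (l : Fin n → ℝ) :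
    Q D (c • l) = c ^ 2 * Q D l := by
  simp only [Q, Pi.smul_apply, smul_eq_mul, Finset.mul_sum]
  refine Finset.sum_congr rfl fun i _ => Finset.sum_congr rfl fun j _ => by ring

theorem Q_cont {n : ℕ} (D : Fin n → Fin n → ℝ) : Continuous (Q D) := by
  unfold Q; fun_prop

theorem Q_comb {n : ℕ} (D A B : Fin n → Fin n → ℝ) (s t : ℝ) (l : Fin n → ℝ) :
    Q (fun i j => D i j + s * A i j + t * B i j) l = Q D l + s * Q A l + t * Q B l := by
  simp only [Q, Finset.mul_sum, ← Finset.sum_add_distrib]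
  refine Finset.sum_congr rfl fun i _ => Finset.sum_congr rfl fun j _ => by ring

theorem sum_three {n : ℕ} (x : Fin n → ℝ) (G : Fin n → Fin n → ℝ) (l : Fin n → ℝ)
    (hl : ∑ i, l i = 0) :
    Q (fun i j => x i + x j - 2 * G i j) l = ∑ i, ∑ j, G i j * l i * l j := by
  have h1 : ∑ i, ∑ j, x i * l i * l j = 0 := by
    simp only [← Finset.mul_sum, hl, mul_zero, Finset.sum_const_zero]
  have h2 : ∑ i, ∑ j, x j * l i * l j = 0 := by
    rw [Finset.sum_comm]
    simp only [show ∀ i j, x j * l i * l j = x j * l j * l i from fun i j => by ring,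
      ← Finset.mul_sum, hl, mul_zero, Finset.sum_const_zero]
  have h3 : ∑ i, ∑ j, (x i + x j - 2 * G i j) * l i * l j =
      ∑ i, ∑ j, x i * l i * l j + ∑ i, ∑ j, x j * l i * l j - 2 * ∑ i, ∑ j, G i j * l i * l j := by
    simp only [Finset.mul_sum, ← Finset.sum_add_distrib, ← Finset.sum_sub_distrib]
    refine Finset.sum_congr rfl fun i _ => Finset.sum_congr rfl fun j _ => by ring
  unfold Q
  rw [h3, h1, h2]; ring

theorem Q_dist {n : ℕ} {F : Type*} [NormedAddCommGroup F] [InnerProductSpace ℝ F] (p : Fin n → F)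
    (l : Fin n → ℝ) (hl : ∑ i, l i = 0) :
    Q (fun i j => dist (p i) (p j) ^ 2) l = ‖∑ i, l i • p i‖ ^ 2 := by
  have e : (fun i j => dist (p i) (p j) ^ 2) =
      fun i j => ‖p i‖ ^ 2 + ‖p j‖ ^ 2 - 2 * inner ℝ (p i) (p j) := by
    funext i j; rw [dist_eq_norm, norm_sub_sq_real]; ring
  rw [e, sum_three _ _ _ hl, ← real_inner_self_eq_norm_sq, sum_inner]
  refine Finset.sum_congr rfl fun i _ => ?_
  rw [inner_sum]
  refine Finset.sum_congr rfl fun j _ => ?_
  rw [real_inner_smul_left, real_inner_smul_right]; ring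

theorem realize {n : ℕ} (D : Fin (n + 2) → Fin (n + 2) → ℝ) (hs : ∀ i j, D i j = D j i)
    (h0 : ∀ i, D i i = 0) (hp : ∀ l, ∑ i, l i = 0 → 0 ≤ Q D l)
    (hn : ∃ l, l ≠ 0 ∧ ∑ i, l i = 0 ∧ Q D l ≤ 0) :
    ∃ q : Fin (n + 2) → EuclideanSpace ℝ (Fin n), ∀ i j, dist (q i) (q j) = √(D i j) := by
  let G : Matrix (Fin (n + 2)) (Fin (n + 2)) ℝ := Matrix.of fun i j => (D i 0 + D j 0 - D i j) / 2
  have hG : ∀ i j, G i j = (D i 0 + D j 0 - D i j) / 2 := fun _ _ => rfl
  have eD : D = fun i j => D i 0 + D j 0 - 2 * G i j := by funext i j; rw [hG]; ring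
  have hpsd : G.PosSemidef := by
    rw [posSemidef_iff_dotProduct_mulVec]
    refine ⟨?_, fun x => ?_⟩
    · ext i j
      simp only [conjTranspose_apply, star_trivial, hG, hs j i]; ring
    · let l : Fin (n + 2) → ℝ := fun i => x i - if i = 0 then ∑ k, x k else 0
      have hl : ∑ i, l i = 0 := by simp [l, Finset.sum_sub_distrib]
      have h1 := hp l hl
      rw [eD, sum_three _ _ _ hl] at h1
      refine h1.trans_eq ?_
      simp only [dotProduct, mulVec, star_trivial, Finset.mul_sum]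
      refine Finset.sum_congr rfl fun i _ => Finset.sum_congr rfl fun j _ => ?_
      by_cases hi : i = 0
      · subst hi; rw [hG, h0, hs j 0]; ring
      by_cases hj : j = 0
      · subst hj; rw [hG, h0]; ring
      simp only [l, hi, hj, if_false]; ring
  obtain ⟨B, hB⟩ := CStarAlgebra.nonneg_iff_eq_star_mul_self.mp hpsd.nonneg
  let p : Fin (n + 2) → EuclideanSpace ℝ (Fin (n + 2)) := fun i => WithLp.toLp 2 fun k => B k i
  have hin : ∀ i j, inner ℝ (p i) (p j) = G i j := fun i j => by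
    rw [hB]
    simp only [p, PiLp.inner_apply, mul_apply, star_apply, star_trivial, RCLike.inner_apply,
      conj_trivial]
    exact Finset.sum_congr rfl fun k _ => mul_comm _ _
  have hd : ∀ i j, dist (p i) (p j) ^ 2 = D i j := fun i j => by
    rw [dist_eq_norm, norm_sub_sq_real, ← real_inner_self_eq_norm_sq, ← real_inner_self_eq_norm_sq,
      hin, hin, hin, hG, hG, hG, h0, h0]
    ring
  obtain ⟨l, hl0, hl, hq⟩ := hn
  have hz : ∑ i, l i • p i = 0 := by
    have h1 := Q_dist p l hl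
    simp only [hd] at h1
    have h2 : ‖∑ i, l i • p i‖ ^ 2 ≤ 0 := h1 ▸ hq
    exact norm_eq_zero.1 (by nlinarith [norm_nonneg (∑ i, l i • p i)])
  have hna : ¬ AffineIndependent ℝ p := fun h =>
    hl0 (funext fun i => affineIndependent_iff.1 h Finset.univ l hl hz i (Finset.mem_univ i))
  obtain ⟨q, hq⟩ := exists_embed (vectorSpan ℝ (range p))
    ((finrank_vectorSpan_le_iff_not_affineIndependent ℝ p (Fintype.card_fin _)).2 hna) p (p 0)
    fun i => vsub_mem_vectorSpan ℝ (mem_range_self i) (mem_range_self 0)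
  exact ⟨q, fun i j => by rw [hq, ← hd, Real.sqrt_sq dist_nonneg]⟩

/-- The outer boundary arc of a planar section of the cone of nonnegative forms. -/
theorem arc {n : ℕ} (D A B : Fin n → Fin n → ℝ)
    (hD : ∀ l, ∑ i, l i = 0 → 0 ≤ Q D l)
    (hE : ∀ l, ∑ i, l i = 0 → 0 ≤ Q D l + Q A l + Q B l)
    (ha : ∃ l, l ≠ 0 ∧ ∑ i, l i = 0 ∧ Q D l = 0 ∧ Q A l ≤ 0)
    (hb : ∃ l, l ≠ 0 ∧ ∑ i, l i = 0 ∧ Q D l + Q A l + Q B l = 0 ∧ 0 ≤ Q B l) :
    ∃ h : ℝ → ℝ, h 0 = 0 ∧ h 1 = 0 ∧
      (∀ u ∈ Icc (0 : ℝ) 1, ∀ v ∈ Icc (0 : ℝ) 1, u ≤ v → |h v - h u| ≤ v - u) ∧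
      ∀ u ∈ Icc (0 : ℝ) 1,
        (∀ l, ∑ i, l i = 0 → 0 ≤ Q D l + (u + h u) * Q A l + (u - h u) * Q B l) ∧
        ∃ l, l ≠ 0 ∧ ∑ i, l i = 0 ∧ Q D l + (u + h u) * Q A l + (u - h u) * Q B l ≤ 0 := by
  let S : ℝ → Set ℝ := fun u => {x | 0 ≤ x ∧ x ≤ u ∧ x ≤ 1 - u ∧
    ∀ l, ∑ i, l i = 0 → 0 ≤ Q D l + (u + x) * Q A l + (u - x) * Q B l}
  have hc : ∀ u, IsClosed (S u) := fun u => by
    simp only [S, ofPred_and, ofPred_forall]
    refine isClosed_Ici.inter (isClosed_Iic.inter (isClosed_Iic.inter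
      (isClosed_iInter fun l => isClosed_iInter fun _ => isClosed_le continuous_const ?_)))
    fun_prop
  have hbd : ∀ u, BddAbove (S u) := fun u => ⟨u, fun x hx => hx.2.1⟩
  have hne : ∀ u ∈ Icc (0 : ℝ) 1, (S u).Nonempty := fun u hu =>
    ⟨0, le_rfl, hu.1, by linarith [hu.2], fun l hl => by
      have h1 := mul_nonneg (sub_nonneg.2 hu.2) (hD l hl)
      have h2 := mul_nonneg hu.1 (hE l hl)
      nlinarith⟩
  have hm : ∀ u ∈ Icc (0 : ℝ) 1, sSup (S u) ∈ S u := fun u hu =>
    (hc u).csSup_mem (hne u hu) (hbd u)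
  refine ⟨fun u => sSup (S u), ?_, ?_, ?_, ?_⟩
  · have := hm 0 ⟨le_rfl, zero_le_one⟩
    exact le_antisymm this.2.1 this.1
  · have := hm 1 ⟨zero_le_one, le_rfl⟩
    exact le_antisymm (by simpa using this.2.2.1) this.1
  · intro u hu v hv huv
    rcases huv.eq_or_lt with rfl | hlt
    · simp
    obtain ⟨a0, a1, a2, a3⟩ := hm u hu
    obtain ⟨b0, b1, b2, b3⟩ := hm v hv
    set x := sSup (S u)
    set y := sSup (S v)
    have hu1 : 0 < 1 - u := by linarith [hv.2]
    have hv0 : 0 < v := by linarith [hu.1]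
    have k1 : (1 - v) / (1 - u) * x ∈ S v := by
      set c := (1 - v) / (1 - u) with hcd
      have c0 : 0 ≤ c := div_nonneg (by linarith [hv.2]) hu1.le
      have c1 : c * (1 - u) = 1 - v := div_mul_cancel₀ _ hu1.ne'
      have c2 : c ≤ 1 := by rw [hcd, div_le_one hu1]; linarith
      refine ⟨mul_nonneg c0 a0, by nlinarith, by nlinarith, fun l hl => ?_⟩
      have h1 := mul_nonneg c0 (a3 l hl)
      have h2 := mul_nonneg (sub_nonneg.2 c2) (hE l hl)
      have e : v = c * u + (1 - c) := by linarith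
      rw [e]; nlinarith
    have k2 : u / v * y ∈ S u := by
      set c := u / v with hcd
      have c0 : 0 ≤ c := div_nonneg hu.1 hv0.le
      have c1 : c * v = u := div_mul_cancel₀ _ hv0.ne'
      have c2 : c ≤ 1 := by rw [hcd, div_le_one hv0]; linarith
      refine ⟨mul_nonneg c0 b0, by nlinarith, by nlinarith, fun l hl => ?_⟩
      have h1 := mul_nonneg c0 (b3 l hl)
      have h2 := mul_nonneg (sub_nonneg.2 c2) (hD l hl)
      rw [← c1]; nlinarith
    have m1 : (1 - v) / (1 - u) * x ≤ y := le_csSup (hbd v) k1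
    have m2 : u / v * y ≤ x := le_csSup (hbd u) k2
    rw [div_mul_eq_mul_div, div_le_iff₀ hu1] at m1
    rw [div_mul_eq_mul_div, div_le_iff₀ hv0] at m2
    show |y - x| ≤ v - u
    rw [abs_le]
    constructor
    · have : x - y ≤ v - u := le_of_mul_le_mul_right (by nlinarith) hu1
      linarith
    · exact le_of_mul_le_mul_right (by nlinarith) hv0
  · intro u hu
    obtain ⟨a0, a1, a2, a3⟩ := hm u hu
    set x := sSup (S u) with hx
    refine ⟨a3, ?_⟩
    show ∃ l, l ≠ 0 ∧ ∑ i, l i = 0 ∧ Q D l + (u + x) * Q A l + (u - x) * Q B l ≤ 0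
    rcases a1.eq_or_lt with e | a1'
    · obtain ⟨l, l0, l1, l2, l3⟩ := ha
      exact ⟨l, l0, l1, by rw [e, l2]; nlinarith [hu.1]⟩
    rcases a2.eq_or_lt with e | a2'
    · obtain ⟨l, l0, l1, l2, l3⟩ := hb
      exact ⟨l, l0, l1, by rw [e]; nlinarith [hu.2]⟩
    by_contra hcon
    push Not at hcon
    let K : Set (Fin n → ℝ) := {l | ‖l‖ = 1 ∧ ∑ i, l i = 0}
    have hK : IsCompact K := by
      refine (isCompact_sphere (0 : Fin n → ℝ) 1).of_isClosed_subset ?_ fun l hl => by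
        simpa using hl.1
      exact (isClosed_eq continuous_norm continuous_const).inter
        (isClosed_eq (by fun_prop) continuous_const)
    have hunit : ∀ l : Fin n → ℝ, l ≠ 0 → ∑ i, l i = 0 → ‖l‖⁻¹ • l ∈ K := fun l l0 l1 =>
      ⟨by rw [norm_smul, norm_inv, norm_norm, inv_mul_cancel₀ (norm_ne_zero_iff.2 l0)],
        by simp [← Finset.mul_sum, l1]⟩
    obtain ⟨l, l0, l1, -⟩ := ha
    have cA := Q_cont A
    have cB := Q_cont B
    have cD := Q_cont D
    obtain ⟨m, hmK, hmin⟩ := hK.exists_isMinOn ⟨_, hunit l l0 l1⟩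
      (f := fun l => Q D l + (u + x) * Q A l + (u - x) * Q B l) (by fun_prop)
    obtain ⟨M, hM⟩ := hK.exists_bound_of_continuousOn (f := fun l => Q A l - Q B l) (by fun_prop)
    set c := Q D m + (u + x) * Q A m + (u - x) * Q B m with hcd
    have c0 : 0 < c := hcon m (fun h => by have := hmK.1; rw [h] at this; simp at this) hmK.2
    have M0 : 0 ≤ M := (norm_nonneg _).trans (hM m hmK)
    set ε := min (c / (M + 1)) (min (u - x) (1 - u - x)) with hε
    have e0 : 0 < ε := lt_min (by positivity) (lt_min (by linarith) (by linarith))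
    have e1 : ε * (M + 1) ≤ c := (le_div_iff₀ (by positivity)).1 (min_le_left _ _)
    have e2 : ε ≤ u - x := (min_le_right _ _).trans (min_le_left _ _)
    have e3 : ε ≤ 1 - u - x := (min_le_right _ _).trans (min_le_right _ _)
    have hk : x + ε ∈ S u := by
      refine ⟨by linarith, by linarith, by linarith, fun l hl => ?_⟩
      by_cases l0 : l = 0
      · subst l0; simp [Q]
      have k1 : c ≤ _ := hmin (hunit l l0 hl)
      have k2 := (abs_le.1 (hM _ (hunit l l0 hl))).1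
      simp only [Q_smul] at k1 k2
      have p0 : 0 < (‖l‖⁻¹) ^ 2 := by have := norm_pos_iff.2 l0; positivity
      refine le_of_mul_le_mul_left ?_ p0
      nlinarith [mul_le_mul_of_nonneg_left k2 e0.le]
    have := le_csSup (hbd u) hk
    linarith

theorem dep (p : Fin 7 → EuclideanSpace ℝ (Fin 3)) (T : Finset (Fin 7)) (hT : T.card ≤ 2) :
    ∃ l : Fin 7 → ℝ, l ≠ 0 ∧ ∑ i, l i = 0 ∧ ∑ i, l i • p i = 0 ∧ ∀ i ∈ T, l i = 0 := by
  let L : (Fin 7 → ℝ) →ₗ[ℝ] ℝ × EuclideanSpace ℝ (Fin 3) × (T → ℝ) :=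
    (Fintype.linearCombination ℝ fun _ => (1 : ℝ)).prod ((Fintype.linearCombination ℝ p).prod
      (LinearMap.pi fun i : T => LinearMap.proj i.1))
  have h : LinearMap.ker L ≠ ⊥ := L.ker_ne_bot_of_finrank_lt (by
    simp [Module.finrank_prod]; omega)
  obtain ⟨l, hl, l0⟩ := (Submodule.ne_bot_iff _).1 h
  rw [LinearMap.mem_ker] at hl
  have h1 : Fintype.linearCombination ℝ (fun _ => (1 : ℝ)) l = 0 := congrArg Prod.fst hl
  have h2 : Fintype.linearCombination ℝ p l = 0 := congrArg (fun z => z.2.1) hl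
  rw [Fintype.linearCombination_apply] at h1 h2
  exact ⟨l, l0, by simpa using h1, h2, fun i hi => congrArg (fun z => z.2.2 ⟨i, hi⟩) hl⟩

theorem dep_neg (p : Fin 7 → EuclideanSpace ℝ (Fin 3)) :
    ∃ l : Fin 7 → ℝ, l ≠ 0 ∧ ∑ i, l i = 0 ∧ ∑ i, l i • p i = 0 ∧
      (Finset.univ.filter fun i => l i < 0).card ≤ 2 := by
  obtain ⟨l, l0, l1, l2, l3⟩ := dep p {5, 6} (by decide)
  by_cases h : (Finset.univ.filter fun i => l i < 0).card ≤ 2
  · exact ⟨l, l0, l1, l2, h⟩
  refine ⟨-l, neg_ne_zero.2 l0, by simp [l1], by simp [l2], ?_⟩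
  have dj : Disjoint (Finset.univ.filter fun i => l i < 0)
      (Finset.univ.filter fun i => (-l) i < 0) := by
    rw [Finset.disjoint_filter]
    intro i _ h1 h2
    simp only [Pi.neg_apply] at h2
    linarith
  have sb : (Finset.univ.filter fun i => l i < 0) ∪ (Finset.univ.filter fun i => (-l) i < 0) ⊆
      ({5, 6} : Finset (Fin 7))ᶜ := by
    intro i hi
    rw [Finset.mem_compl]
    intro h5
    simp [l3 i h5] at hi
  have := Finset.card_le_card sb
  rw [Finset.card_union_of_disjoint dj, Finset.card_compl] at this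
  have e : ({5, 6} : Finset (Fin 7)).card = 2 := by decide
  simp only [Fintype.card_fin, e] at this
  omega

theorem motion (R R' : Fin 7 → EuclideanSpace ℝ (Fin 3))
    (hR : ∀ i j, dist (R i) (R j) ≤ dist (R' i) (R' j)) :
    ∃ γ : ℝ → Fin 7 → EuclideanSpace ℝ (Fin 5),
      (∀ i j, ContinuousOn (fun t => dist (γ t i) (γ t j)) (Icc 0 1)) ∧
      (∀ i j, MonotoneOn (fun t => dist (γ t i) (γ t j)) (Icc 0 1)) ∧
      (∀ i j, dist (γ 0 i) (γ 0 j) = dist (R i) (R j)) ∧
      ∀ i j, dist (γ 1 i) (γ 1 j) = dist (R' i) (R' j) := by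
  obtain ⟨l, l0, l1, l2, l3⟩ := dep_neg R
  set T := Finset.univ.filter fun i => l i < 0 with hT
  obtain ⟨m, m0, m1, m2, m3⟩ := dep R' T l3
  let D : Fin 7 → Fin 7 → ℝ := fun i j => dist (R i) (R j) ^ 2
  let δ : Fin 7 → Fin 7 → ℝ := fun i j => dist (R' i) (R' j) ^ 2 - dist (R i) (R j) ^ 2
  let A : Fin 7 → Fin 7 → ℝ := fun i j => if i ∈ T ∨ j ∈ T then 0 else δ i j
  let B : Fin 7 → Fin 7 → ℝ := fun i j => if i ∈ T ∨ j ∈ T then δ i j else 0
  have d0 : ∀ i j, 0 ≤ δ i j := fun i j => sub_nonneg.2 (pow_le_pow_left₀ dist_nonneg (hR i j) 2)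
  have A0 : ∀ i j, 0 ≤ A i j := fun i j => by simp only [A]; split_ifs; exacts [le_rfl, d0 i j]
  have B0 : ∀ i j, 0 ≤ B i j := fun i j => by simp only [B]; split_ifs; exacts [d0 i j, le_rfl]
  have hAB : ∀ i j, D i j + 1 * A i j + 1 * B i j = dist (R' i) (R' j) ^ 2 := fun i j => by
    simp only [A, B, D, δ]; split_ifs <;> ring
  have hE : ∀ x, ∑ i, x i = 0 → Q D x + Q A x + Q B x = ‖∑ i, x i • R' i‖ ^ 2 := fun x hx => by
    have := Q_comb D A B 1 1 x
    simp only [hAB] at this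
    rw [← Q_dist R' x hx, this]; ring
  obtain ⟨h, h0, h1, hL, hP⟩ := arc D A B (fun x hx => by rw [Q_dist R x hx]; positivity)
    (fun x hx => by rw [hE x hx]; positivity)
    ⟨l, l0, l1, by rw [Q_dist R l l1, l2]; simp, by
      have : 0 ≤ ∑ i, ∑ j, A i j * l i * l j :=
        Finset.sum_nonneg fun i _ => Finset.sum_nonneg fun j _ => by
          simp only [A]
          split_ifs with hh
          · simp
          · simp only [hT, Finset.mem_filter, Finset.mem_univ, true_and, not_or, not_lt] at hh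
            exact mul_nonneg (mul_nonneg (d0 i j) hh.1) hh.2
      unfold Q; linarith⟩
    ⟨m, m0, m1, by rw [hE m m1, m2]; simp, by
      have : ∑ i, ∑ j, B i j * m i * m j = 0 :=
        Finset.sum_eq_zero fun i _ => Finset.sum_eq_zero fun j _ => by
          simp only [B]
          split_ifs with hh
          · rcases hh with hh | hh <;> simp [m3 _ hh]
          · simp
      unfold Q; rw [this]; simp⟩
  have hq : ∀ u ∈ Icc (0 : ℝ) 1, ∃ q : Fin 7 → EuclideanSpace ℝ (Fin 5), ∀ i j,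
      dist (q i) (q j) = √(D i j + (u + h u) * A i j + (u - h u) * B i j) := fun u hu =>
    realize (n := 5) (fun i j => D i j + (u + h u) * A i j + (u - h u) * B i j)
      (fun i j => by simp only [D, A, B, δ, dist_comm (R i), dist_comm (R' i), or_comm])
      (fun i => by simp [D, A, B, δ])
      (fun x hx => by rw [Q_comb]; exact (hP u hu).1 x hx)
      (by simpa only [Q_comb] using (hP u hu).2)
  choose! γ hγ using hq
  have hc : ContinuousOn h (Icc 0 1) := by
    refine (LipschitzOnWith.of_dist_le_mul (K := 1) fun u hu v hv => ?_).continuousOn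
    rw [NNReal.coe_one, one_mul, Real.dist_eq, Real.dist_eq]
    rcases le_total u v with huv | huv
    · rw [abs_sub_comm]; exact (hL u hu v hv huv).trans (by rw [abs_sub_comm]; exact le_abs_self _)
    · exact (hL v hv u hu huv).trans (le_abs_self _)
  refine ⟨γ, fun i j => ContinuousOn.congr (f := fun u =>
      √(D i j + (u + h u) * A i j + (u - h u) * B i j)) (by fun_prop) fun u hu => hγ u hu i j,
    fun i j u hu v hv huv => ?_, fun i j => ?_, fun i j => ?_⟩
  · simp only [hγ u hu, hγ v hv]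
    have := abs_le.1 (hL u hu v hv huv)
    refine Real.sqrt_le_sqrt ?_
    have k1 := mul_nonneg (show 0 ≤ v + h v - (u + h u) by linarith) (A0 i j)
    have k2 := mul_nonneg (show 0 ≤ v - h v - (u - h u) by linarith) (B0 i j)
    nlinarith
  · rw [hγ 0 ⟨le_rfl, zero_le_one⟩, h0]; simp [D]
  · rw [hγ 1 ⟨zero_le_one, le_rfl⟩, h1, add_zero, sub_zero, hAB, Real.sqrt_sq dist_nonneg]

end Pool.Agent.MP_bcd61f_mp.Sv
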